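import Mathlib
import Pool.Agent.Helper32.PumpTypes

set_option autoImplicit false

/-! Functions bounded by iterated exponentials of fixed height; the number of types. -/

namespace Pool.Agent.Helper72.WT

open Pool.Agent.Helper32.Pump

/-- iterated exponentials -/
def tw : ℕ → ℕ → ℕ
  | 0, x => x
  | j + 1, x => 2 ^ tw j x

lemma tw_mono (j : ℕ) {x y : ℕ} (h : x ≤ y) : tw j x ≤ tw j y := by
  induction j with
  | zero => exact h
  | succ j ih => exact Nat.pow_le_pow_right (by norm_num) ih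

lemma le_tw (j x : ℕ) : x ≤ tw j x := by
  induction j with
  | zero => exact le_rfl
  | succ j ih => exact ih.trans (Nat.lt_two_pow_self).le

lemma tw_add (j i x : ℕ) : tw j (tw i x) = tw (j + i) x := by
  induction j with
  | zero => rw [Nat.zero_add]; rfl
  | succ j ih =>
    rw [Nat.succ_add]
    show 2 ^ tw j (tw i x) = 2 ^ tw (j + i) x
    rw [ih]

lemma tw_le {j j' x y : ℕ} (h : j ≤ j') (hxy : x ≤ y) : tw j x ≤ tw j' y := by
  obtain ⟨d, rfl⟩ := Nat.exists_eq_add_of_le h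
  rw [← tw_add]
  exact tw_mono j (hxy.trans (le_tw d y))

/-- bounded by an iterated exponential -/
def EB (f : ℕ → ℕ) : Prop := ∃ j c, ∀ r, f r ≤ tw j (r + c)

lemma EB.two {f g : ℕ → ℕ} (hf : EB f) (hg : EB g) :
    ∃ j c, ∀ r, f r ≤ tw j (r + c) ∧ g r ≤ tw j (r + c) := by
  obtain ⟨j, c, h⟩ := hf
  obtain ⟨j', c', h'⟩ := hg
  exact ⟨max j j', max c c', fun r => ⟨(h r).trans (tw_le (le_max_left _ _) (by
    have := le_max_left c c'; omega)), (h' r).trans (tw_le (le_max_right _ _) (by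
    have := le_max_right c c'; omega))⟩⟩

lemma EB.of_le {f g : ℕ → ℕ} (hg : EB g) (h : ∀ r, f r ≤ g r) : EB f := by
  obtain ⟨j, c, hj⟩ := hg
  exact ⟨j, c, fun r => (h r).trans (hj r)⟩

lemma EB.const (a : ℕ) : EB fun _ => a := ⟨0, a, fun r => Nat.le_add_left a r⟩

lemma EB.ident : EB fun r => r := ⟨0, 0, fun _ => le_rfl⟩

lemma two_mul_le_two_pow (x : ℕ) : 2 * x ≤ 2 ^ x := by
  cases x with
  | zero => norm_num
  | succ x =>
    rw [pow_succ']
    exact Nat.mul_le_mul_left 2 Nat.lt_two_pow_self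

lemma EB.two_pow {f : ℕ → ℕ} (hf : EB f) : EB fun r => 2 ^ f r := by
  obtain ⟨j, c, hj⟩ := hf
  exact ⟨j + 1, c, fun r => Nat.pow_le_pow_right (by norm_num) (hj r)⟩

lemma EB.add {f g : ℕ → ℕ} (hf : EB f) (hg : EB g) : EB fun r => f r + g r := by
  obtain ⟨j, c, h⟩ := hf.two hg
  refine ⟨j + 1, c, fun r => ?_⟩
  have h1 := two_mul_le_two_pow (tw j (r + c))
  have h2 := h r
  show f r + g r ≤ 2 ^ tw j (r + c)
  omega

lemma EB.mul {f g : ℕ → ℕ} (hf : EB f) (hg : EB g) : EB fun r => f r * g r := by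
  refine EB.of_le (hf.add hg).two_pow fun r => ?_
  show f r * g r ≤ 2 ^ (f r + g r)
  rw [pow_add]
  exact Nat.mul_le_mul Nat.lt_two_pow_self.le Nat.lt_two_pow_self.le

lemma EB.pow {f g : ℕ → ℕ} (hf : EB f) (hg : EB g) : EB fun r => f r ^ g r := by
  refine EB.of_le (hf.mul hg).two_pow fun r => ?_
  show f r ^ g r ≤ 2 ^ (f r * g r)
  rw [pow_mul]
  exact Nat.pow_le_pow_left Nat.lt_two_pow_self.le _

lemma EB.factorial {f : ℕ → ℕ} (hf : EB f) : EB fun r => (f r).factorial :=
  EB.of_le (hf.pow hf) fun r => Nat.factorial_le_pow (f r)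

/-- iterated logarithms -/
lemma log_tw (j x : ℕ) : (Nat.log 2)^[j] (tw j x) = x := by
  induction j with
  | zero => rfl
  | succ j ih =>
    rw [Function.iterate_succ_apply]
    show (Nat.log 2)^[j] (Nat.log 2 (2 ^ tw j x)) = x
    rw [Nat.log_pow (by norm_num)]
    exact ih

lemma logi_mono (j : ℕ) : Monotone ((Nat.log 2)^[j]) :=
  Monotone.iterate (f := Nat.log 2) (fun _ _ h => Nat.log_mono_right h) j

/-- an EB function is eventually below every slowly growing inverse -/
lemma EB.log_lt {f : ℕ → ℕ} (hf : EB f) :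
    ∃ h r₁, 1 ≤ r₁ ∧ ∀ r, r₁ ≤ r → ∀ n, n ≤ f r → (Nat.log 2)^[h] n < r := by
  obtain ⟨j, c, hj⟩ := hf
  refine ⟨j + 1, c + 1, by omega, fun r hr n hn => ?_⟩
  rw [Function.iterate_succ_apply']
  have h1 : (Nat.log 2)^[j] n ≤ r + c := by
    have h2 := logi_mono j (hn.trans (hj r))
    rw [log_tw] at h2
    exact h2
  have h3 : Nat.log 2 ((Nat.log 2)^[j] n) ≤ Nat.log 2 (r + c) := Nat.log_mono_right h1
  refine lt_of_le_of_lt h3 ?_
  refine Nat.log_lt_of_lt_pow (by omega) ?_
  have h4 := two_mul_le_two_pow r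
  omega

/-- the number of `q`-types over `r` colours -/
theorem EB.card_T (V : Voc) [hV : V.Fin] (q : ℕ) :
    ∀ n : ℕ, EB fun r => Nat.card (T (Unit × Fin r) V q n) := by
  have h1 := hV.fin
  have h2 := hV.far
  have h0 : ∀ n : ℕ, EB fun r => Nat.card (T0 (Unit × Fin r) V n) := by
    intro n
    have e : ∀ r : ℕ, Nat.card (T0 (Unit × Fin r) V n) = r ^ n *
        Nat.card ((∀ R : V.ι, (V.ar R → Fin n) → Prop) × (Fin n → Fin n → Prop)) := by
      intro r
      show Nat.card ((Fin n → Unit × Fin r) ×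
        ((∀ R : V.ι, (V.ar R → Fin n) → Prop) × (Fin n → Fin n → Prop))) = _
      rw [Nat.card_prod, Nat.card_fun, Nat.card_prod]
      simp
    simp only [e]
    exact (EB.ident.pow (EB.const n)).mul (EB.const _)
  induction q with
  | zero => exact h0
  | succ q ih =>
    intro n
    have e : ∀ r : ℕ, Nat.card (T (Unit × Fin r) V (q + 1) n) =
        Nat.card (T0 (Unit × Fin r) V n) * 2 ^ Nat.card (T (Unit × Fin r) V q (n + 1)) := by
      intro r
      show Nat.card (T0 (Unit × Fin r) V n × Set (T (Unit × Fin r) V q (n + 1))) = _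
      rw [Nat.card_prod]
      congr 1
      show Nat.card (T (Unit × Fin r) V q (n + 1) → Prop) = _
      rw [Nat.card_fun]
      simp
    simp only [e]
    exact (h0 n).mul (ih (n + 1)).two_pow

end Pool.Agent.Helper72.WT
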