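import Mathlib
import Pool.Agent.Helper72.WT.Num

set_option autoImplicit false

/-!
# WT, part 2: encoded structures

A structure on `m` points is encoded in a structure `U` with points of the following kinds: base
points (level `0`), tree nodes of the levels `1, …, H` (predicates `lv j`), top nodes (level
`H + 1`, predicates `top κ i`: the `i`-th coordinate of a cell of kind `κ`), cells of kind `κ`.
`par y x`: `x` is the parent of `y`. `e x w`: the base point `w` is a member of the node `x` of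
level `1`; the members of a node of level `j + 1` are the values of its marked children. `ev j`:
equality of the values of two nodes of level `j`. `av j`: the value avoids the base point marked
by `z` hereditarily.
-/

namespace Pool.Agent.Helper72.WT

/-- A finite set of kinds of cells with arities and a distinguished kind of arity one. -/
structure Sg where
  ι : Type
  fin : Fintype ι
  ar : ι → ℕ
  o : ι
  ho : ar o = 1

instance (s : Sg) : Fintype s.ι := s.fin

/-- The relations of an encoded structure. -/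
structure Rw (s : Sg) (H : ℕ) (U : Type) where
  lv : Fin (H + 1) → U → Prop
  top : ∀ κ : s.ι, Fin (s.ar κ) → U → Prop
  cell : s.ι → U → Prop
  z : U → Prop
  mar : U → Prop
  par : U → U → Prop
  e : U → U → Prop

variable {s : Sg} {H : ℕ} {U : Type}

/-- The kinds of points. -/
abbrev Kd (s : Sg) (H : ℕ) : Type := Fin (H + 1) ⊕ ((Σ κ : s.ι, Fin (s.ar κ)) ⊕ s.ι)

/-- `x` is a point of kind `q`. -/
def Rw.kd (A : Rw s H U) : Kd s H → U → Prop
  | Sum.inl j, x => A.lv j x
  | Sum.inr (Sum.inl p), x => A.top p.1 p.2 x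
  | Sum.inr (Sum.inr κ), x => A.cell κ x

/-- `x` is a node of level `j`. -/
def Rw.Lv (A : Rw s H U) (j : ℕ) (x : U) : Prop :=
  (∃ hj : j < H + 1, A.lv ⟨j, hj⟩ x) ∨ (j = H + 1 ∧ ∃ κ i, A.top κ i x)

/-- membership of `y` in `x`, given the equality of values of the level of `y` -/
def Rw.In (A : Rw s H U) : ℕ → (U → U → Prop) → U → U → Prop
  | 0, _, y, x => A.e x y
  | _ + 1, ev, y, x => ∃ y', A.par y' x ∧ A.mar y' ∧ ev y y'

/-- equality of the values of nodes of level `j` -/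
def Rw.ev (A : Rw s H U) : ℕ → U → U → Prop
  | 0, x, y => x = y
  | j + 1, x, y => ∀ w, A.Lv j w → (A.In j (A.ev j) w x ↔ A.In j (A.ev j) w y)

/-- the value of the node `y` of level `j` is a member of the value of the node `x` of level
`j + 1` -/
def Rw.mem (A : Rw s H U) (j : ℕ) (y x : U) : Prop := A.In j (A.ev j) y x

/-- the value of `x` avoids the marked base point -/
def Rw.av (A : Rw s H U) : ℕ → U → Prop
  | 0, x => ¬ A.z x
  | j + 1, x => ∀ y, A.Lv j y → A.mem j y x → A.av j y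

/-- the value of `x'` is obtained from the value of `x` by toggling the member `y` -/
def Rw.Tog (A : Rw s H U) (j : ℕ) (x y x' : U) : Prop :=
  ∀ w, A.Lv j w → (A.mem j w x' ↔ ¬ (A.mem j w x ↔ A.ev j y w))

/-- The coordinates of the cell `c` of kind `κ` are the values of the top nodes `v`. -/
def Rw.Cc (A : Rw s H U) (κ : s.ι) (v : Fin (s.ar κ) → U) (c : U) : Prop :=
  A.cell κ c ∧ ∀ i, ∃ y, A.par y c ∧ A.top κ i y ∧ A.ev (H + 1) (v i) y

/-- **Encoded structures.** -/
structure Rw.Ax (A : Rw s H U) : Prop where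
  kind : ∀ x, ∃! q : Kd s H, A.kd q x
  par_lv : ∀ y x, A.par y x → (∃ j, 1 ≤ j ∧ j ≤ H ∧ A.Lv j y ∧ A.Lv (j + 1) x) ∨
    (∃ κ i, A.top κ i y ∧ A.cell κ x)
  par_ex : ∀ j, 1 ≤ j → j ≤ H + 1 → ∀ y, A.Lv j y → ∃! x, A.par y x
  child : ∀ j, 1 ≤ j → j ≤ H → ∀ x, A.Lv (j + 1) x → ∀ y, A.Lv j y →
    ∃! y', A.par y' x ∧ A.ev j y y'
  coord : ∀ κ c, A.cell κ c → ∀ i, ∃! y, A.par y c ∧ A.top κ i y
  cells : ∀ κ (v : Fin (s.ar κ) → U), (∀ i, A.Lv (H + 1) (v i)) → ∃! c, A.Cc κ v c
  he : ∀ x w, A.e x w → A.Lv 1 x ∧ A.Lv 0 w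
  hz : ∃! w, A.Lv 0 w ∧ A.z w
  full0 : ∀ j, j < H → ∃ x, A.Lv (j + 1) x ∧ ∀ y, A.Lv j y → ¬ A.mem j y x
  full1 : ∀ j, j < H → ∀ x, A.Lv (j + 1) x → ∀ y, A.Lv j y →
    ∃ x', A.Lv (j + 1) x' ∧ A.Tog j x y x'
  top0 : ∃ x, A.Lv (H + 1) x ∧ ∀ y, A.Lv H y → ¬ A.mem H y x
  top1 : ∀ x, A.Lv (H + 1) x → A.av (H + 1) x → ∀ y, A.Lv H y → A.av H y →
    ∃ x', A.Lv (H + 1) x' ∧ A.Tog H x y x'
  top2 : ∃ x, A.Lv (H + 1) x ∧ ¬ A.av (H + 1) x

/-- The relation of kind `κ` on the points (cells of kind `o`): the cell of kind `κ` with the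
coordinates of the points `v` is marked. -/
def Rw.Rl (A : Rw s H U) (κ : s.ι) (v : Fin (s.ar κ) → U) : Prop :=
  ∃ c, A.cell κ c ∧ A.mar c ∧ ∀ i, ∃ y y', A.par y c ∧ A.top κ i y ∧ A.par y' (v i) ∧
    A.ev (H + 1) y' y

/-- the number of nodes of level `H + 1 - d`, for `k` base points and `m` points -/
def lev (s : Sg) (H k m : ℕ) : ℕ → ℕ
  | 0 => ∑ κ : s.ι, s.ar κ * m ^ s.ar κ
  | d + 1 => lev s H k m d * tw (H - d) k

/-- the number of points of an encoded structure with `k` base points and `m` points -/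
def FF (s : Sg) (H k m : ℕ) : ℕ :=
  k + ∑ κ : s.ι, m ^ s.ar κ + ∑ d ∈ Finset.range (H + 1), lev s H k m d

/-- The condition on `k` and `m`. -/
def KM (H k m : ℕ) : Prop := 1 ≤ k ∧ tw (H + 1) (k - 1) < m ∧ m ≤ tw (H + 1) k

end Pool.Agent.Helper72.WT
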