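import Mathlib
import Pool.Agent.Helper72.WT.UDefs

set_option autoImplicit false

/-! The language of encoded structures. -/

namespace Pool.Agent.Helper72.WT

open FirstOrder FirstOrder.Language

/-- Relation symbols of encoded structures. -/
inductive UR (s : Sg) (H : ℕ) : ℕ → Type
  | lv (j : Fin (H + 1)) : UR s H 1
  | top (κ : s.ι) (i : Fin (s.ar κ)) : UR s H 1
  | cell (κ : s.ι) : UR s H 1
  | z : UR s H 1
  | mar : UR s H 1
  | par : UR s H 2
  | e : UR s H 2

/-- The language of encoded structures. -/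
abbrev LU (s : Sg) (H : ℕ) : FirstOrder.Language.{0, 0} := ⟨fun _ => Empty, UR s H⟩

/-- The relations of an `LU`-structure. -/
def toRw (s : Sg) (H : ℕ) (U : Type) [(LU s H).Structure U] : Rw s H U where
  lv := fun j x => Structure.RelMap (L := LU s H) (UR.lv j) ![x]
  top := fun κ i x => Structure.RelMap (L := LU s H) (UR.top κ i) ![x]
  cell := fun κ x => Structure.RelMap (L := LU s H) (UR.cell κ) ![x]
  z := fun x => Structure.RelMap (L := LU s H) UR.z ![x]
  mar := fun x => Structure.RelMap (L := LU s H) UR.mar ![x]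
  par := fun y x => Structure.RelMap (L := LU s H) UR.par ![y, x]
  e := fun x w => Structure.RelMap (L := LU s H) UR.e ![x, w]

/-- The relation of a symbol. -/
def relRw {s : Sg} {H : ℕ} {U : Type} (A : Rw s H U) : ∀ {n : ℕ}, UR s H n → (Fin n → U) → Prop
  | _, UR.lv j, v => A.lv j (v 0)
  | _, UR.top κ i, v => A.top κ i (v 0)
  | _, UR.cell κ, v => A.cell κ (v 0)
  | _, UR.z, v => A.z (v 0)
  | _, UR.mar, v => A.mar (v 0)
  | _, UR.par, v => A.par (v 0) (v 1)
  | _, UR.e, v => A.e (v 0) (v 1)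

/-- The structure given by relations. -/
@[instance_reducible]
def ofRw {s : Sg} {H : ℕ} {U : Type} (A : Rw s H U) : (LU s H).Structure U where
  funMap := fun f _ => f.elim
  RelMap := fun R v => relRw A R v

lemma toRw_ofRw {s : Sg} {H : ℕ} {U : Type} (A : Rw s H U) :
    @toRw s H U (ofRw A) = A := rfl

lemma isEmpty_LU (s : Sg) (H n : ℕ) : IsEmpty ((LU s H).Functions n) :=
  inferInstanceAs (IsEmpty Empty)

lemma finite_LU (s : Sg) (H : ℕ) : Finite (Σ n, (LU s H).Relations n) := by
  have h : Function.Surjective (fun q : Kd s H ⊕ Fin 4 =>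
      (match q with
      | Sum.inl (Sum.inl j) => ⟨1, UR.lv j⟩
      | Sum.inl (Sum.inr (Sum.inl p)) => ⟨1, UR.top p.1 p.2⟩
      | Sum.inl (Sum.inr (Sum.inr κ)) => ⟨1, UR.cell κ⟩
      | Sum.inr 0 => ⟨1, UR.z⟩
      | Sum.inr 1 => ⟨1, UR.mar⟩
      | Sum.inr 2 => ⟨2, UR.par⟩
      | Sum.inr 3 => ⟨2, UR.e⟩ : Σ n, (LU s H).Relations n)) := by
    rintro ⟨n, R⟩
    cases R with
    | lv j => exact ⟨Sum.inl (Sum.inl j), rfl⟩
    | top κ i => exact ⟨Sum.inl (Sum.inr (Sum.inl ⟨κ, i⟩)), rfl⟩
    | cell κ => exact ⟨Sum.inl (Sum.inr (Sum.inr κ)), rfl⟩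
    | z => exact ⟨Sum.inr 0, rfl⟩
    | mar => exact ⟨Sum.inr 1, rfl⟩
    | par => exact ⟨Sum.inr 2, rfl⟩
    | e => exact ⟨Sum.inr 3, rfl⟩
  exact Finite.of_surjective _ h

lemma binary_LU (s : Sg) (H n : ℕ) (hn : 2 < n) : IsEmpty ((LU s H).Relations n) := by
  refine ⟨fun R => ?_⟩
  cases R <;> omega

/-- A relational structure given by its relations. -/
@[instance_reducible]
def istr {L : FirstOrder.Language.{0, 0}} (hL : ∀ n, IsEmpty (L.Functions n)) {N : Type}
    (q : ∀ n, L.Relations n → (Fin n → N) → Prop) : L.Structure N where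
  funMap := fun {n} f _ => ((hL n).false f).elim
  RelMap := fun {n} R v => q n R v

/-- The kinds of cells for a relational language. -/
noncomputable def sgOf (L : FirstOrder.Language.{0, 0}) (hf : Finite (Σ n, L.Relations n)) : Sg where
  ι := Option (Σ n, L.Relations n)
  fin := @Fintype.ofFinite _ inferInstance
  ar := fun κ => match κ with
    | none => 1
    | some R => R.1
  o := none
  ho := rfl

end Pool.Agent.Helper72.WT
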