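import Mathlib
import Pool.Agent.Helper31.Spectra
import Pool.Agent.Helper87.AU.UDef

set_option autoImplicit false

/-!
# WT-2: every spectrum is the spectrum of a sentence over a relational vocabulary

Proof. For a language `L` let `Lr` be the relational language with the relation symbols of `L` and an
`(n + 1)`-ary relation symbol for every `n`-ary function symbol (the graph). An `L`-structure `S` on `M` gives the
`Lr`-structure `graph S` (graph of `f` at `v : Fin (n + 1) → M`: `S.funMap f (Fin.init v) = v (Fin.last n)`).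
1. Terms: for every `t : L.Term α` there is `Q` with `UDef Lr (α ⊕ Unit) Q` such that for all `M`, `S : L.Structure M`,
   `v`: `Q M (graph S) v ↔ t.realize (v ∘ Sum.inl) = v (Sum.inr ())`. Induction: variable `UDef.varEq`;
   `func f ts`: `∃ z : Fin k → M, (∀ s, Q_s (v, z s)) ∧ graph of f at (z, y)` (`UDef.ex`, `allFin`, `relabel`, `rel`).
2. Formulas: for `θ : L.BoundedFormula Empty n` there is `Q` with `UDef Lr (Fin n) Q` and
   `Q M (graph S) v ↔ θ.Realize default v` for all `M`, `S`, `v`. `equal t₁ t₂`: `∃ y, Q₁ ∧ Q₂`; `rel R ts`: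
   `∃ z, (∀ s, Q_s (v, z s)) ∧ R z`; `imp`, `all` as usual (compare `Helper87/AU/DecTr.lean`).
3. The property `all graphs are functional` (`∀ f, ∀ v : Fin n → M, ∃! y, R_f (Fin.snoc v y)`) is `UDef Lr Empty` and holds iff
   the structure is `graph S` for some `S`. The sentence is the conjunction. `Lr` is finite if `L` is
   (surjection from `(Σ n, L.Relations n) ⊕ (Σ n, L.Functions n)`, as in `finVoc_sum`).
-/

namespace Pool.Agent.Helper72.WT

open FirstOrder FirstOrder.Language Pool.Agent.Helper87.AU Pool.Agent.Helper31.Spectra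

/-- The relation symbols of the relational language: those of `L` and the graphs of the function
symbols. -/
inductive RtRel (L : FirstOrder.Language.{0, 0}) : ℕ → Type
  | rel {n : ℕ} (R : L.Relations n) : RtRel L n
  | gr {n : ℕ} (f : L.Functions n) : RtRel L (n + 1)

/-- The relational language of `L`. -/
def RtL (L : FirstOrder.Language.{0, 0}) : FirstOrder.Language.{0, 0} :=
  ⟨fun _ => Empty, RtRel L⟩

/-- The interpretation of the relation symbols in the relational structure of `S`. -/
def rtMap (L : FirstOrder.Language.{0, 0}) (M : Type) (S : L.Structure M) :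
    ∀ n : ℕ, RtRel L n → (Fin n → M) → Prop
  | _, RtRel.rel R, v => S.RelMap R v
  | _, RtRel.gr f, v => S.funMap f (Fin.init v) = v (Fin.last _)

/-- The relational structure of `S`. -/
def rtStr (L : FirstOrder.Language.{0, 0}) (M : Type) (S : L.Structure M) :
    (RtL L).Structure M where
  funMap := fun f => Empty.elim f
  RelMap := fun {n} R v => rtMap L M S n R v

/-- Properties of `L`-structures with points which are definable in the relational structure. -/
def RtDef (L : FirstOrder.Language.{0, 0}) (α : Type)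
    (P : ∀ (M : Type), L.Structure M → (α → M) → Prop) : Prop :=
  ∃ Q : ∀ (M : Type) [(RtL L).Structure M], (α → M) → Prop, UDef (RtL L) α Q ∧
    ∀ (M : Type) (S : L.Structure M) (v : α → M), @Q M (rtStr L M S) v ↔ P M S v

variable {L : FirstOrder.Language.{0, 0}} {α β : Type}

theorem RtDef.congr {P Q : ∀ (M : Type), L.Structure M → (α → M) → Prop} (h : RtDef L α P)
    (hPQ : ∀ (M : Type) (S : L.Structure M) (v : α → M), P M S v ↔ Q M S v) : RtDef L α Q := by
  obtain ⟨R, hR, e⟩ := h
  exact ⟨R, hR, fun M S v => (e M S v).trans (hPQ M S v)⟩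

theorem RtDef.const (p : Prop) : RtDef L α (fun _ _ _ => p) :=
  ⟨_, UDef.const p, fun _ _ _ => Iff.rfl⟩

theorem RtDef.and {P Q : ∀ (M : Type), L.Structure M → (α → M) → Prop} (h : RtDef L α P)
    (h' : RtDef L α Q) : RtDef L α (fun M S v => P M S v ∧ Q M S v) := by
  obtain ⟨R, hR, e⟩ := h
  obtain ⟨R', hR', e'⟩ := h'
  exact ⟨_, hR.and hR', fun M S v => and_congr (e M S v) (e' M S v)⟩

theorem RtDef.imp {P Q : ∀ (M : Type), L.Structure M → (α → M) → Prop} (h : RtDef L α P)
    (h' : RtDef L α Q) : RtDef L α (fun M S v => P M S v → Q M S v) := by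
  obtain ⟨R, hR, e⟩ := h
  obtain ⟨R', hR', e'⟩ := h'
  exact ⟨_, hR.imp hR', fun M S v => imp_congr (e M S v) (e' M S v)⟩

theorem RtDef.allFin {ι : Type} [Finite ι]
    {P : ι → ∀ (M : Type), L.Structure M → (α → M) → Prop} (h : ∀ i, RtDef L α (P i)) :
    RtDef L α (fun M S v => ∀ i, P i M S v) := by
  choose R hR e using h
  exact ⟨_, UDef.allFin hR, fun M S v => forall_congr' fun i => e i M S v⟩

theorem RtDef.relabel {P : ∀ (M : Type), L.Structure M → (α → M) → Prop} (h : RtDef L α P)
    (g : α → β) : RtDef L β (fun M S v => P M S (v ∘ g)) := by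
  obtain ⟨R, hR, e⟩ := h
  exact ⟨_, hR.relabel g, fun M S v => e M S (v ∘ g)⟩

theorem RtDef.ex [Finite β] {P : ∀ (M : Type), L.Structure M → (α → M) → (β → M) → Prop}
    (h : RtDef L (α ⊕ β) (fun M S v => P M S (v ∘ Sum.inl) (v ∘ Sum.inr))) :
    RtDef L α (fun M S v => ∃ w : β → M, P M S v w) := by
  obtain ⟨R, hR, e⟩ := h
  refine ⟨fun M _ v => ∃ w : β → M, R M (Sum.elim v w),
    UDef.ex (P := fun M _ v w => R M (Sum.elim v w)) (hR.congr fun M _ v => ?_),
    fun M S v => exists_congr fun w => ?_⟩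
  · rw [Sum.elim_comp_inl_inr]
  · refine (e M S (Sum.elim v w)).trans ?_
    simp only [Sum.elim_comp_inl, Sum.elim_comp_inr]

theorem RtDef.all [Finite β] {P : ∀ (M : Type), L.Structure M → (α → M) → (β → M) → Prop}
    (h : RtDef L (α ⊕ β) (fun M S v => P M S (v ∘ Sum.inl) (v ∘ Sum.inr))) :
    RtDef L α (fun M S v => ∀ w : β → M, P M S v w) := by
  obtain ⟨R, hR, e⟩ := h
  refine ⟨fun M _ v => ∀ w : β → M, R M (Sum.elim v w),
    UDef.all (P := fun M _ v w => R M (Sum.elim v w)) (hR.congr fun M _ v => ?_),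
    fun M S v => forall_congr' fun w => ?_⟩
  · rw [Sum.elim_comp_inl_inr]
  · refine (e M S (Sum.elim v w)).trans ?_
    simp only [Sum.elim_comp_inl, Sum.elim_comp_inr]

/-- The graph of a term. -/
theorem rt_term (t : L.Term α) : RtDef L (α ⊕ Unit) (fun M S v =>
    @Term.realize L M S α (v ∘ Sum.inl) t = v (Sum.inr ())) := by
  induction t with
  | var a => exact ⟨_, UDef.varEq (Sum.inl a) (Sum.inr ()), fun _ _ _ => Iff.rfl⟩
  | @func k f ts ih =>
    have h1 : RtDef L (α ⊕ Unit) (fun M S v => ∃ z : Fin k → M,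
        (∀ s, @Term.realize L M S α (v ∘ Sum.inl) (ts s) = z s) ∧
          S.funMap f z = v (Sum.inr ())) := by
      refine RtDef.ex (P := fun M S v z =>
        (∀ s, @Term.realize L M S α (v ∘ Sum.inl) (ts s) = z s) ∧
          S.funMap f z = v (Sum.inr ())) (RtDef.and (RtDef.allFin fun s => ?_) ?_)
      · exact (ih s).relabel (fun x => match x with
          | Sum.inl y => Sum.inl (Sum.inl y)
          | Sum.inr _ => Sum.inr s)
      · refine ⟨_, UDef.rel (L := RtL L) (α := (α ⊕ Unit) ⊕ Fin k) (n := k + 1) (RtRel.gr f)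
          (Fin.snoc (α := fun _ => (RtL L).Term ((α ⊕ Unit) ⊕ Fin k))
            (fun i => Term.var (Sum.inr i)) (Term.var (Sum.inl (Sum.inr ())))), fun M S v => ?_⟩
        have e : (Fin.init (α := fun _ => M) fun i : Fin (k + 1) =>
            @Term.realize (RtL L) M (rtStr L M S) _ v
            ((Fin.snoc (α := fun _ => (RtL L).Term ((α ⊕ Unit) ⊕ Fin k))
            (fun i => Term.var (Sum.inr i)) (Term.var (Sum.inl (Sum.inr ())))) i)) =
            v ∘ Sum.inr := by
          funext i
          simp [Fin.init]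
        change S.funMap f (Fin.init (α := fun _ => M) fun i : Fin (k + 1) =>
            @Term.realize (RtL L) M (rtStr L M S) _ v
            ((Fin.snoc (α := fun _ => (RtL L).Term ((α ⊕ Unit) ⊕ Fin k))
            (fun i => Term.var (Sum.inr i)) (Term.var (Sum.inl (Sum.inr ())))) i)) =
            @Term.realize (RtL L) M (rtStr L M S) _ v
            ((Fin.snoc (α := fun _ => (RtL L).Term ((α ⊕ Unit) ⊕ Fin k))
            (fun i => Term.var (Sum.inr i)) (Term.var (Sum.inl (Sum.inr ())))) (Fin.last k)) ↔ _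
        rw [e, Fin.snoc_last]
        rfl
    refine h1.congr fun M S v => ?_
    constructor
    · rintro ⟨z, h2, h3⟩
      change S.funMap f (fun i => @Term.realize L M S α (v ∘ Sum.inl) (ts i)) = _
      rw [show (fun i => @Term.realize L M S α (v ∘ Sum.inl) (ts i)) = z from funext h2]
      exact h3
    · intro h2
      exact ⟨_, fun s => rfl, h2⟩

theorem rt_term' {n : ℕ} (t : L.Term (Empty ⊕ Fin n)) : RtDef L (Fin n ⊕ Unit) (fun M S v =>
    @Term.realize L M S (Empty ⊕ Fin n) (Sum.elim default (v ∘ Sum.inl)) t = v (Sum.inr ())) := by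
  refine (rt_term (t.relabel (Sum.elim Empty.elim id))).congr fun M S v => ?_
  letI : L.Structure M := S
  rw [Term.realize_relabel]
  have e : ((v ∘ Sum.inl) ∘ Sum.elim Empty.elim id : Empty ⊕ Fin n → M) =
      Sum.elim default (v ∘ Sum.inl) := by
    funext x
    rcases x with x | x
    · exact x.elim
    · rfl
  rw [e]

theorem rt_formula {n : ℕ} (θ : L.BoundedFormula Empty n) : RtDef L (Fin n) (fun M S v =>
    @BoundedFormula.Realize L M S Empty n θ default v) := by
  induction θ with
  | falsum => exact RtDef.const False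
  | @equal n t₁ t₂ =>
    have h1 : RtDef L (Fin n) (fun M S v => ∃ y : Unit → M,
        @Term.realize L M S (Empty ⊕ Fin n) (Sum.elim default v) t₁ = y () ∧
        @Term.realize L M S (Empty ⊕ Fin n) (Sum.elim default v) t₂ = y ()) :=
      RtDef.ex (P := fun M S v y =>
        @Term.realize L M S (Empty ⊕ Fin n) (Sum.elim default v) t₁ = y () ∧
        @Term.realize L M S (Empty ⊕ Fin n) (Sum.elim default v) t₂ = y ())
        ((rt_term' t₁).and (rt_term' t₂))
    refine h1.congr fun M S v => ?_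
    constructor
    · rintro ⟨y, h2, h3⟩
      exact h2.trans h3.symm
    · intro h2
      exact ⟨fun _ => _, rfl, h2.symm⟩
  | @rel n k R ts =>
    have h1 : RtDef L (Fin n) (fun M S v => ∃ z : Fin k → M,
        (∀ s, @Term.realize L M S (Empty ⊕ Fin n) (Sum.elim default v) (ts s) = z s) ∧
          S.RelMap R z) := by
      refine RtDef.ex (P := fun M S v z =>
        (∀ s, @Term.realize L M S (Empty ⊕ Fin n) (Sum.elim default v) (ts s) = z s) ∧
          S.RelMap R z) (RtDef.and (RtDef.allFin fun s => ?_) ?_)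
      · exact (rt_term' (ts s)).relabel (fun x => match x with
          | Sum.inl y => Sum.inl y
          | Sum.inr _ => Sum.inr s)
      · exact ⟨_, UDef.rel (L := RtL L) (α := Fin n ⊕ Fin k) (n := k) (RtRel.rel R)
          (fun i => Term.var (Sum.inr i)), fun M S v => Iff.rfl⟩
    refine h1.congr fun M S v => ?_
    constructor
    · rintro ⟨z, h2, h3⟩
      change S.RelMap R (fun i => @Term.realize L M S (Empty ⊕ Fin n) (Sum.elim default v) (ts i))
      rw [show (fun i => @Term.realize L M S (Empty ⊕ Fin n) (Sum.elim default v) (ts i)) = z from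
        funext h2]
      exact h3
    · intro h2
      exact ⟨_, fun s => rfl, h2⟩
  | imp θ₁ θ₂ ih₁ ih₂ => exact ih₁.imp ih₂
  | @all n θ ih =>
    have h1 : RtDef L (Fin n) (fun M S v => ∀ y : Unit → M,
        @BoundedFormula.Realize L M S Empty (n + 1) θ default
          (Fin.snoc (α := fun _ => M) v (y ()))) := by
      refine RtDef.all (P := fun M S v y => @BoundedFormula.Realize L M S Empty (n + 1) θ default
          (Fin.snoc (α := fun _ => M) v (y ()))) ?_
      refine (ih.relabel (fun x : Fin (n + 1) =>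
        (Fin.lastCases (motive := fun _ => Fin n ⊕ Unit) (Sum.inr ())
          (fun i => Sum.inl i) x))).congr fun M S v => ?_
      have e : (v ∘ (fun x : Fin (n + 1) => (Fin.lastCases (motive := fun _ => Fin n ⊕ Unit)
          (Sum.inr ()) (fun i => Sum.inl i) x))) =
          Fin.snoc (α := fun _ => M) (v ∘ Sum.inl) ((v ∘ Sum.inr) ()) := by
        funext i
        refine Fin.lastCases ?_ (fun i => ?_) i
        · simp
        · simp
      rw [e]
    refine h1.congr fun M S v => ?_
    constructor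
    · intro h2 x
      exact h2 (fun _ => x)
    · intro h2 y
      exact h2 (y ())

/-- All graphs are functional. -/
def RtFun (L : FirstOrder.Language.{0, 0}) (M : Type) [(RtL L).Structure M] : Prop :=
  ∀ f : (Σ n, L.Functions n), ∀ v : Fin f.1 → M, ∃ y : M, ∀ y' : M,
    (Structure.RelMap (L := RtL L) (n := f.1 + 1) (RtRel.gr f.2)
      (Fin.snoc (α := fun _ => M) v y') ↔ y' = y)

theorem rt_fun (hL : Finite (Σ n, L.Functions n)) :
    UDef (RtL L) Empty (fun M _ _ => RtFun L M) := by
  refine UDef.allFin fun f => ?_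
  refine UDef.all (P := fun M _ _ v => ∃ y : M, ∀ y' : M,
    (Structure.RelMap (L := RtL L) (n := f.1 + 1) (RtRel.gr f.2)
      (Fin.snoc (α := fun _ => M) v y') ↔ y' = y)) ?_
  refine UDef.exu (P := fun M _ v y => ∀ y' : M,
    (Structure.RelMap (L := RtL L) (n := f.1 + 1) (RtRel.gr f.2)
      (Fin.snoc (α := fun _ => M) (v ∘ Sum.inr) y') ↔ y' = y)) ?_
  refine UDef.allu (P := fun M _ v y' =>
    (Structure.RelMap (L := RtL L) (n := f.1 + 1) (RtRel.gr f.2)
      (Fin.snoc (α := fun _ => M) (v ∘ Sum.inl ∘ Sum.inr) y') ↔ y' = v (Sum.inr ()))) ?_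
  refine UDef.iff ?_ (UDef.varEq _ _)
  refine (UDef.rel (L := RtL L) (α := ((Empty ⊕ Fin f.1) ⊕ Unit) ⊕ Unit) (n := f.1 + 1)
    (RtRel.gr f.2)
    (Fin.snoc (α := fun _ => (RtL L).Term (((Empty ⊕ Fin f.1) ⊕ Unit) ⊕ Unit))
      (fun i => Term.var (Sum.inl (Sum.inl (Sum.inr i))))
      (Term.var (Sum.inr ())))).congr fun M _ v => ?_
  have e : (fun i : Fin (f.1 + 1) => ((Fin.snoc
      (α := fun _ => (RtL L).Term (((Empty ⊕ Fin f.1) ⊕ Unit) ⊕ Unit))
      (fun i => Term.var (Sum.inl (Sum.inl (Sum.inr i))))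
      (Term.var (Sum.inr ()))) i : (RtL L).Term (((Empty ⊕ Fin f.1) ⊕ Unit) ⊕ Unit)).realize v) =
      Fin.snoc (α := fun _ => M) ((v ∘ Sum.inl) ∘ Sum.inl ∘ Sum.inr) (v (Sum.inr ())) := by
    funext i
    refine Fin.lastCases ?_ (fun i => ?_) i
    · simp
    · simp
  rw [e]

theorem rtFun_rtStr (M : Type) (S : L.Structure M) : @RtFun L M (rtStr L M S) := by
  intro f v
  refine ⟨S.funMap f.2 v, fun y' => ?_⟩
  change S.funMap f.2 (Fin.init (Fin.snoc (α := fun _ => M) v y')) =
    Fin.snoc (α := fun _ => M) v y' (Fin.last _) ↔ _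
  rw [Fin.init_snoc, Fin.snoc_last]
  exact eq_comm

theorem exists_rtStr (M : Type) (T : (RtL L).Structure M) (h : RtFun L M) :
    ∃ S : L.Structure M, rtStr L M S = T := by
  choose F hF using h
  refine ⟨⟨fun {n} f v => F ⟨n, f⟩ v, fun {n} R v => T.RelMap (RtRel.rel R) v⟩, ?_⟩
  refine Structure.ext ?_ ?_
  · funext n f
    exact Empty.elim f
  · funext n R v
    cases R with
    | rel R => rfl
    | @gr n f =>
      have h2 := hF ⟨n, f⟩ (Fin.init v) (v (Fin.last n))
      rw [Fin.snoc_init_self] at h2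
      refine propext (Iff.trans ?_ h2.symm)
      change F ⟨n, f⟩ (Fin.init v) = v (Fin.last n) ↔ _
      exact eq_comm

theorem exists_relational {S : Set ℕ} (h : IsSpectrum S) :
    ∃ (L : FirstOrder.Language.{0, 0}) (φ : L.Sentence), (∀ n, IsEmpty (L.Functions n)) ∧
      Finite (Σ n, L.Relations n) ∧ Spec L φ = S := by
  obtain ⟨L, φ, ⟨hf, hr⟩, rfl⟩ := h
  obtain ⟨Q, hQ, e⟩ := (rt_formula (n := 0) φ).relabel (fun x : Fin 0 => (x.elim0 : Empty))
  obtain ⟨ψ, hψ⟩ := UDef.exists_sentence ((rt_fun hf).and hQ)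
  refine ⟨RtL L, ψ, fun n => inferInstanceAs (IsEmpty Empty), ?_, ?_⟩
  · refine Finite.of_surjective (α := (Σ n, L.Relations n) ⊕ (Σ n, L.Functions n))
      (fun x => match x with
        | Sum.inl R => (⟨R.1, RtRel.rel R.2⟩ : Σ n, (RtL L).Relations n)
        | Sum.inr f => ⟨f.1 + 1, RtRel.gr f.2⟩) ?_
    rintro ⟨n, R⟩
    cases R with
    | rel R => exact ⟨Sum.inl ⟨_, R⟩, rfl⟩
    | gr f => exact ⟨Sum.inr ⟨_, f⟩, rfl⟩
  · have key : ∀ (M : Type) (S : L.Structure M),
        @Sentence.Realize (RtL L) M (rtStr L M S) ψ ↔ @Sentence.Realize L M S φ := by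
      intro M S
      refine ((@hψ M (rtStr L M S)).trans (and_iff_right (rtFun_rtStr M S))).trans
        ((e M S default).trans ?_)
      have e' : ((default : Empty → M) ∘ (fun x : Fin 0 => (x.elim0 : Empty))) =
          (default : Fin 0 → M) := by
        funext i
        exact i.elim0
      change @BoundedFormula.Realize L M S Empty 0 φ default
        ((default : Empty → M) ∘ (fun x : Fin 0 => (x.elim0 : Empty))) ↔ _
      rw [e']
      rfl
    ext n
    constructor
    · rintro ⟨hn, M, T, hM, hT⟩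
      obtain ⟨S, rfl⟩ := exists_rtStr M T ((@hψ M T).1 hT).1
      exact ⟨hn, M, S, hM, (key M S).1 hT⟩
    · rintro ⟨hn, M, S, hM, hS⟩
      exact ⟨hn, M, rtStr L M S, hM, (key M S).2 hS⟩

end Pool.Agent.Helper72.WT
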