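import Mathlib
import Pool.Agent.Helper87.AU.UDef
import Pool.Agent.Helper72.WT.ULang

set_option autoImplicit false

/-!
# WT-4: the axioms of encoded structures are definable

Every property used in `Rw.Ax` is `UDef (LU s H)`: `Lv j` (a finite disjunction), by simultaneous induction on `j`
the property `(toRw s H U).ev j (v 0) (v 1)` and `In`, then `mem`, `av`, `Tog`, `Cc`, `Rl`. Use the closure lemmas
of `Helper87/AU/UDef.lean` (`and`, `or`, `not`, `imp`, `iff`, `allFin`, `exFin`, `exu`, `allu`, `ex`, `all`, `relabel`, `rel`,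
`varEq`, `const`, `congr`); a lemma for `∃!` is convenient. Quantifiers over `j < H` etc.: `UDef.allFin` over `Fin`.
-/

namespace Pool.Agent.Helper72.WT

open FirstOrder FirstOrder.Language Pool.Agent.Helper87.AU

/-- Unique existence. -/
theorem axd_exUnique {L : FirstOrder.Language.{0, 0}} {α : Type}
    {P : ∀ (M : Type) [L.Structure M], (α → M) → M → Prop}
    (h : UDef L (α ⊕ Unit) (fun M _ v => P M (v ∘ Sum.inl) (v (Sum.inr ())))) :
    UDef L α (fun M _ v => ∃! x : M, P M v x) := by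
  have h1 : UDef L (α ⊕ Unit) (fun M _ v => ∀ y : M, P M (v ∘ Sum.inl) y → y = v (Sum.inr ())) := by
    refine UDef.allu (P := fun M _ v y => P M (v ∘ Sum.inl) y → y = v (Sum.inr ())) ?_
    refine UDef.imp (P := fun M _ v => P M ((v ∘ Sum.inl) ∘ Sum.inl) (v (Sum.inr ()))) ?_
      (UDef.varEq (Sum.inr ()) (Sum.inl (Sum.inr ())))
    exact (h.relabel (Sum.elim (fun a => Sum.inl (Sum.inl a)) (fun _ => Sum.inr ())))
  exact UDef.exu (P := fun M _ v x => P M v x ∧ ∀ y : M, P M v y → y = x) (h.and h1)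

/-- Universal quantification over bounded numbers. -/
theorem axd_allNat {L : FirstOrder.Language.{0, 0}} {α : Type} (N : ℕ)
    {P : ℕ → ∀ (M : Type) [L.Structure M], (α → M) → Prop} (h : ∀ j, UDef L α (P j))
    (hN : ∀ (j : ℕ) (M : Type) [L.Structure M] (v : α → M), N < j → P j M v) :
    UDef L α (fun M _ v => ∀ j, P j M v) :=
  (UDef.allFin (ι := Fin (N + 1)) fun i => h i).congr fun M _ v =>
    ⟨fun hi j => (le_or_gt j N).elim (fun hj => hi ⟨j, Nat.lt_succ_of_le hj⟩) (hN j M v),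
      fun hi j => hi j⟩

/-- Existential quantification over bounded numbers. -/
theorem axd_exNat {L : FirstOrder.Language.{0, 0}} {α : Type} (N : ℕ)
    {P : ℕ → ∀ (M : Type) [L.Structure M], (α → M) → Prop} (h : ∀ j, UDef L α (P j))
    (hN : ∀ (j : ℕ) (M : Type) [L.Structure M] (v : α → M), N < j → ¬ P j M v) :
    UDef L α (fun M _ v => ∃ j, P j M v) :=
  (UDef.exFin (ι := Fin (N + 1)) fun i => h i).congr fun M _ v =>
    ⟨fun ⟨i, hi⟩ => ⟨i, hi⟩, fun ⟨j, hj⟩ =>
      ⟨⟨j, Nat.lt_succ_of_le (not_lt.1 fun h' => hN j M v h' hj)⟩, hj⟩⟩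

section Basic

variable (s : Sg) (H : ℕ)

theorem axd_rel1 (R : UR s H 1) (α : Type) (a : α) :
    UDef (LU s H) α (fun _ _ v => Structure.RelMap (L := LU s H) R ![v a]) := by
  refine (UDef.rel (L := LU s H) R (fun _ => Term.var a)).congr fun M _ v => ?_
  have : (fun i : Fin 1 => ((fun _ => Term.var a : Fin 1 → (LU s H).Term α) i).realize v) =
      ![v a] := by
    funext i
    fin_cases i
    rfl
  rw [this]

theorem axd_rel2 (R : UR s H 2) (α : Type) (a b : α) :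
    UDef (LU s H) α (fun _ _ v => Structure.RelMap (L := LU s H) R ![v a, v b]) := by
  refine (UDef.rel (L := LU s H) R ![Term.var a, Term.var b]).congr fun M _ v => ?_
  have : (fun i : Fin 2 => ((![Term.var a, Term.var b] : Fin 2 → (LU s H).Term α) i).realize v) =
      ![v a, v b] := by
    funext i
    fin_cases i <;> rfl
  rw [this]

variable {s H}

theorem axd_lv (j : Fin (H + 1)) (α : Type) (a : α) :
    UDef (LU s H) α (fun U _ v => (toRw s H U).lv j (v a)) := axd_rel1 s H (UR.lv j) α a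

theorem axd_top (κ : s.ι) (i : Fin (s.ar κ)) (α : Type) (a : α) :
    UDef (LU s H) α (fun U _ v => (toRw s H U).top κ i (v a)) := axd_rel1 s H (UR.top κ i) α a

theorem axd_cell (κ : s.ι) (α : Type) (a : α) :
    UDef (LU s H) α (fun U _ v => (toRw s H U).cell κ (v a)) := axd_rel1 s H (UR.cell κ) α a

theorem axd_z (α : Type) (a : α) :
    UDef (LU s H) α (fun U _ v => (toRw s H U).z (v a)) := axd_rel1 s H UR.z α a

theorem axd_mar (α : Type) (a : α) :
    UDef (LU s H) α (fun U _ v => (toRw s H U).mar (v a)) := axd_rel1 s H UR.mar α a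

theorem axd_par (α : Type) (a b : α) :
    UDef (LU s H) α (fun U _ v => (toRw s H U).par (v a) (v b)) := axd_rel2 s H UR.par α a b

theorem axd_e (α : Type) (a b : α) :
    UDef (LU s H) α (fun U _ v => (toRw s H U).e (v a) (v b)) := axd_rel2 s H UR.e α a b

theorem axd_Lv (j : ℕ) (α : Type) (a : α) :
    UDef (LU s H) α (fun U _ v => (toRw s H U).Lv j (v a)) := by
  refine UDef.or ?_ ?_
  · by_cases hj : j < H + 1
    · exact (axd_lv ⟨j, hj⟩ α a).congr fun M _ v => ⟨fun h => ⟨hj, h⟩, fun ⟨_, h⟩ => h⟩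
    · exact (UDef.const False).congr fun M _ v => ⟨fun h => h.elim, fun ⟨h, _⟩ => hj h⟩
  · refine UDef.and (UDef.const _) ?_
    exact UDef.exFin fun κ => UDef.exFin fun i => axd_top κ i α a

theorem axd_kd (q : Kd s H) (α : Type) (a : α) :
    UDef (LU s H) α (fun U _ v => (toRw s H U).kd q (v a)) := by
  rcases q with j | p | κ
  · exact axd_lv j α a
  · exact axd_top p.1 p.2 α a
  · exact axd_cell κ α a

theorem axd_In_of (j : ℕ)
    (h : ∀ (α : Type) (a b : α), UDef (LU s H) α (fun U _ v => (toRw s H U).ev j (v a) (v b)))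
    (α : Type) (a b : α) :
    UDef (LU s H) α (fun U _ v => (toRw s H U).In j ((toRw s H U).ev j) (v a) (v b)) := by
  cases j with
  | zero => exact axd_e α b a
  | succ j =>
    refine UDef.exu (P := fun U _ v y' => (toRw s H U).par y' (v b) ∧ (toRw s H U).mar y' ∧
      (toRw s H U).ev (j + 1) (v a) y') ?_
    exact (axd_par _ (Sum.inr ()) (Sum.inl b)).and ((axd_mar _ (Sum.inr ())).and
      (h _ (Sum.inl a) (Sum.inr ())))

theorem axd_ev (j : ℕ) : ∀ (α : Type) (a b : α),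
    UDef (LU s H) α (fun U _ v => (toRw s H U).ev j (v a) (v b)) := by
  induction j with
  | zero =>
    intro α a b
    exact UDef.varEq a b
  | succ j ih =>
    intro α a b
    refine UDef.allu (P := fun U _ v w => (toRw s H U).Lv j w →
      ((toRw s H U).In j ((toRw s H U).ev j) w (v a) ↔
        (toRw s H U).In j ((toRw s H U).ev j) w (v b))) ?_
    exact (axd_Lv j _ (Sum.inr ())).imp ((axd_In_of j ih _ (Sum.inr ()) (Sum.inl a)).iff
      (axd_In_of j ih _ (Sum.inr ()) (Sum.inl b)))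

theorem axd_mem (j : ℕ) (α : Type) (a b : α) :
    UDef (LU s H) α (fun U _ v => (toRw s H U).mem j (v a) (v b)) :=
  axd_In_of j (axd_ev j) α a b

theorem axd_av (j : ℕ) : ∀ (α : Type) (a : α),
    UDef (LU s H) α (fun U _ v => (toRw s H U).av j (v a)) := by
  induction j with
  | zero =>
    intro α a
    exact (axd_z α a).not
  | succ j ih =>
    intro α a
    refine UDef.allu (P := fun U _ v y => (toRw s H U).Lv j y → (toRw s H U).mem j y (v a) →
      (toRw s H U).av j y) ?_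
    exact (axd_Lv j _ (Sum.inr ())).imp ((axd_mem j _ (Sum.inr ()) (Sum.inl a)).imp
      (ih _ (Sum.inr ())))

theorem axd_Tog (j : ℕ) (α : Type) (a b c : α) :
    UDef (LU s H) α (fun U _ v => (toRw s H U).Tog j (v a) (v b) (v c)) := by
  refine UDef.allu (P := fun U _ v w => (toRw s H U).Lv j w → ((toRw s H U).mem j w (v c) ↔
    ¬ ((toRw s H U).mem j w (v a) ↔ (toRw s H U).ev j (v b) w))) ?_
  exact (axd_Lv j _ (Sum.inr ())).imp ((axd_mem j _ (Sum.inr ()) (Sum.inl c)).iff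
    ((axd_mem j _ (Sum.inr ()) (Sum.inl a)).iff (axd_ev j _ (Sum.inl b) (Sum.inr ()))).not)

theorem axd_Cc (κ : s.ι) (α : Type) (f : Fin (s.ar κ) → α) (c : α) :
    UDef (LU s H) α (fun U _ v => (toRw s H U).Cc κ (fun i => v (f i)) (v c)) := by
  refine UDef.and (axd_cell κ α c) (UDef.allFin fun i => ?_)
  refine UDef.exu (P := fun U _ v y => (toRw s H U).par y (v c) ∧ (toRw s H U).top κ i y ∧
    (toRw s H U).ev (H + 1) (v (f i)) y) ?_
  exact (axd_par _ (Sum.inr ()) (Sum.inl c)).and ((axd_top κ i _ (Sum.inr ())).and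
    (axd_ev (H + 1) _ (Sum.inl (f i)) (Sum.inr ())))

end Basic

section Axioms

variable (s : Sg) (H : ℕ)

theorem axd_kind : UDef (LU s H) Empty (fun U _ _ => ∀ x, ∃! q : Kd s H, (toRw s H U).kd q x) := by
  refine UDef.allu (P := fun U _ _ x => ∃! q : Kd s H, (toRw s H U).kd q x) ?_
  refine UDef.exFin fun q => (axd_kd q _ (Sum.inr ())).and (UDef.allFin fun r => ?_)
  exact (axd_kd r _ (Sum.inr ())).imp (UDef.const _)

theorem axd_par_lv : UDef (LU s H) Empty (fun U _ _ => ∀ y x, (toRw s H U).par y x →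
    (∃ j, 1 ≤ j ∧ j ≤ H ∧ (toRw s H U).Lv j y ∧ (toRw s H U).Lv (j + 1) x) ∨
    (∃ κ i, (toRw s H U).top κ i y ∧ (toRw s H U).cell κ x)) := by
  refine UDef.allu (P := fun U _ _ y => ∀ x, (toRw s H U).par y x →
    (∃ j, 1 ≤ j ∧ j ≤ H ∧ (toRw s H U).Lv j y ∧ (toRw s H U).Lv (j + 1) x) ∨
    (∃ κ i, (toRw s H U).top κ i y ∧ (toRw s H U).cell κ x)) ?_
  refine UDef.allu (P := fun U _ v x => (toRw s H U).par (v (Sum.inr ())) x →
    (∃ j, 1 ≤ j ∧ j ≤ H ∧ (toRw s H U).Lv j (v (Sum.inr ())) ∧ (toRw s H U).Lv (j + 1) x) ∨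
    (∃ κ i, (toRw s H U).top κ i (v (Sum.inr ())) ∧ (toRw s H U).cell κ x)) ?_
  refine (axd_par _ (Sum.inl (Sum.inr ())) (Sum.inr ())).imp (UDef.or ?_ ?_)
  · refine axd_exNat H (P := fun j U _ v => 1 ≤ j ∧ j ≤ H ∧
      (toRw s H U).Lv j (v (Sum.inl (Sum.inr ()))) ∧ (toRw s H U).Lv (j + 1) (v (Sum.inr ()))) ?_ ?_
    · intro j
      exact (UDef.const _).and ((UDef.const _).and ((axd_Lv j _ (Sum.inl (Sum.inr ()))).and
        (axd_Lv (j + 1) _ (Sum.inr ()))))
    · intro j M _ v hj h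
      exact absurd h.2.1 (not_le.2 hj)
  · exact UDef.exFin fun κ => UDef.exFin fun i =>
      (axd_top κ i _ (Sum.inl (Sum.inr ()))).and (axd_cell κ _ (Sum.inr ()))

theorem axd_par_ex : UDef (LU s H) Empty (fun U _ _ => ∀ j, 1 ≤ j → j ≤ H + 1 →
    ∀ y, (toRw s H U).Lv j y → ∃! x, (toRw s H U).par y x) := by
  refine axd_allNat (H + 1) (P := fun j U _ _ => 1 ≤ j → j ≤ H + 1 →
    ∀ y, (toRw s H U).Lv j y → ∃! x, (toRw s H U).par y x) ?_ ?_
  · intro j
    refine (UDef.const _).imp ((UDef.const _).imp ?_)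
    refine UDef.allu (P := fun U _ _ y => (toRw s H U).Lv j y → ∃! x, (toRw s H U).par y x) ?_
    refine (axd_Lv j _ (Sum.inr ())).imp ?_
    refine axd_exUnique (P := fun U _ v x => (toRw s H U).par (v (Sum.inr ())) x) ?_
    exact axd_par _ (Sum.inl (Sum.inr ())) (Sum.inr ())
  · intro j M _ v hj _ h
    exact absurd h (not_le.2 hj)

theorem axd_child : UDef (LU s H) Empty (fun U _ _ => ∀ j, 1 ≤ j → j ≤ H →
    ∀ x, (toRw s H U).Lv (j + 1) x → ∀ y, (toRw s H U).Lv j y →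
      ∃! y', (toRw s H U).par y' x ∧ (toRw s H U).ev j y y') := by
  refine axd_allNat (H + 1) (P := fun j U _ _ => 1 ≤ j → j ≤ H →
    ∀ x, (toRw s H U).Lv (j + 1) x → ∀ y, (toRw s H U).Lv j y →
      ∃! y', (toRw s H U).par y' x ∧ (toRw s H U).ev j y y') ?_ ?_
  · intro j
    refine (UDef.const _).imp ((UDef.const _).imp ?_)
    refine UDef.allu (P := fun U _ _ x => (toRw s H U).Lv (j + 1) x →
      ∀ y, (toRw s H U).Lv j y → ∃! y', (toRw s H U).par y' x ∧ (toRw s H U).ev j y y') ?_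
    refine (axd_Lv (j + 1) _ (Sum.inr ())).imp ?_
    refine UDef.allu (P := fun U _ v y => (toRw s H U).Lv j y →
      ∃! y', (toRw s H U).par y' (v (Sum.inr ())) ∧ (toRw s H U).ev j y y') ?_
    refine (axd_Lv j _ (Sum.inr ())).imp ?_
    refine axd_exUnique (P := fun U _ v y' =>
      (toRw s H U).par y' (v (Sum.inl (Sum.inr ()))) ∧ (toRw s H U).ev j (v (Sum.inr ())) y') ?_
    exact (axd_par _ (Sum.inr ()) (Sum.inl (Sum.inl (Sum.inr ())))).and
      (axd_ev j _ (Sum.inl (Sum.inr ())) (Sum.inr ()))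
  · intro j M _ v hj _ h
    exact absurd h (not_le.2 (lt_of_le_of_lt (Nat.le_succ H) hj))

theorem axd_coord : UDef (LU s H) Empty (fun U _ _ => ∀ κ c, (toRw s H U).cell κ c →
    ∀ i, ∃! y, (toRw s H U).par y c ∧ (toRw s H U).top κ i y) := by
  refine UDef.allFin fun κ => ?_
  refine UDef.allu (P := fun U _ _ c => (toRw s H U).cell κ c →
    ∀ i, ∃! y, (toRw s H U).par y c ∧ (toRw s H U).top κ i y) ?_
  refine (axd_cell κ _ (Sum.inr ())).imp (UDef.allFin fun i => ?_)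
  refine axd_exUnique (P := fun U _ v y =>
    (toRw s H U).par y (v (Sum.inr ())) ∧ (toRw s H U).top κ i y) ?_
  exact (axd_par _ (Sum.inr ()) (Sum.inl (Sum.inr ()))).and (axd_top κ i _ (Sum.inr ()))

theorem axd_cells : UDef (LU s H) Empty (fun U _ _ => ∀ κ (v : Fin (s.ar κ) → U),
    (∀ i, (toRw s H U).Lv (H + 1) (v i)) → ∃! c, (toRw s H U).Cc κ v c) := by
  refine UDef.allFin fun κ => ?_
  refine UDef.all (β := Fin (s.ar κ)) (P := fun U _ _ v =>
    (∀ i, (toRw s H U).Lv (H + 1) (v i)) → ∃! c, (toRw s H U).Cc κ v c) ?_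
  refine UDef.imp (UDef.allFin fun i => axd_Lv (H + 1) _ (Sum.inr i)) ?_
  refine axd_exUnique (P := fun U _ v c => (toRw s H U).Cc κ (fun i => v (Sum.inr i)) c) ?_
  exact axd_Cc κ _ (fun i => Sum.inl (Sum.inr i)) (Sum.inr ())

theorem axd_he : UDef (LU s H) Empty (fun U _ _ => ∀ x w, (toRw s H U).e x w →
    (toRw s H U).Lv 1 x ∧ (toRw s H U).Lv 0 w) := by
  refine UDef.allu (P := fun U _ _ x => ∀ w, (toRw s H U).e x w →
    (toRw s H U).Lv 1 x ∧ (toRw s H U).Lv 0 w) ?_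
  refine UDef.allu (P := fun U _ v w => (toRw s H U).e (v (Sum.inr ())) w →
    (toRw s H U).Lv 1 (v (Sum.inr ())) ∧ (toRw s H U).Lv 0 w) ?_
  exact (axd_e _ (Sum.inl (Sum.inr ())) (Sum.inr ())).imp
    ((axd_Lv 1 _ (Sum.inl (Sum.inr ()))).and (axd_Lv 0 _ (Sum.inr ())))

theorem axd_hz : UDef (LU s H) Empty (fun U _ _ => ∃! w, (toRw s H U).Lv 0 w ∧
    (toRw s H U).z w) := by
  refine axd_exUnique (P := fun U _ _ w => (toRw s H U).Lv 0 w ∧ (toRw s H U).z w) ?_
  exact (axd_Lv 0 _ (Sum.inr ())).and (axd_z _ (Sum.inr ()))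

theorem axd_empty (j : ℕ) : UDef (LU s H) Empty (fun U _ _ => ∃ x, (toRw s H U).Lv (j + 1) x ∧
    ∀ y, (toRw s H U).Lv j y → ¬ (toRw s H U).mem j y x) := by
  refine UDef.exu (P := fun U _ _ x => (toRw s H U).Lv (j + 1) x ∧
    ∀ y, (toRw s H U).Lv j y → ¬ (toRw s H U).mem j y x) ?_
  refine (axd_Lv (j + 1) _ (Sum.inr ())).and ?_
  refine UDef.allu (P := fun U _ v y => (toRw s H U).Lv j y →
    ¬ (toRw s H U).mem j y (v (Sum.inr ()))) ?_
  exact (axd_Lv j _ (Sum.inr ())).imp (axd_mem j _ (Sum.inr ()) (Sum.inl (Sum.inr ()))).not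

theorem axd_full0 : UDef (LU s H) Empty (fun U _ _ => ∀ j, j < H →
    ∃ x, (toRw s H U).Lv (j + 1) x ∧ ∀ y, (toRw s H U).Lv j y → ¬ (toRw s H U).mem j y x) := by
  refine axd_allNat H (P := fun j U _ _ => j < H →
    ∃ x, (toRw s H U).Lv (j + 1) x ∧
      ∀ y, (toRw s H U).Lv j y → ¬ (toRw s H U).mem j y x) ?_ ?_
  · intro j
    exact (UDef.const _).imp (axd_empty s H j)
  · intro j M _ v hj h
    exact absurd h (not_lt.2 hj.le)

theorem axd_togEx (j : ℕ) (α : Type) (a b : α) :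
    UDef (LU s H) α (fun U _ v => ∃ x', (toRw s H U).Lv (j + 1) x' ∧
      (toRw s H U).Tog j (v a) (v b) x') := by
  refine UDef.exu (P := fun U _ v x' => (toRw s H U).Lv (j + 1) x' ∧
      (toRw s H U).Tog j (v a) (v b) x') ?_
  exact (axd_Lv (j + 1) _ (Sum.inr ())).and
    (axd_Tog j _ (Sum.inl a) (Sum.inl b) (Sum.inr ()))

theorem axd_full1 : UDef (LU s H) Empty (fun U _ _ => ∀ j, j < H →
    ∀ x, (toRw s H U).Lv (j + 1) x → ∀ y, (toRw s H U).Lv j y →
    ∃ x', (toRw s H U).Lv (j + 1) x' ∧ (toRw s H U).Tog j x y x') := by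
  refine axd_allNat H (P := fun j U _ _ => j < H →
    ∀ x, (toRw s H U).Lv (j + 1) x → ∀ y, (toRw s H U).Lv j y →
    ∃ x', (toRw s H U).Lv (j + 1) x' ∧ (toRw s H U).Tog j x y x') ?_ ?_
  · intro j
    refine (UDef.const _).imp ?_
    refine UDef.allu (P := fun U _ _ x => (toRw s H U).Lv (j + 1) x →
      ∀ y, (toRw s H U).Lv j y →
      ∃ x', (toRw s H U).Lv (j + 1) x' ∧ (toRw s H U).Tog j x y x') ?_
    refine (axd_Lv (j + 1) _ (Sum.inr ())).imp ?_
    refine UDef.allu (P := fun U _ v y => (toRw s H U).Lv j y →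
      ∃ x', (toRw s H U).Lv (j + 1) x' ∧ (toRw s H U).Tog j (v (Sum.inr ())) y x') ?_
    exact (axd_Lv j _ (Sum.inr ())).imp
      (axd_togEx s H j _ (Sum.inl (Sum.inr ())) (Sum.inr ()))
  · intro j M _ v hj h
    exact absurd h (not_lt.2 hj.le)

theorem axd_top1 : UDef (LU s H) Empty (fun U _ _ => ∀ x, (toRw s H U).Lv (H + 1) x →
    (toRw s H U).av (H + 1) x → ∀ y, (toRw s H U).Lv H y → (toRw s H U).av H y →
    ∃ x', (toRw s H U).Lv (H + 1) x' ∧ (toRw s H U).Tog H x y x') := by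
  refine UDef.allu (P := fun U _ _ x => (toRw s H U).Lv (H + 1) x →
    (toRw s H U).av (H + 1) x → ∀ y, (toRw s H U).Lv H y → (toRw s H U).av H y →
    ∃ x', (toRw s H U).Lv (H + 1) x' ∧ (toRw s H U).Tog H x y x') ?_
  refine (axd_Lv (H + 1) _ (Sum.inr ())).imp ((axd_av (H + 1) _ (Sum.inr ())).imp ?_)
  refine UDef.allu (P := fun U _ v y => (toRw s H U).Lv H y → (toRw s H U).av H y →
    ∃ x', (toRw s H U).Lv (H + 1) x' ∧ (toRw s H U).Tog H (v (Sum.inr ())) y x') ?_
  exact (axd_Lv H _ (Sum.inr ())).imp ((axd_av H _ (Sum.inr ())).imp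
    (axd_togEx s H H _ (Sum.inl (Sum.inr ())) (Sum.inr ())))

theorem axd_top2 : UDef (LU s H) Empty (fun U _ _ => ∃ x, (toRw s H U).Lv (H + 1) x ∧
    ¬ (toRw s H U).av (H + 1) x) := by
  refine UDef.exu (P := fun U _ _ x => (toRw s H U).Lv (H + 1) x ∧
    ¬ (toRw s H U).av (H + 1) x) ?_
  exact (axd_Lv (H + 1) _ (Sum.inr ())).and (axd_av (H + 1) _ (Sum.inr ())).not

end Axioms

theorem ax_sentence (s : Sg) (H : ℕ) : ∃ σ : (LU s H).Sentence,
    ∀ (U : Type) [(LU s H).Structure U], σ.Realize U ↔ (toRw s H U).Ax := by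
  have h : UDef (LU s H) Empty (fun U _ _ => (toRw s H U).Ax) := by
    refine ((axd_kind s H).and <| (axd_par_lv s H).and <| (axd_par_ex s H).and <|
      (axd_child s H).and <| (axd_coord s H).and <| (axd_cells s H).and <| (axd_he s H).and <|
      (axd_hz s H).and <| (axd_full0 s H).and <| (axd_full1 s H).and <|
      (axd_empty s H H).and <| (axd_top1 s H).and (axd_top2 s H)).congr fun M _ v => ?_
    constructor
    · rintro ⟨h1, h2, h3, h4, h5, h6, h7, h8, h9, h10, h11, h12, h13⟩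
      exact ⟨h1, h2, h3, h4, h5, h6, h7, h8, h9, h10, h11, h12, h13⟩
    · intro h
      exact ⟨h.kind, h.par_lv, h.par_ex, h.child, h.coord, h.cells, h.he, h.hz, h.full0, h.full1,
        h.top0, h.top1, h.top2⟩
  obtain ⟨σ, hσ⟩ := h.exists_sentence
  exact ⟨σ, fun U _ => hσ U⟩

theorem udef_Rl (s : Sg) (H : ℕ) (κ : s.ι) :
    UDef (LU s H) (Fin (s.ar κ)) (fun U _ v => (toRw s H U).Rl κ v) := by
  refine UDef.exu (P := fun U _ v c => (toRw s H U).cell κ c ∧ (toRw s H U).mar c ∧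
    ∀ i, ∃ y y', (toRw s H U).par y c ∧ (toRw s H U).top κ i y ∧ (toRw s H U).par y' (v i) ∧
      (toRw s H U).ev (H + 1) y' y) ?_
  refine (axd_cell κ _ (Sum.inr ())).and ((axd_mar _ (Sum.inr ())).and (UDef.allFin fun i => ?_))
  refine UDef.exu (P := fun U _ v y => ∃ y', (toRw s H U).par y (v (Sum.inr ())) ∧
    (toRw s H U).top κ i y ∧ (toRw s H U).par y' (v (Sum.inl i)) ∧
      (toRw s H U).ev (H + 1) y' y) ?_
  refine UDef.exu (P := fun U _ v y' =>
    (toRw s H U).par (v (Sum.inr ())) (v (Sum.inl (Sum.inr ()))) ∧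
    (toRw s H U).top κ i (v (Sum.inr ())) ∧ (toRw s H U).par y' (v (Sum.inl (Sum.inl i))) ∧
      (toRw s H U).ev (H + 1) y' (v (Sum.inr ()))) ?_
  exact (axd_par _ (Sum.inl (Sum.inr ())) (Sum.inl (Sum.inl (Sum.inr ())))).and
    ((axd_top κ i _ (Sum.inl (Sum.inr ()))).and
    ((axd_par _ (Sum.inr ()) (Sum.inl (Sum.inl (Sum.inl i)))).and
    (axd_ev (H + 1) _ (Sum.inr ()) (Sum.inl (Sum.inr ())))))

end Pool.Agent.Helper72.WT
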