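import Mathlib
import Pool.Agent.Helper72.WT.UDefs

set_option autoImplicit false

/-!
# WT-7: existence of encoded structures

Values are natural numbers: a value `b < tw (j + 1) k` of level `j + 1` has the members `a < tw j k` with `b.testBit a`, the
`k` base points are the values of level `0`, the points of `M ≃ Fin m` are the values `< m` of the top level (`m ≤ tw (H + 1) k`).
`WU` = inductive type with constructors
* `base (b : Fin k)`;
* `cell (κ : s.ι) (v : Fin (s.ar κ) → Fin m)`;
* `node (κ : s.ι) (v : Fin (s.ar κ) → Fin m) (i : Fin (s.ar κ)) (l : List ℕ) (hl : wok H k l)`: a node of level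
  `H + 1 - l.length`, with value `v i` if `l = []`, and value `a` and parent `node κ v i l` for `a :: l`; for `l = []` the
  parent is `cell κ v`.
-/

namespace Pool.Agent.Helper72.WT

/-- Admissible lists of values. -/
def wok (H k : ℕ) : List ℕ → Prop
  | [] => True
  | a :: l => wok H k l ∧ l.length < H ∧ a < tw (H - l.length) k

theorem wok_nil (H k : ℕ) : wok H k [] := trivial

theorem wok_length {H k : ℕ} {l : List ℕ} (h : wok H k l) : l.length ≤ H := by
  cases l with
  | nil => exact Nat.zero_le _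
  | cons a l => exact h.2.1

/-- The points of the canonical encoded structure. -/
inductive WU (s : Sg) (H k m : ℕ) : Type
  | base (b : Fin k) : WU s H k m
  | cell (κ : s.ι) (v : Fin (s.ar κ) → Fin m) : WU s H k m
  | node (κ : s.ι) (v : Fin (s.ar κ) → Fin m) (i : Fin (s.ar κ)) (l : List ℕ)
      (hl : wok H k l) : WU s H k m

namespace WU

variable {s : Sg} {H k m : ℕ}

/-- the value of a node -/
def nv {n m : ℕ} (v : Fin n → Fin m) (i : Fin n) : List ℕ → ℕ
  | [] => (v i : ℕ)
  | a :: _ => a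

/-- the level of a point -/
def lev : WU s H k m → ℕ
  | base _ => 0
  | cell _ _ => H + 2
  | node _ _ _ l _ => H + 1 - l.length

/-- the value of a point -/
def val : WU s H k m → ℕ
  | base b => b
  | cell _ _ => 0
  | node _ v i l _ => nv v i l

/-- the second point is the parent of the first one -/
def par : WU s H k m → WU s H k m → Prop
  | node κ v _ [] _, x => x = cell κ v
  | node κ v i (_ :: l) h, x => x = node κ v i l h.1
  | base _, _ => False
  | cell _ _, _ => False

/-- marked points -/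
def mar (ρ : ∀ κ : s.ι, (Fin (s.ar κ) → Fin m) → Prop) : WU s H k m → Prop
  | base _ => False
  | cell κ v => ρ κ v
  | node _ _ _ [] _ => False
  | node _ v i (a :: l) _ => (nv v i l).testBit a = true

/-- membership of base points -/
def eb : WU s H k m → WU s H k m → Prop
  | node _ v i l _, base b => l.length = H ∧ (nv v i l).testBit b = true
  | _, _ => False

/-- the marked base point -/
def zb : WU s H k m → Prop
  | base b => (b : ℕ) + 1 = k
  | _ => False

/-- The canonical encoded structure. -/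
def str (ρ : ∀ κ : s.ι, (Fin (s.ar κ) → Fin m) → Prop) : Rw s H (WU s H k m) where
  lv j x := x.lev = j
  top κ i x := ∃ v, x = node κ v i [] (wok_nil H k)
  cell κ x := ∃ v, x = cell κ v
  z := zb
  mar := mar ρ
  par := par
  e := eb

variable {ρ : ∀ κ : s.ι, (Fin (s.ar κ) → Fin m) → Prop}

theorem lev_eq_zero {x : WU s H k m} (h : x.lev = 0) : ∃ b, x = base b := by
  cases x with
  | base b => exact ⟨b, rfl⟩
  | cell κ v => exact absurd h (by simp [lev])
  | node κ v i l hl =>
    have h1 := wok_length hl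
    have h2 : H + 1 - l.length = 0 := h
    omega

theorem lev_eq_succ {x : WU s H k m} {j : ℕ} (hj : j ≤ H) (h : x.lev = j + 1) :
    ∃ κ v i l hl, x = node κ v i l hl ∧ l.length = H - j := by
  cases x with
  | base b => exact absurd h (by simp [lev])
  | cell κ v =>
    have h2 : H + 2 = j + 1 := h
    omega
  | node κ v i l hl =>
    have h1 := wok_length hl
    have h2 : H + 1 - l.length = j + 1 := h
    exact ⟨κ, v, i, l, hl, rfl, by omega⟩

theorem lev_eq_top {x : WU s H k m} (h : x.lev = H + 1) :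
    ∃ κ v i, x = node κ v i [] (wok_nil H k) := by
  obtain ⟨κ, v, i, l, hl, rfl, h1⟩ := lev_eq_succ le_rfl h
  rw [Nat.sub_self] at h1
  obtain rfl := List.eq_nil_of_length_eq_zero h1
  exact ⟨κ, v, i, rfl⟩

theorem Lv_iff {x : WU s H k m} {j : ℕ} (hj : j ≤ H + 1) : (str ρ).Lv j x ↔ x.lev = j := by
  constructor
  · rintro (⟨hj', h⟩ | ⟨rfl, κ, i, v, rfl⟩)
    · exact h
    · simp [lev]
  · intro h
    by_cases hj' : j < H + 1
    · exact Or.inl ⟨hj', h⟩
    · obtain rfl : j = H + 1 := by omega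
      obtain ⟨κ, v, i, rfl⟩ := lev_eq_top h
      exact Or.inr ⟨rfl, κ, i, v, rfl⟩

theorem val_lt (hm : m ≤ tw (H + 1) k) {x : WU s H k m} {j : ℕ} (hj : j ≤ H + 1)
    (h : x.lev = j) : x.val < tw j k := by
  cases x with
  | base b =>
    obtain rfl : 0 = j := h
    exact b.2
  | cell κ v =>
    have h2 : H + 2 = j := h
    omega
  | node κ v i l hl =>
    cases l with
    | nil =>
      obtain rfl : H + 1 = j := h
      exact (v i).2.trans_le hm
    | cons a l =>
      have h2 : H + 1 - (l.length + 1) = j := h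
      have h3 : H - l.length = j := by omega
      rw [← h3]
      exact hl.2.2

theorem val_top_lt {x : WU s H k m} (h : x.lev = H + 1) : x.val < m := by
  obtain ⟨κ, v, i, rfl⟩ := lev_eq_top h
  exact (v i).2

theorem wok_replicate (hk : 1 ≤ k) : ∀ n, n ≤ H → wok H k (List.replicate n 0)
  | 0, _ => trivial
  | n + 1, h => by
    rw [List.replicate_succ]
    refine ⟨wok_replicate hk n (by omega), ?_, ?_⟩
    · rw [List.length_replicate]
      omega
    · exact lt_of_lt_of_le (by omega) (le_tw _ k)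

theorem exists_val (hk : 1 ≤ k) (hm : 0 < m) {j : ℕ} (hj : j ≤ H) {a : ℕ} (ha : a < tw j k) :
    ∃ x : WU s H k m, x.lev = j ∧ x.val = a := by
  cases j with
  | zero => exact ⟨base ⟨a, ha⟩, rfl, rfl⟩
  | succ j =>
    have h1 : wok H k (a :: List.replicate (H - (j + 1)) 0) := by
      refine ⟨wok_replicate hk _ (by omega), ?_, ?_⟩
      · rw [List.length_replicate]
        omega
      · rw [List.length_replicate, show H - (H - (j + 1)) = j + 1 by omega]
        exact ha
    refine ⟨node s.o (fun _ => ⟨0, hm⟩) ⟨0, by rw [s.ho]; exact Nat.one_pos⟩ _ h1, ?_, rfl⟩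
    change H + 1 - (a :: List.replicate (H - (j + 1)) 0).length = j + 1
    rw [List.length_cons, List.length_replicate]
    omega

theorem exists_top {a : ℕ} (ha : a < m) : ∃ x : WU s H k m, x.lev = H + 1 ∧ x.val = a :=
  ⟨node s.o (fun _ => ⟨a, ha⟩) ⟨0, by rw [s.ho]; exact Nat.one_pos⟩ [] (wok_nil H k), rfl, rfl⟩

theorem par_node {κ : s.ι} {v : Fin (s.ar κ) → Fin m} {i : Fin (s.ar κ)} {l : List ℕ}
    {hl : wok H k l} {y : WU s H k m} (h : par y (node κ v i l hl)) :
    ∃ a hl', y = node κ v i (a :: l) hl' := by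
  cases y with
  | base b => exact absurd h id
  | cell κ v => exact absurd h id
  | node κ' v' i' l' hl' =>
    cases l' with
    | nil => exact absurd h (by simp [par])
    | cons a l' =>
      have h1 : node κ v i l hl = node κ' v' i' l' hl'.1 := h
      simp only [node.injEq] at h1
      obtain ⟨rfl, h2, h3, rfl⟩ := h1
      obtain rfl := eq_of_heq h2
      obtain rfl := eq_of_heq h3
      exact ⟨a, hl', rfl⟩

theorem par_cell {κ : s.ι} {v : Fin (s.ar κ) → Fin m} {y : WU s H k m} (h : par y (cell κ v)) :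
    ∃ i, y = node κ v i [] (wok_nil H k) := by
  cases y with
  | base b => exact absurd h id
  | cell κ v => exact absurd h id
  | node κ' v' i' l' hl' =>
    cases l' with
    | nil =>
      have h1 : cell κ v = cell κ' v' := h
      simp only [cell.injEq] at h1
      obtain ⟨rfl, h2⟩ := h1
      obtain rfl := eq_of_heq h2
      exact ⟨i', rfl⟩
    | cons a l' => exact absurd h (by simp [par])

theorem mem_of_ev (hm : m ≤ tw (H + 1) k) {j : ℕ} (hj : j ≤ H)
    (E : ∀ x y : WU s H k m, x.lev = j → y.lev = j → ((str ρ).ev j x y ↔ x.val = y.val))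
    {x y : WU s H k m} (hx : x.lev = j + 1) (hy : y.lev = j) :
    (str ρ).mem j y x ↔ x.val.testBit y.val = true := by
  obtain ⟨κ, v, i, l, hl, rfl, hlen⟩ := lev_eq_succ hj hx
  cases j with
  | zero =>
    obtain ⟨b, rfl⟩ := lev_eq_zero hy
    change (l.length = H ∧ (nv v i l).testBit b = true) ↔ (nv v i l).testBit b = true
    rw [Nat.sub_zero] at hlen
    exact ⟨fun h => h.2, fun h => ⟨hlen, h⟩⟩
  | succ j =>
    change (∃ y', par y' (node κ v i l hl) ∧ mar ρ y' ∧ (str ρ).ev (j + 1) y y') ↔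
      (nv v i l).testBit y.val = true
    constructor
    · rintro ⟨y', h1, h2, h3⟩
      obtain ⟨a, hl', rfl⟩ := par_node h1
      have h4 := (E y _ hy (by
        change H + 1 - (a :: l).length = j + 1
        rw [List.length_cons]
        omega)).1 h3
      have h5 : y.val = a := h4
      rw [h5]
      exact h2
    · intro h
      have hl' : wok H k (y.val :: l) := by
        refine ⟨hl, by omega, ?_⟩
        rw [show H - l.length = j + 1 by omega]
        exact val_lt hm (by omega) hy
      refine ⟨node κ v i (y.val :: l) hl', rfl, h, ?_⟩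
      refine (E y _ hy ?_).2 rfl
      change H + 1 - (y.val :: l).length = j + 1
      rw [List.length_cons]
      omega

theorem ev_iff (hk : 1 ≤ k) (hm0 : 0 < m) (hm : m ≤ tw (H + 1) k) (j : ℕ) (hj : j ≤ H + 1)
    (x y : WU s H k m) (hx : x.lev = j) (hy : y.lev = j) :
    (str ρ).ev j x y ↔ x.val = y.val := by
  induction j generalizing x y with
  | zero =>
    obtain ⟨b, rfl⟩ := lev_eq_zero hx
    obtain ⟨c, rfl⟩ := lev_eq_zero hy
    change base b = base c ↔ (b : ℕ) = c
    rw [base.injEq, Fin.ext_iff]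
  | succ j ih =>
    have hj' : j ≤ H := by omega
    have E := ih (by omega)
    change (∀ w, (str ρ).Lv j w → ((str ρ).mem j w x ↔ (str ρ).mem j w y)) ↔ x.val = y.val
    constructor
    · intro h
      refine Nat.eq_of_testBit_eq fun a => ?_
      by_cases ha : a < tw j k
      · obtain ⟨w, hw, rfl⟩ := exists_val (s := s) (m := m) hk hm0 hj' ha
        have h1 := h w ((Lv_iff (by omega)).2 hw)
        rw [mem_of_ev hm hj' E hx hw, mem_of_ev hm hj' E hy hw] at h1
        exact Bool.eq_iff_iff.2 h1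
      · have h1 : x.val < 2 ^ a := (val_lt hm hj hx).trans_le
          (Nat.pow_le_pow_right (by norm_num) (not_lt.1 ha))
        have h2 : y.val < 2 ^ a := (val_lt hm hj hy).trans_le
          (Nat.pow_le_pow_right (by norm_num) (not_lt.1 ha))
        rw [Nat.testBit_lt_two_pow h1, Nat.testBit_lt_two_pow h2]
    · intro h w hw
      have hw' := (Lv_iff (by omega)).1 hw
      rw [mem_of_ev hm hj' E hx hw', mem_of_ev hm hj' E hy hw', h]

theorem mem_iff (hk : 1 ≤ k) (hm0 : 0 < m) (hm : m ≤ tw (H + 1) k) {j : ℕ} (hj : j ≤ H)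
    {x y : WU s H k m} (hx : x.lev = j + 1) (hy : y.lev = j) :
    (str ρ).mem j y x ↔ x.val.testBit y.val = true :=
  mem_of_ev hm hj (ev_iff hk hm0 hm j (by omega)) hx hy

theorem av_iff (hk : 1 ≤ k) (hm0 : 0 < m) (hm : m ≤ tw (H + 1) k) (j : ℕ) (hj : j ≤ H + 1)
    (x : WU s H k m) (hx : x.lev = j) : (str ρ).av j x ↔ x.val < tw j (k - 1) := by
  induction j generalizing x with
  | zero =>
    obtain ⟨b, rfl⟩ := lev_eq_zero hx
    change ¬ ((b : ℕ) + 1 = k) ↔ (b : ℕ) < k - 1
    have := b.2
    omega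
  | succ j ih =>
    have hj' : j ≤ H := by omega
    change (∀ y, (str ρ).Lv j y → (str ρ).mem j y x → (str ρ).av j y) ↔
      x.val < 2 ^ tw j (k - 1)
    constructor
    · intro h
      refine Nat.lt_pow_two_of_testBit _ fun a ha => ?_
      by_contra hb
      rw [Bool.not_eq_false] at hb
      have h1 : a < tw j k := by
        by_contra h2
        have h3 : x.val < 2 ^ a := (val_lt hm hj hx).trans_le
          (Nat.pow_le_pow_right (by norm_num) (not_lt.1 h2))
        rw [Nat.testBit_lt_two_pow h3] at hb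
        exact Bool.false_ne_true hb
      obtain ⟨w, hw, rfl⟩ := exists_val (s := s) (m := m) hk hm0 hj' h1
      have h2 := h w ((Lv_iff (by omega)).2 hw) ((mem_iff hk hm0 hm hj' hx hw).2 hb)
      have h3 := (ih (by omega) w hw).1 h2
      omega
    · intro h y hy hyx
      have hy' := (Lv_iff (by omega)).1 hy
      refine (ih (by omega) y hy').2 ?_
      have h1 := (mem_iff hk hm0 hm hj' hx hy').1 hyx
      by_contra h2
      have h3 : x.val < 2 ^ y.val := h.trans_le
        (Nat.pow_le_pow_right (by norm_num) (not_lt.1 h2))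
      rw [Nat.testBit_lt_two_pow h3] at h1
      exact Bool.false_ne_true h1

theorem tog_of (hk : 1 ≤ k) (hm0 : 0 < m) (hm : m ≤ tw (H + 1) k) {j : ℕ} (hj : j ≤ H)
    {x y x' : WU s H k m} (hx : x.lev = j + 1) (hy : y.lev = j) (hx' : x'.lev = j + 1)
    (h : x'.val = x.val ^^^ 2 ^ y.val) : (str ρ).Tog j x y x' := by
  intro w hw
  have hw' := (Lv_iff (by omega)).1 hw
  rw [mem_iff hk hm0 hm hj hx' hw', mem_iff hk hm0 hm hj hx hw',
    ev_iff hk hm0 hm j (by omega) y w hy hw', h, Nat.testBit_xor, Nat.testBit_two_pow]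
  by_cases h1 : x.val.testBit w.val = true <;> by_cases h2 : y.val = w.val <;> simp [h1, h2]

theorem xor_lt {a b n : ℕ} (ha : a < 2 ^ n) (hb : b < n) : a ^^^ 2 ^ b < 2 ^ n :=
  Nat.xor_lt_two_pow ha (Nat.pow_lt_pow_right (by norm_num) hb)

theorem str_ax (h : KM H k m) : (str ρ : Rw s H (WU s H k m)).Ax := by
  obtain ⟨hk, hm1, hm⟩ := h
  have hm0 : 0 < m := lt_of_le_of_lt (Nat.zero_le _) hm1
  refine ⟨?_, ?_, ?_, ?_, ?_, ?_, ?_, ?_, ?_, ?_, ?_, ?_, ?_⟩
  · -- kind
    intro x
    cases x with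
    | base b =>
      refine ⟨Sum.inl ⟨0, by omega⟩, rfl, ?_⟩
      rintro (j | ⟨κ, i⟩ | κ) hq
      · have h1 : 0 = (j : ℕ) := hq
        exact congrArg Sum.inl (Fin.ext h1.symm)
      · obtain ⟨v, hv⟩ := hq
        exact absurd hv (by simp)
      · obtain ⟨v, hv⟩ := hq
        exact absurd hv (by simp)
    | cell κ v =>
      refine ⟨Sum.inr (Sum.inr κ), ⟨v, rfl⟩, ?_⟩
      rintro (j | ⟨κ', i⟩ | κ') hq
      · have h1 : H + 2 = (j : ℕ) := hq
        have := j.2
        omega
      · obtain ⟨v', hv⟩ := hq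
        exact absurd hv (by simp)
      · obtain ⟨v', hv⟩ := hq
        simp only [cell.injEq] at hv
        rw [hv.1]
    | node κ v i l hl =>
      cases l with
      | nil =>
        refine ⟨Sum.inr (Sum.inl ⟨κ, i⟩), ⟨v, rfl⟩, ?_⟩
        rintro (j | ⟨κ', i'⟩ | κ') hq
        · have h1 : H + 1 = (j : ℕ) := hq
          have := j.2
          omega
        · obtain ⟨v', hv⟩ := hq
          simp only [node.injEq] at hv
          obtain ⟨rfl, -, h3, -⟩ := hv
          rw [eq_of_heq h3]
        · obtain ⟨v', hv⟩ := hq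
          exact absurd hv (by simp)
      | cons a l =>
        have h1 := hl.2.1
        refine ⟨Sum.inl ⟨H + 1 - (l.length + 1), by omega⟩, rfl, ?_⟩
        rintro (j | ⟨κ', i'⟩ | κ') hq
        · have h2 : H + 1 - (l.length + 1) = (j : ℕ) := hq
          exact congrArg Sum.inl (Fin.ext h2.symm)
        · obtain ⟨v', hv⟩ := hq
          exact absurd hv (by simp)
        · obtain ⟨v', hv⟩ := hq
          exact absurd hv (by simp)
  · -- par_lv
    intro y x hyx
    cases y with
    | base b => exact absurd hyx id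
    | cell κ v => exact absurd hyx id
    | node κ v i l hl =>
      cases l with
      | nil =>
        obtain rfl : x = cell κ v := hyx
        exact Or.inr ⟨κ, i, ⟨v, rfl⟩, ⟨v, rfl⟩⟩
      | cons a l =>
        obtain rfl : x = node κ v i l hl.1 := hyx
        have h1 := hl.2.1
        refine Or.inl ⟨H - l.length, by omega, by omega, (Lv_iff (by omega)).2 ?_,
          (Lv_iff (by omega)).2 ?_⟩
        · change H + 1 - (l.length + 1) = H - l.length
          omega
        · change H + 1 - l.length = H - l.length + 1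
          omega
  · -- par_ex
    intro j hj1 hj y hy
    have hy' := (Lv_iff hj).1 hy
    obtain ⟨j, rfl⟩ := Nat.exists_eq_add_of_le' hj1
    obtain ⟨κ, v, i, l, hl, rfl, -⟩ := lev_eq_succ (by omega) hy'
    cases l with
    | nil => exact ⟨cell κ v, rfl, fun x hx => hx⟩
    | cons a l => exact ⟨node κ v i l hl.1, rfl, fun x hx => hx⟩
  · -- child
    intro j hj1 hj x hx y hy
    have hx' := (Lv_iff (by omega)).1 hx
    have hy' := (Lv_iff (by omega)).1 hy
    obtain ⟨κ, v, i, l, hl, rfl, hlen⟩ := lev_eq_succ hj hx'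
    have hl' : wok H k (y.val :: l) := by
      refine ⟨hl, by omega, ?_⟩
      rw [show H - l.length = j by omega]
      exact val_lt hm (by omega) hy'
    have hlv : ∀ a (ha : wok H k (a :: l)), (node κ v i (a :: l) ha : WU s H k m).lev = j := by
      intro a ha
      change H + 1 - (l.length + 1) = j
      omega
    refine ⟨node κ v i (y.val :: l) hl', ⟨rfl,
      (ev_iff hk hm0 hm j (by omega) _ _ hy' (hlv _ _)).2 rfl⟩, ?_⟩
    rintro y' ⟨h1, h2⟩
    obtain ⟨a, ha, rfl⟩ := par_node h1
    have h3 : y.val = a := (ev_iff hk hm0 hm j (by omega) _ _ hy' (hlv _ _)).1 h2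
    subst h3
    rfl
  · -- coord
    rintro κ c ⟨v, rfl⟩ i
    refine ⟨node κ v i [] (wok_nil H k), ⟨rfl, ⟨v, rfl⟩⟩, ?_⟩
    rintro y ⟨h1, v', rfl⟩
    have h1' : par (node κ v' i [] (wok_nil H k)) (cell κ v) := h1
    obtain ⟨i', hi⟩ := par_cell h1'
    simp only [node.injEq] at hi
    rw [eq_of_heq hi.2.1]
  · -- cells
    intro κ v hv
    have hv' : ∀ i, (v i).lev = H + 1 := fun i => (Lv_iff le_rfl).1 (hv i)
    refine ⟨cell κ (fun i => ⟨(v i).val, val_top_lt (hv' i)⟩), ⟨⟨_, rfl⟩, fun i =>
      ⟨node κ _ i [] (wok_nil H k), rfl, ⟨_, rfl⟩,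
        (ev_iff hk hm0 hm (H + 1) le_rfl _ _ (hv' i) rfl).2 rfl⟩⟩, ?_⟩
    rintro c ⟨⟨w, rfl⟩, hc⟩
    congr 1
    funext i
    obtain ⟨y, h1, ⟨w', rfl⟩, h3⟩ := hc i
    have h1' : par (node κ w' i [] (wok_nil H k)) (cell κ w) := h1
    obtain ⟨i', hi⟩ := par_cell h1'
    simp only [node.injEq] at hi
    have h4 := eq_of_heq hi.2.1
    subst h4
    have h5 := (ev_iff hk hm0 hm (H + 1) le_rfl _ _ (hv' i) rfl).1 h3
    exact Fin.ext h5.symm
  · -- he
    intro x w hxw
    cases x with
    | base b => exact absurd hxw id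
    | cell κ v => exact absurd hxw id
    | node κ v i l hl =>
      cases w with
      | base b =>
        have h1 : l.length = H := hxw.1
        refine ⟨(Lv_iff (by omega)).2 ?_, (Lv_iff (by omega)).2 rfl⟩
        change H + 1 - l.length = 1
        omega
      | cell κ' v' => exact absurd hxw id
      | node κ' v' i' l' hl' => exact absurd hxw id
  · -- hz
    refine ⟨base ⟨k - 1, by omega⟩, ⟨(Lv_iff (by omega)).2 rfl, ?_⟩, ?_⟩
    · change k - 1 + 1 = k
      omega
    · rintro w ⟨hw, hw'⟩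
      obtain ⟨b, rfl⟩ := lev_eq_zero ((Lv_iff (by omega)).1 hw)
      have h1 : (b : ℕ) + 1 = k := hw'
      congr 1
      apply Fin.ext
      change (b : ℕ) = k - 1
      omega
  · -- full0
    intro j hj
    obtain ⟨x, hx, hx0⟩ := exists_val (s := s) (H := H) (m := m) hk hm0 (j := j + 1) (by omega)
      (lt_of_lt_of_le (by omega : 0 < k) (le_tw _ k))
    refine ⟨x, (Lv_iff (by omega)).2 hx, fun y hy hyx => ?_⟩
    have h1 := (mem_iff hk hm0 hm (by omega) hx ((Lv_iff (by omega)).1 hy)).1 hyx
    rw [hx0, Nat.zero_testBit] at h1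
    exact Bool.false_ne_true h1
  · -- full1
    intro j hj x hx y hy
    have hx' := (Lv_iff (by omega)).1 hx
    have hy' := (Lv_iff (by omega)).1 hy
    have h1 : x.val ^^^ 2 ^ y.val < tw (j + 1) k :=
      xor_lt (val_lt hm (by omega) hx') (val_lt hm (by omega) hy')
    obtain ⟨x', h2, h3⟩ := exists_val (s := s) (H := H) (m := m) hk hm0 (j := j + 1)
      (by omega) h1
    exact ⟨x', (Lv_iff (by omega)).2 h2, tog_of hk hm0 hm (by omega) hx' hy' h2 h3⟩
  · -- top0
    obtain ⟨x, hx, hx0⟩ := exists_top (s := s) (H := H) (k := k) hm0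
    refine ⟨x, (Lv_iff le_rfl).2 hx, fun y hy hyx => ?_⟩
    have h1 := (mem_iff hk hm0 hm le_rfl hx ((Lv_iff (by omega)).1 hy)).1 hyx
    rw [hx0, Nat.zero_testBit] at h1
    exact Bool.false_ne_true h1
  · -- top1
    intro x hx hxa y hy hya
    have hx' := (Lv_iff le_rfl).1 hx
    have hy' := (Lv_iff (by omega)).1 hy
    have h1 := (av_iff hk hm0 hm _ le_rfl x hx').1 hxa
    have h2 := (av_iff hk hm0 hm _ (by omega) y hy').1 hya
    have h3 : x.val ^^^ 2 ^ y.val < tw (H + 1) (k - 1) := xor_lt h1 h2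
    obtain ⟨x', h4, h5⟩ := exists_top (s := s) (H := H) (k := k) (h3.trans hm1)
    exact ⟨x', (Lv_iff le_rfl).2 h4, tog_of hk hm0 hm le_rfl hx' hy' h4 h5⟩
  · -- top2
    obtain ⟨x, hx, hx0⟩ := exists_top (s := s) (H := H) (k := k) hm1
    refine ⟨x, (Lv_iff le_rfl).2 hx, fun hxa => ?_⟩
    have h1 := (av_iff hk hm0 hm _ le_rfl x hx).1 hxa
    omega

theorem finite_wok (H k : ℕ) : Finite {l : List ℕ // wok H k l} := by
  have h1 : ∀ l : List ℕ, wok H k l → ∀ a ∈ l, a < tw H k := by
    intro l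
    induction l with
    | nil => intro _ a ha; exact absurd ha (by simp)
    | cons b l ih =>
      intro h a ha
      rcases List.mem_cons.1 ha with rfl | ha
      · exact h.2.2.trans_le (tw_le (Nat.sub_le _ _) le_rfl)
      · exact ih h.1 a ha
  have h2 : {l : List ℕ | wok H k l} ⊆
      (fun l : List (Fin (tw H k)) => l.map Fin.val) '' {l | l.length ≤ H} := by
    intro l hl
    refine ⟨l.attach.map (fun a => ⟨a.1, h1 l hl a.1 a.2⟩), ?_, ?_⟩
    · change (l.attach.map _).length ≤ H
      rw [List.length_map, List.length_attach]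
      exact wok_length hl
    · change (l.attach.map _).map Fin.val = l
      rw [List.map_map]
      change l.attach.map (fun a => a.1) = l
      exact List.attach_map_subtype_val l
  exact ((List.finite_length_le (Fin (tw H k)) H).image _).subset h2

instance : Finite (WU s H k m) := by
  have := finite_wok H k
  let f : WU s H k m → Fin k ⊕ ((Σ κ : s.ι, (Fin (s.ar κ) → Fin m)) ⊕
      (Σ κ : s.ι, (Fin (s.ar κ) → Fin m) × Fin (s.ar κ) × {l : List ℕ // wok H k l})) := fun x =>
    match x with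
    | base b => Sum.inl b
    | cell κ v => Sum.inr (Sum.inl ⟨κ, v⟩)
    | node κ v i l hl => Sum.inr (Sum.inr ⟨κ, v, i, ⟨l, hl⟩⟩)
  refine Finite.of_injective f ?_
  intro x y hxy
  cases x <;> cases y <;> simp [f] at hxy ⊢
  · exact hxy
  · exact hxy
  · obtain ⟨rfl, h⟩ := hxy
    simp at h
    simp [h]

end WU

theorem exists_encoded (s : Sg) {H k m : ℕ} (h : KM H k m) (M : Type) (hM : Nat.card M = m)
    (ρ : ∀ κ : s.ι, (Fin (s.ar κ) → M) → Prop) :
    ∃ (U : Type) (A : Rw s H U), Finite U ∧ A.Ax ∧ ∃ e : M ≃ {x : U // A.cell s.o x},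
      ∀ κ (v : Fin (s.ar κ) → M), A.Rl κ (fun i => (e (v i)).1) ↔ ρ κ v := by
  have hm0 : 0 < m := lt_of_le_of_lt (Nat.zero_le _) h.2.1
  have : Finite M := Nat.finite_of_card_ne_zero (by omega)
  let φ : M ≃ Fin m := Finite.equivFinOfCardEq hM
  let ρ' : ∀ κ : s.ι, (Fin (s.ar κ) → Fin m) → Prop := fun κ w => ρ κ (fun i => φ.symm (w i))
  let A : Rw s H (WU s H k m) := WU.str ρ'
  have hsub : ∀ i j : Fin (s.ar s.o), i = j := by
    intro i j
    have := i.2
    have := j.2
    have := s.ho
    exact Fin.ext (by omega)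
  let i0 : Fin (s.ar s.o) := ⟨0, by rw [s.ho]; exact Nat.one_pos⟩
  let E0 : M → {x : WU s H k m // A.cell s.o x} := fun a =>
    ⟨WU.cell s.o (fun _ => φ a), ⟨_, rfl⟩⟩
  have hE0 : Function.Bijective E0 := by
    constructor
    · intro a b hab
      have h1 := congrArg Subtype.val hab
      have h2 : (WU.cell s.o (fun _ => φ a) : WU s H k m) = WU.cell s.o (fun _ => φ b) := h1
      simp only [WU.cell.injEq, heq_eq_eq, true_and] at h2
      exact φ.injective (congrFun h2 i0)
    · rintro ⟨x, v, rfl⟩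
      refine ⟨φ.symm (v i0), Subtype.ext ?_⟩
      change WU.cell s.o (fun _ => φ (φ.symm (v i0))) = WU.cell s.o v
      congr 1
      funext i
      rw [φ.apply_symm_apply, hsub i i0]
  refine ⟨WU s H k m, A, inferInstance, WU.str_ax h, Equiv.ofBijective E0 hE0, ?_⟩
  intro κ v
  change A.Rl κ (fun i => WU.cell s.o (fun _ => φ (v i))) ↔ ρ κ v
  constructor
  · rintro ⟨c, ⟨w, rfl⟩, hmar, hc⟩
    have h1 : ρ κ (fun i => φ.symm (w i)) := hmar
    have h2 : (fun i => φ.symm (w i)) = v := by
      funext i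
      obtain ⟨y, y', g1, ⟨w', rfl⟩, g3, g4⟩ := hc i
      have g1' : WU.par (WU.node κ w' i [] (wok_nil H k)) (WU.cell κ w) := g1
      obtain ⟨i1, hi1⟩ := WU.par_cell g1'
      simp only [WU.node.injEq] at hi1
      have g5 := eq_of_heq hi1.2.1
      subst g5
      have g3' : WU.par y' (WU.cell s.o (fun _ => φ (v i))) := g3
      obtain ⟨i2, rfl⟩ := WU.par_cell g3'
      have g6 := (WU.ev_iff h.1 hm0 h.2.2 (H + 1) le_rfl _ _ rfl rfl).1 g4
      have g7 : φ (v i) = w' i := Fin.ext g6
      rw [← g7, φ.symm_apply_apply]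
    rw [← h2]
    exact h1
  · intro hρ
    refine ⟨WU.cell κ (fun i => φ (v i)), ⟨_, rfl⟩, ?_, fun i => ?_⟩
    · change ρ κ (fun i => φ.symm (φ (v i)))
      simpa using hρ
    · refine ⟨WU.node κ _ i [] (wok_nil H k), WU.node s.o _ i0 [] (wok_nil H k), rfl,
        ⟨_, rfl⟩, rfl, ?_⟩
      exact (WU.ev_iff h.1 hm0 h.2.2 (H + 1) le_rfl _ _ rfl rfl).2 rfl

end Pool.Agent.Helper72.WT
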