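import Mathlib

set_option autoImplicit false

/-! The descent in the width. -/

namespace Pool.Agent.Helper72.WT

theorem arith (S : Set ℕ) (A : ℕ → Set ℕ) (hAS : ∀ r, A r ⊆ S) (n₀ r₁ : ℕ) (M L w : ℕ → ℕ)
    (hr1 : 1 ≤ r₁) (hA : ∀ n ∈ S, n₀ ≤ n → ∀ r, 1 ≤ r → w n ≤ r → n ∈ A r)
    (hup : ∀ r n, n ∈ A r → M r ≤ n → n + L r ∈ A r)
    (hdown : ∀ r n, n ∈ A r → M r + L r ≤ n → ∃ n', n' ∈ A r ∧ n' + L r = n)
    (hL : ∀ r, 1 ≤ L r)
    (hw : ∀ r, r₁ ≤ r → ∀ n, n ≤ M r + 2 * L r → w n < r)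
    (hM : ∀ r, r₁ ≤ r → n₀ ≤ M r) (hMm : Monotone M) (hLm : Monotone L) :
    ∀ n ∈ S, M r₁ ≤ n → n + L r₁ ∈ S := by
  have down : ∀ r n, n ∈ A r → M r ≤ n →
      ∃ n' j, n' ∈ A r ∧ M r ≤ n' ∧ n' < M r + L r ∧ n = n' + j * L r := by
    intro r n
    induction n using Nat.strong_induction_on with
    | _ n ih =>
      intro hn hMn
      by_cases hc : n < M r + L r
      · exact ⟨n, 0, hn, hMn, hc, by simp⟩
      · obtain ⟨n', hn', he⟩ := hdown r n hn (not_lt.1 hc)
        have hL' := hL r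
        obtain ⟨n'', j, h1, h2, h3, h4⟩ := ih n' (by omega) hn' (by omega)
        exact ⟨n'', j + 1, h1, h2, h3, by rw [← he, h4]; ring⟩
  have up : ∀ r n j, n ∈ A r → M r ≤ n → n + j * L r ∈ A r := by
    intro r n j hn hMn
    induction j with
    | zero => simpa using hn
    | succ j ih =>
      have := hup r _ ih (by omega)
      rwa [add_assoc, ← Nat.succ_mul] at this
  have key : ∀ r, r₁ ≤ r → ∀ n ∈ A r, M r ≤ n → n + L r₁ ∈ S := by
    intro r
    induction r using Nat.strong_induction_on with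
    | _ r ih =>
      intro hr n hn hMn
      rcases hr.eq_or_lt with rfl | hlt
      · exact hAS _ (hup _ n hn hMn)
      · obtain ⟨n', j, h1, h2, h3, h4⟩ := down r n hn hMn
        have h5 : w n' < r := hw r hr n' (by omega)
        have h6 : max (w n') r₁ < r := max_lt h5 hlt
        have hn₀ : n₀ ≤ n' := (hM r hr).trans h2
        have h7 : n' ∈ A (max (w n') r₁) :=
          hA n' (hAS r h1) hn₀ _ (hr1.trans (le_max_right _ _)) (le_max_left _ _)
        have h8 := ih _ h6 (le_max_right _ _) n' h7 ((hMm h6.le).trans h2)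
        have hLL := hLm hr
        have h9 : n' + L r₁ ∈ A r :=
          hA _ h8 (by omega) r (hr1.trans hr) (hw r hr _ (by omega)).le
        have h10 := up r _ j h9 (by omega)
        have e : n + L r₁ = n' + L r₁ + j * L r := by rw [h4]; ring
        rw [e]
        exact hAS r h10
  intro n hn hMn
  have h1 : n ∈ A (max (w n) r₁) :=
    hA n hn ((hM r₁ le_rfl).trans hMn) _ (hr1.trans (le_max_right _ _)) (le_max_left _ _)
  refine key _ (le_max_right _ _) n h1 ?_
  rcases le_total (w n) r₁ with h | h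
  · rw [max_eq_right h]; exact hMn
  · rw [max_eq_left h]
    by_contra hc
    exact absurd (hw (w n) h n (by omega)) (lt_irrefl _)

end Pool.Agent.Helper72.WT
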