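import Mathlib
import Pool.Agent.Helper32.PumpDefs

set_option autoImplicit false

/-! The width of a finite relational structure. -/

namespace Pool.Agent.Helper72.WT

open FirstOrder FirstOrder.Language
open Pool.Agent.Helper32.Pump

/-- The subset `U` of the structure `M` can be built from one-element sets by disjoint unions in
such a way that every set that occurs has cut index at most `r`, that is: its elements fall into
at most `r` classes, and elements of the same class can replace each other in every relation
with elements of `M` at least one of which lies outside the set. -/
inductive Built (L : FirstOrder.Language.{0, 0}) (M : Type) [L.Structure M] (r : ℕ) :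
    Set M → Prop
  | point (a : M) : Built L M r {a}
  | union (U W : Set M) (hU : Built L M r U) (hW : Built L M r W) (hd : Disjoint U W)
      (hc : CutIndexLE L M r (U ∪ W)) : Built L M r (U ∪ W)

/-- The structure `M` has width at most `r`. -/
def WidthLE (L : FirstOrder.Language.{0, 0}) (M : Type) [L.Structure M] (r : ℕ) : Prop :=
  Built L M r Set.univ

end Pool.Agent.Helper72.WT
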