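import Mathlib
import Pool.Agent.Helper32.PumpCol

set_option autoImplicit false

/-! Joins of pieces with `r` colours; their types are determined by the types of the pieces. -/

namespace Pool.Agent.Helper72.WT

open Pool.Agent.Helper32.Pump

variable {κ κ' : Type} {V V' : Voc}

/-- Transfer of type equality to redefined structures. -/
lemma tp_lift {S S' : Col κ V} (c : S.carrier → κ') (ρ : ∀ R : V'.ι, (V'.ar R → S.carrier) → Prop)
    (c' : S'.carrier → κ') (ρ' : ∀ R : V'.ι, (V'.ar R → S'.carrier) → Prop)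
    (h0 : ∀ {n : ℕ} (a : Fin n → S.carrier) (a' : Fin n → S'.carrier), tp0 S a = tp0 S' a' →
      tp0 (⟨S.carrier, c, ρ⟩ : Col κ' V') a = tp0 (⟨S'.carrier, c', ρ'⟩ : Col κ' V') a') (q : ℕ) :
    ∀ {n : ℕ} (a : Fin n → S.carrier) (a' : Fin n → S'.carrier), tp S q a = tp S' q a' →
      tp (⟨S.carrier, c, ρ⟩ : Col κ' V') q a = tp (⟨S'.carrier, c', ρ'⟩ : Col κ' V') q a' := by
  induction q with
  | zero => intro n a a' h; exact h0 a a' h
  | succ q ih =>
    intro n a a' h
    obtain ⟨h1, h2, h3⟩ := tp_succ_iff.1 h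
    refine tp_succ_iff.2 ⟨h0 a a' h1, ?_, ?_⟩
    · intro x
      obtain ⟨x', hx'⟩ := h2 x
      exact ⟨x', ih _ _ hx'⟩
    · intro x'
      obtain ⟨x, hx⟩ := h3 x'
      exact ⟨x, ih _ _ hx⟩

/-- forget the colours -/
def forget {r : ℕ} (P : Col (Unit × Fin r) V) : Col Unit V := ⟨P.carrier, fun _ => (), P.rel⟩

lemma tpS_forget {r : ℕ} {P P' : Col (Unit × Fin r) V} {q : ℕ} (h : tpS P q = tpS P' q) :
    tpS (forget P) q = tpS (forget P') q := by
  refine tp_lift (S := P) (S' := P') (fun _ => ()) P.rel (fun _ => ()) P'.rel ?_ q _ _ h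
  intro n a a' h
  simp only [tp0, Prod.mk.injEq] at h ⊢
  exact ⟨trivial, h.2⟩

/-- The data of a join of two pieces. -/
structure Jn (r : ℕ) (V : Voc) where
  s₁ : Fin r → Fin r
  s₂ : Fin r → Fin r
  X : ∀ (R : V.ι) (p : V.ar R → Option (Unit × Fin r)), ({i // p i = none} → Unit × Fin r) → Prop

/-- The second piece as a structure for the extended vocabulary. -/
def extOf {r : ℕ} (δ : Jn r V) (P : Col (Unit × Fin r) V) :
    Col (Unit × Fin r) (V.ext (Unit × Fin r)) :=
  ⟨P.carrier, fun d => ((), δ.s₂ (P.col d).2), fun z y =>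
    (∃ h : ∀ i, z.2 i = none, P.rel z.1 fun i => y ⟨i, h i⟩) ∨
    ((¬ ∀ i, z.2 i = none) ∧ δ.X z.1 z.2 fun i => P.col (y i))⟩

lemma tpS_extOf {r : ℕ} (δ : Jn r V) {P P' : Col (Unit × Fin r) V} {q : ℕ}
    (h : tpS P q = tpS P' q) : tpS (extOf δ P) q = tpS (extOf δ P') q := by
  refine tp_lift (S := P) (S' := P') _ _ _ _ ?_ q _ _ h
  intro n a a' h
  simp only [tp0, Prod.mk.injEq] at h ⊢
  obtain ⟨h1, h2, h3⟩ := h
  have h1' : ∀ i, P.col (a i) = P'.col (a' i) := fun i => congrFun h1 i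
  refine ⟨?_, ?_, h3⟩
  · funext i
    rw [h1' i]
  · funext z f
    obtain ⟨R, p⟩ := z
    change {i // p i = none} → Fin n at f
    have e1 : (fun i => P.col (a (f i))) = fun i => P'.col (a' (f i)) :=
      funext fun i => h1' (f i)
    have e2 : ∀ h : (∀ i, p i = none), (P.rel R fun i => a (f ⟨i, h i⟩)) =
        (P'.rel R fun i => a' (f ⟨i, h i⟩)) := fun h =>
      congrFun (congrFun h2 R) fun i => f ⟨i, h i⟩
    refine propext (or_congr (exists_congr fun h => iff_of_eq (e2 h)) (and_congr Iff.rfl ?_))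
    exact iff_of_eq (congrArg (δ.X R p) e1)

/-- The join of two pieces. -/
def join {r : ℕ} (δ : Jn r V) (P₁ P₂ : Col (Unit × Fin r) V) : Col (Unit × Fin r) V :=
  Pool.Agent.Helper32.Pump.sum (fun p => (p.1, δ.s₁ p.2)) id P₁ (extOf δ P₂)

lemma tpS_join {r : ℕ} (δ : Jn r V) {P₁ P₂ P₁' P₂' : Col (Unit × Fin r) V} {q : ℕ}
    (h1 : tpS P₁ q = tpS P₁' q) (h2 : tpS P₂ q = tpS P₂' q) :
    tpS (join δ P₁ P₂) q = tpS (join δ P₁' P₂') q :=
  tpS_sum _ _ h1 (tpS_extOf δ h2)

lemma card_join {r : ℕ} (δ : Jn r V) (P₁ P₂ : Col (Unit × Fin r) V) [Finite P₁.carrier]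
    [Finite P₂.carrier] :
    Nat.card (join δ P₁ P₂).carrier = Nat.card P₁.carrier + Nat.card P₂.carrier := by
  show Nat.card (P₁.carrier ⊕ P₂.carrier) = _
  rw [Nat.card_sum]

lemma finite_join {r : ℕ} (δ : Jn r V) (P₁ P₂ : Col (Unit × Fin r) V) [Finite P₁.carrier]
    [Finite P₂.carrier] : Finite (join δ P₁ P₂).carrier := by
  show Finite (P₁.carrier ⊕ P₂.carrier)
  infer_instance

/-- a canonical labelling of a set -/
def Can {r : ℕ} (S : Col Unit V) (U : Set S.carrier) (c : S.carrier → Fin r) : Prop :=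
  ∀ u ∈ U, ∀ u' ∈ U, (c u = c u' ↔ Inter S U u u')

/-- the piece of a labelled set -/
def piece {r : ℕ} (S : Col Unit V) (U : Set S.carrier) (c : S.carrier → Fin r) :
    Col (Unit × Fin r) V := restr S U fun u => (S.col u, c u)

/-- the change of labels from `U` to a larger set -/
lemma exists_relabel {r : ℕ} {S : Col Unit V} {U W : Set S.carrier} {c c' : S.carrier → Fin r}
    (hc : Can S U c) (hc' : Can S W c') (hUW : U ⊆ W) :
    ∃ s : Fin r → Fin r, ∀ u ∈ U, c' u = s (c u) := by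
  classical
  refine ⟨fun k => if h : ∃ u ∈ U, c u = k then c' h.choose else k, fun u hu => ?_⟩
  have hex : ∃ u' ∈ U, c u' = c u := ⟨u, hu, rfl⟩
  simp only [dif_pos hex]
  have h1 := (hc _ hex.choose_spec.1 u hu).1 hex.choose_spec.2
  exact ((hc' _ (hUW hex.choose_spec.1) u (hUW hu)).2 (h1.mono hUW)).symm

/-- **A union of two labelled sets is a join.** -/
theorem piece_union [hV : V.Fin] {r : ℕ} {S : Col Unit V} {U W : Set S.carrier}
    {cU cW c : S.carrier → Fin r} (hU : Can S U cU) (hW : Can S W cW) (hc : Can S (U ∪ W) c)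
    (hd : Disjoint U W) (q : ℕ) : ∃ δ : Jn r V,
      tpS (piece S (U ∪ W) c) q = tpS (join δ (piece S U cU) (piece S W cW)) q := by
  classical
  obtain ⟨s₁, hs₁⟩ := exists_relabel hU hc Set.subset_union_left
  obtain ⟨s₂, hs₂⟩ := exists_relabel hW hc Set.subset_union_right
  let δ : Jn r V := ⟨s₁, s₂, fun R p t => ∃ (x : V.ar R → S.carrier),
    (∀ i (h : p i = none), x i ∈ W ∧ (((), cW (x i)) : Unit × Fin r) = t ⟨i, h⟩) ∧
    (∀ i k, p i = some k → x i ∈ U ∧ (((), cU (x i)) : Unit × Fin r) = k) ∧ S.rel R x⟩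
  refine ⟨δ, ?_⟩
  have h1 := split S (Set.subset_union_left (s := U) (t := W)) cU
    (fun u hu u' hu' h => (hU u hu u' hu').1 h)
    (fun u => (S.col u, c u)) (fun p : Unit × Fin r => (p.1, s₁ p.2)) (by
      intro u hu
      show (S.col u, c u) = (S.col u, s₁ (cU u))
      rw [hs₁ u hu]) q
  have hdiff : (U ∪ W) \ U = W := by
    ext x
    constructor
    · rintro ⟨h | h, h'⟩
      · exact absurd h h'
      · exact h
    · intro h
      exact ⟨Or.inr h, fun h' => Set.disjoint_left.1 hd h' h⟩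
  rw [hdiff] at h1
  refine h1.trans ?_
  refine tpS_sum _ _ rfl ?_
  -- the second summand
  refine tpS_iso (S := restrExt S U W (fun u => (S.col u, cU u)) fun u => (S.col u, c u))
    (S' := extOf δ (piece S W cW)) (Equiv.refl ↥W) ?_ ?_ q
  · rintro ⟨d, hd'⟩
    show (((), δ.s₂ (cW d)) : Unit × Fin r) = (S.col d, c d)
    rw [hs₂ d hd']
  · rintro ⟨R, p⟩ y
    change {i // p i = none} → ↥W at y
    show ((∃ h : ∀ i, p i = none, S.rel R fun i => (y ⟨i, h i⟩ : S.carrier)) ∨
      ((¬ ∀ i, p i = none) ∧ ∃ (x : V.ar R → S.carrier),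
        (∀ i (h : p i = none), x i ∈ W ∧
          (((), cW (x i)) : Unit × Fin r) = ((), cW (y ⟨i, h⟩ : S.carrier))) ∧
        (∀ i k, p i = some k → x i ∈ U ∧ (((), cU (x i)) : Unit × Fin r) = k) ∧ S.rel R x)) ↔
      ∃ x : V.ar R → S.carrier, (∀ i, x i.1 = y i) ∧
        (∀ i k, p i = some k → x i ∈ U ∧ (((), cU (x i)) : Unit × Fin r) = k) ∧ S.rel R x
    constructor
    · rintro (⟨h, hr⟩ | ⟨hn, x, hx1, hx2, hr⟩)
      · refine ⟨fun i => y ⟨i, h i⟩, fun i => rfl, fun i k hk => ?_, hr⟩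
        rw [h i] at hk
        exact absurd hk (by simp)
      · -- replace the entries of `W` by `y`
        refine ⟨fun i => if h : p i = none then (y ⟨i, h⟩ : S.carrier) else x i, ?_, ?_, ?_⟩
        · rintro ⟨i, h⟩
          simp only [dif_pos h]
        · intro i k hk
          have hk' : ¬ p i = none := by rw [hk]; simp
          simp only [dif_neg hk']
          exact hx2 i k hk
        · refine (multi (c := cW) (fun u hu u' hu' h => (hW u hu u' hu').1 h) R x _ ?_ ?_).1 hr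
          · intro i
            by_cases h : p i = none
            · right
              simp only [dif_pos h]
              exact ⟨(hx1 i h).1, (y ⟨i, h⟩).2, congrArg Prod.snd (hx1 i h).2⟩
            · left
              simp only [dif_neg h]
          · push Not at hn
            obtain ⟨i, hi⟩ := hn
            obtain ⟨k, hk⟩ := Option.ne_none_iff_exists'.1 hi
            exact ⟨i, Set.disjoint_left.1 hd (hx2 i k hk).1⟩
    · rintro ⟨x, hx1, hx2, hr⟩
      by_cases hall : ∀ i, p i = none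
      · left
        refine ⟨hall, ?_⟩
        have e : (fun i => (y ⟨i, hall i⟩ : S.carrier)) = x := funext fun i => (hx1 ⟨i, hall i⟩).symm
        rw [e]
        exact hr
      · right
        refine ⟨hall, x, fun i h => ?_, hx2, hr⟩
        rw [hx1 ⟨i, h⟩]
        exact ⟨(y ⟨i, h⟩).2, rfl⟩

end Pool.Agent.Helper72.WT
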