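import Mathlib

set_option autoImplicit false

/-!
Derivation trees over a finite set of labels: pumps can be removed and inserted without changing
the set of labels that occur, so the number of leaves of a large tree can be changed by `K!`.
-/

namespace Pool.Agent.Helper72.WT

open Finset

variable {Y : Type} [DecidableEq Y]

/-- `D Lf Op V t n`: there is a binary tree with `n` leaves, root label `t` and set of labels `V`,
whose leaves satisfy `Lf` and whose inner nodes satisfy `Op`. -/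
inductive D (Lf : Y → Prop) (Op : Y → Y → Y → Prop) : Finset Y → Y → ℕ → Prop
  | leaf {t : Y} (h : Lf t) : D Lf Op {t} t 1
  | node {V₁ V₂ V : Finset Y} {t₁ t₂ t : Y} {n₁ n₂ n : ℕ} (h : Op t₁ t₂ t)
      (h1 : D Lf Op V₁ t₁ n₁) (h2 : D Lf Op V₂ t₂ n₂) (hV : V = insert t (V₁ ∪ V₂))
      (hn : n = n₁ + n₂) : D Lf Op V t n

/-- Trees with a hole: `C Lf Op V t s k`: root label `t`, hole with label `s`, `k` leaves. -/
inductive C (Lf : Y → Prop) (Op : Y → Y → Y → Prop) : Finset Y → Y → Y → ℕ → Prop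
  | hole (s : Y) : C Lf Op ∅ s s 0
  | left {V₁ V₂ V : Finset Y} {t₁ t₂ t s : Y} {k n m : ℕ} (h : Op t₁ t₂ t)
      (h1 : C Lf Op V₁ t₁ s k) (h2 : D Lf Op V₂ t₂ n) (hV : V = insert t (V₁ ∪ V₂))
      (hm : m = k + n) : C Lf Op V t s m
  | right {V₁ V₂ V : Finset Y} {t₁ t₂ t s : Y} {k n m : ℕ} (h : Op t₁ t₂ t)
      (h1 : D Lf Op V₁ t₁ n) (h2 : C Lf Op V₂ t₂ s k) (hV : V = insert t (V₁ ∪ V₂))
      (hm : m = n + k) : C Lf Op V t s m

variable {Lf : Y → Prop} {Op : Y → Y → Y → Prop}

lemma D.pos {V : Finset Y} {t : Y} {n : ℕ} (h : D Lf Op V t n) : 1 ≤ n := by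
  induction h with
  | leaf h => exact le_rfl
  | node h h1 h2 hV hn ih1 ih2 => omega

lemma D.root {V : Finset Y} {t : Y} {n : ℕ} (h : D Lf Op V t n) : t ∈ V := by
  cases h with
  | leaf h => exact mem_singleton_self _
  | node h h1 h2 hV hn => rw [hV]; exact mem_insert_self _ _

lemma C.fill {V W : Finset Y} {t s : Y} {k n : ℕ} (h : C Lf Op V t s k) (h' : D Lf Op W s n) :
    D Lf Op (V ∪ W) t (k + n) := by
  induction h with
  | hole s => simpa using h'
  | left h h1 h2 hV hm ih =>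
    refine D.node h (ih h') h2 ?_ (by omega)
    rw [hV]; ext x; simp only [mem_union, mem_insert]; tauto
  | right h h1 h2 hV hm ih =>
    refine D.node h h1 (ih h') ?_ (by omega)
    rw [hV]; ext x; simp only [mem_union, mem_insert]; tauto

lemma D.split {V : Finset Y} {t : Y} {n : ℕ} (h : D Lf Op V t n) : ∀ s ∈ V,
    ∃ V₁ V₂ k m, C Lf Op V₁ t s k ∧ D Lf Op V₂ s m ∧ k + m = n ∧ V = V₁ ∪ V₂ := by
  induction h with
  | @leaf t h =>
    intro s hs
    rw [mem_singleton] at hs
    subst hs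
    exact ⟨∅, {s}, 0, 1, C.hole s, D.leaf h, rfl, by simp⟩
  | @node V₁ V₂ V t₁ t₂ t n₁ n₂ n h h1 h2 hV hn ih1 ih2 =>
    intro s hs
    by_cases hst : s = t
    · subst hst
      exact ⟨∅, V, 0, n, C.hole s, D.node h h1 h2 hV hn, by omega, by simp⟩
    · have hs' : s ∈ V₁ ∨ s ∈ V₂ := by
        rw [hV, mem_insert, mem_union] at hs
        tauto
      rcases hs' with hs' | hs'
      · obtain ⟨W₁, W₂, k, m, hc, hd, hkm, hW⟩ := ih1 s hs'
        refine ⟨insert t (W₁ ∪ V₂), W₂, k + n₂, m, C.left h hc h2 rfl rfl, hd, by omega, ?_⟩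
        rw [hV, hW]; ext x; simp only [mem_union, mem_insert]; tauto
      · obtain ⟨W₁, W₂, k, m, hc, hd, hkm, hW⟩ := ih2 s hs'
        refine ⟨insert t (V₁ ∪ W₁), W₂, n₁ + k, m, C.right h h1 hc rfl rfl, hd, by omega, ?_⟩
        rw [hV, hW]; ext x; simp only [mem_union, mem_insert]; tauto

lemma D.ins {V W : Finset Y} {t s : Y} {n p : ℕ} (h : D Lf Op V t n) (hs : s ∈ V)
    (hc : C Lf Op W s s p) : D Lf Op (V ∪ W) t (n + p) := by
  obtain ⟨V₁, V₂, k, m, h1, h2, h3, h4⟩ := h.split s hs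
  have h5 := h1.fill (hc.fill h2)
  have e1 : V₁ ∪ (W ∪ V₂) = V ∪ W := by
    rw [h4]; ext x; simp only [mem_union]; tauto
  have e2 : k + (p + m) = n + p := by omega
  rw [e1, e2] at h5
  exact h5

/-- a pump with `k` leaves can be removed from a tree -/
def Pum (Lf : Y → Prop) (Op : Y → Y → Y → Prop) (V : Finset Y) (t : Y) (n k : ℕ) : Prop :=
  ∃ V' W s n', V = V' ∪ W ∧ s ∈ V' ∧ C Lf Op W s s k ∧ D Lf Op V' t n' ∧ n' + k = n ∧ 1 ≤ k

lemma Pum.left {V₁ V₂ V : Finset Y} {t₁ t₂ t : Y} {n₁ n₂ n k : ℕ} (h : Op t₁ t₂ t)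
    (h1 : Pum Lf Op V₁ t₁ n₁ k) (h2 : D Lf Op V₂ t₂ n₂) (hV : V = insert t (V₁ ∪ V₂))
    (hn : n = n₁ + n₂) : Pum Lf Op V t n k := by
  obtain ⟨V', W, s, n', e, hs, hc, hd, hn', hk⟩ := h1
  refine ⟨insert t (V' ∪ V₂), W, s, n' + n₂, ?_, ?_, hc, D.node h hd h2 rfl rfl, by omega, hk⟩
  · rw [hV, e]; ext x; simp only [mem_union, mem_insert]; tauto
  · simp only [mem_union, mem_insert]; tauto

lemma Pum.right {V₁ V₂ V : Finset Y} {t₁ t₂ t : Y} {n₁ n₂ n k : ℕ} (h : Op t₁ t₂ t)
    (h1 : D Lf Op V₁ t₁ n₁) (h2 : Pum Lf Op V₂ t₂ n₂ k) (hV : V = insert t (V₁ ∪ V₂))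
    (hn : n = n₁ + n₂) : Pum Lf Op V t n k := by
  obtain ⟨V', W, s, n', e, hs, hc, hd, hn', hk⟩ := h2
  refine ⟨insert t (V₁ ∪ V'), W, s, n₁ + n', ?_, ?_, hc, D.node h h1 hd rfl rfl, by omega, hk⟩
  · rw [hV, e]; ext x; simp only [mem_union, mem_insert]; tauto
  · simp only [mem_union, mem_insert]; tauto

/-- Pigeonhole on a path of heavier children. -/
lemma D.pump_or [Fintype Y] {V : Finset Y} {t : Y} {n : ℕ} (h : D Lf Op V t n) :
    ∀ Seen : Finset Y, 2 ^ (Fintype.card Y - Seen.card) ≤ n → (∃ k, Pum Lf Op V t n k) ∨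
      ∃ s ∈ Seen, ∃ V₁ V₂ k m, C Lf Op V₁ t s k ∧ D Lf Op V₂ s m ∧ k + m = n ∧ V = V₁ ∪ V₂ := by
  induction h with
  | @leaf t h =>
    intro Seen hS
    right
    have h1 : Fintype.card Y - Seen.card = 0 := by
      by_contra hc
      have : 2 ^ 1 ≤ 2 ^ (Fintype.card Y - Seen.card) :=
        Nat.pow_le_pow_right (by norm_num) (Nat.one_le_iff_ne_zero.2 hc)
      omega
    have h2 : Seen = univ := by
      rw [← card_eq_iff_eq_univ]
      have := card_le_univ Seen
      omega
    exact ⟨t, h2 ▸ mem_univ t, ∅, {t}, 0, 1, C.hole t, D.leaf h, rfl, by simp⟩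
  | @node V₁ V₂ V t₁ t₂ t n₁ n₂ n h h1 h2 hV hn ih1 ih2 =>
    intro Seen hS
    by_cases htS : t ∈ Seen
    · right
      exact ⟨t, htS, ∅, V, 0, n, C.hole t, D.node h h1 h2 hV hn, by omega, by simp⟩
    have hcard : (insert t Seen).card = Seen.card + 1 := card_insert_of_notMem htS
    have hlt : Seen.card < Fintype.card Y := by
      have := card_le_univ (insert t Seen)
      omega
    have hpow : 2 ^ (Fintype.card Y - Seen.card) =
        2 * 2 ^ (Fintype.card Y - (insert t Seen).card) := by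
      rw [hcard, ← pow_succ']
      congr 1
      omega
    have hcases : 2 ^ (Fintype.card Y - (insert t Seen).card) ≤ n₁ ∨
        2 ^ (Fintype.card Y - (insert t Seen).card) ≤ n₂ := by omega
    have hp1 := h1.pos
    have hp2 := h2.pos
    rcases hcases with hc | hc
    · rcases ih1 _ hc with ⟨k, hk⟩ | ⟨s, hs, W₁, W₂, k, m, hcc, hd, hkm, hW⟩
      · exact Or.inl ⟨k, hk.left h h2 hV hn⟩
      · rcases mem_insert.1 hs with hst | hs'
        · left
          subst hst
          refine ⟨k + n₂, W₂, insert s (W₁ ∪ V₂), s, m, ?_, hd.root,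
            C.left h hcc h2 rfl rfl, hd, by omega, by omega⟩
          rw [hV, hW]; ext x; simp only [mem_union, mem_insert]; tauto
        · right
          refine ⟨s, hs', insert t (W₁ ∪ V₂), W₂, k + n₂, m, C.left h hcc h2 rfl rfl, hd,
            by omega, ?_⟩
          rw [hV, hW]; ext x; simp only [mem_union, mem_insert]; tauto
    · rcases ih2 _ hc with ⟨k, hk⟩ | ⟨s, hs, W₁, W₂, k, m, hcc, hd, hkm, hW⟩
      · exact Or.inl ⟨k, Pum.right h h1 hk hV hn⟩
      · rcases mem_insert.1 hs with hst | hs'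
        · left
          subst hst
          refine ⟨n₁ + k, W₂, insert s (V₁ ∪ W₁), s, m, ?_, hd.root,
            C.right h h1 hcc rfl rfl, hd, by omega, by omega⟩
          rw [hV, hW]; ext x; simp only [mem_union, mem_insert]; tauto
        · right
          refine ⟨s, hs', insert t (V₁ ∪ W₁), W₂, n₁ + k, m, C.right h h1 hcc rfl rfl, hd,
            by omega, ?_⟩
          rw [hV, hW]; ext x; simp only [mem_union, mem_insert]; tauto

/-- A tree with at least `F = 2 ^ |Y|` leaves has a pump with at most `2 F` leaves. -/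
lemma D.pump [Fintype Y] {V : Finset Y} {t : Y} {n : ℕ} (h : D Lf Op V t n)
    (hn : 2 ^ Fintype.card Y ≤ n) : ∃ k, k ≤ 2 * 2 ^ Fintype.card Y ∧ Pum Lf Op V t n k := by
  induction h with
  | @leaf t h =>
    exfalso
    have h1 : 0 < Fintype.card Y := Fintype.card_pos_iff.2 ⟨t⟩
    have : 2 ^ 1 ≤ 2 ^ Fintype.card Y := Nat.pow_le_pow_right (by norm_num) h1
    omega
  | @node V₁ V₂ V t₁ t₂ t n₁ n₂ n h h1 h2 hV hn' ih1 ih2 =>
    by_cases hc1 : 2 ^ Fintype.card Y ≤ n₁
    · obtain ⟨k, hk1, hk2⟩ := ih1 hc1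
      exact ⟨k, hk1, hk2.left h h2 hV hn'⟩
    by_cases hc2 : 2 ^ Fintype.card Y ≤ n₂
    · obtain ⟨k, hk1, hk2⟩ := ih2 hc2
      exact ⟨k, hk1, Pum.right h h1 hk2 hV hn'⟩
    have hd : D Lf Op V t n := D.node h h1 h2 hV hn'
    rcases hd.pump_or ∅ (by simpa using hn) with ⟨k, hk⟩ | ⟨s, hs, -⟩
    · refine ⟨k, ?_, hk⟩
      obtain ⟨_, _, _, n', _, _, _, _, hn'', _⟩ := hk
      omega
    · exact absurd hs (notMem_empty s)

/-- `k` is the size of a pump which can be inserted in trees with label set `V`. -/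
def Gd (Lf : Y → Prop) (Op : Y → Y → Y → Prop) (V : Finset Y) (k : ℕ) : Prop :=
  ∃ W s, W ⊆ V ∧ s ∈ V ∧ C Lf Op W s s k

lemma D.add {V : Finset Y} {t : Y} {n k : ℕ} (h : D Lf Op V t n) (hk : Gd Lf Op V k) (j : ℕ) :
    D Lf Op V t (n + k * j) := by
  obtain ⟨W, s, hW, hs, hc⟩ := hk
  induction j with
  | zero => simpa using h
  | succ j ih =>
    have := ih.ins hs hc
    rw [union_eq_left.2 hW] at this
    have e : n + k * (j + 1) = n + k * j + k := by ring
    rw [e]
    exact this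

lemma D.adds {V : Finset Y} {t : Y} {n : ℕ} (h : D Lf Op V t n) (c : ℕ → ℕ) (s : Finset ℕ)
    (hc : ∀ k ∈ s, 0 < c k → Gd Lf Op V k) : D Lf Op V t (n + ∑ k ∈ s, k * c k) := by
  induction s using Finset.induction_on with
  | empty => simpa using h
  | insert a s ha ih =>
    rw [sum_insert ha]
    have h1 := ih fun k hk => hc k (mem_insert_of_mem hk)
    rcases Nat.eq_zero_or_pos (c a) with h0 | h0
    · rw [h0]; simpa using h1
    · have h2 := h1.add (hc a (mem_insert_self _ _) h0) (c a)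
      have e : n + (a * c a + ∑ k ∈ s, k * c k) = n + ∑ k ∈ s, k * c k + a * c a := by ring
      rw [e]
      exact h2

/-- The number of leaves can be increased. -/
lemma D.up [Fintype Y] {V : Finset Y} {t : Y} {n L : ℕ} (h : D Lf Op V t n)
    (hn : 2 ^ Fintype.card Y ≤ n)
    (hL : ∀ k, 1 ≤ k → k ≤ 2 * 2 ^ Fintype.card Y → k ∣ L) : D Lf Op V t (n + L) := by
  obtain ⟨k, hk, V', W, s, n', hV, hs, hc, -, -, hk1⟩ := h.pump hn
  have hg : Gd Lf Op V k := ⟨W, s, hV ▸ subset_union_right, hV ▸ mem_union_left _ hs, hc⟩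
  obtain ⟨j, rfl⟩ := hL k hk1 hk
  exact h.add hg j

lemma sum_update_sub {s : Finset ℕ} {c : ℕ → ℕ} {k j : ℕ} (hk : k ∈ s) (hj : j ≤ c k) :
    ∑ i ∈ s, i * (Function.update c k (c k - j)) i + k * j = ∑ i ∈ s, i * c i := by
  rw [← add_sum_erase s _ hk, ← add_sum_erase s _ hk, Function.update_self]
  have h1 : ∑ x ∈ s.erase k, x * Function.update c k (c k - j) x =
      ∑ x ∈ s.erase k, x * c x := by
    refine sum_congr rfl fun x hx => ?_
    rw [Function.update_of_ne (ne_of_mem_erase hx)]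
  rw [h1]
  have h2 : k * (c k - j) + k * j = k * c k := by
    rw [← mul_add]
    congr 1
    omega
  omega

lemma sum_update_add {s : Finset ℕ} {c : ℕ → ℕ} {k : ℕ} (hk : k ∈ s) :
    (∑ i ∈ s, i * (Function.update c k (c k + 1)) i = ∑ i ∈ s, i * c i + k) ∧
    (∑ i ∈ s, (Function.update c k (c k + 1)) i = ∑ i ∈ s, c i + 1) := by
  rw [← add_sum_erase s _ hk, ← add_sum_erase s _ hk, ← add_sum_erase s _ hk,
    ← add_sum_erase s _ hk, Function.update_self]
  have h1 : ∑ x ∈ s.erase k, x * Function.update c k (c k + 1) x =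
      ∑ x ∈ s.erase k, x * c x := by
    refine sum_congr rfl fun x hx => ?_
    rw [Function.update_of_ne (ne_of_mem_erase hx)]
  have h2 : ∑ x ∈ s.erase k, Function.update c k (c k + 1) x =
      ∑ x ∈ s.erase k, c x := by
    refine sum_congr rfl fun x hx => ?_
    rw [Function.update_of_ne (ne_of_mem_erase hx)]
  rw [h1, h2]
  constructor
  · ring
  · ring

/-- The number of leaves can be decreased. -/
theorem D.down [Fintype Y] (L : ℕ) (hL0 : 1 ≤ L)
    (hL : ∀ k, 1 ≤ k → k ≤ 2 * 2 ^ Fintype.card Y → k ∣ L) :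
    ∀ (v : ℕ) (V : Finset Y), V.card ≤ v → ∀ (t : Y) (n : ℕ),
      2 ^ Fintype.card Y + L + v * ((2 * 2 ^ Fintype.card Y) * (2 * 2 ^ Fintype.card Y * L)) ≤ n →
      D Lf Op V t n → ∃ n', D Lf Op V t n' ∧ n' + L = n := by
  set F := 2 ^ Fintype.card Y with hF
  set K := 2 * F with hK
  have hF1 : 1 ≤ F := Nat.one_le_two_pow
  intro v
  induction v with
  | zero =>
    intro V hV t n _ hd
    have h1 := hd.root
    rw [card_eq_zero.1 (Nat.le_zero.1 hV)] at h1
    exact absurd h1 (notMem_empty t)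
  | succ v ihv =>
    intro V hV t n hn hd
    have aux : ∀ (i : ℕ) (c : ℕ → ℕ) (n' : ℕ), ∑ k ∈ Icc 1 K, c k + i = K * L →
        D Lf Op V t n' → n' + ∑ k ∈ Icc 1 K, k * c k = n →
        (∀ k ∈ Icc 1 K, 0 < c k → Gd Lf Op V k) → ∃ n', D Lf Op V t n' ∧ n' + L = n := by
      intro i
      induction i with
      | zero =>
        intro c n' hs hd' hn' hg
        obtain ⟨k, hk, hLk⟩ : ∃ k ∈ Icc 1 K, L ≤ c k := by
          by_contra hcon
          push Not at hcon
          have h1 : ∑ k ∈ Icc 1 K, c k ≤ ∑ k ∈ Icc 1 K, (L - 1) :=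
            sum_le_sum fun k hk => by have := hcon k hk; omega
          rw [sum_const, Nat.card_Icc, smul_eq_mul, Nat.add_sub_cancel] at h1
          have h2 : K * (L - 1) < K * L := by
            apply Nat.mul_lt_mul_of_pos_left
            · omega
            · omega
          omega
        rw [mem_Icc] at hk
        obtain ⟨j, hj⟩ := hL k hk.1 hk.2
        have hjL : j ≤ c k := by
          have : j ≤ k * j := Nat.le_mul_of_pos_left _ hk.1
          omega
        have h1 := sum_update_sub (mem_Icc.2 hk) hjL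
        refine ⟨_, hd'.adds (Function.update c k (c k - j)) (Icc 1 K) ?_, ?_⟩
        · intro k' hk' hpos
          refine hg k' hk' ?_
          by_cases hkk : k' = k
          · subst hkk
            rw [Function.update_self] at hpos
            omega
          · rwa [Function.update_of_ne hkk] at hpos
        · omega
      | succ i ih =>
        intro c n' hs hd' hn' hg
        have hsum : ∑ k ∈ Icc 1 K, k * c k ≤ K * ∑ k ∈ Icc 1 K, c k := by
          rw [mul_sum]
          exact sum_le_sum fun k hk => Nat.mul_le_mul_right _ (mem_Icc.1 hk).2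
        have hle : K * ∑ k ∈ Icc 1 K, c k + K ≤ K * (K * L) := by
          rw [← Nat.mul_succ]
          exact Nat.mul_le_mul_left _ (by omega)
        have hexp : (v + 1) * (K * (K * L)) = v * (K * (K * L)) + K * (K * L) := by ring
        have hFn : F ≤ n' := by omega
        obtain ⟨k, hk, V', W, s, n'', hVV, hsV, hc, hd'', hnk, hk1⟩ := hd'.pump hFn
        have hkI : k ∈ Icc 1 K := mem_Icc.2 ⟨hk1, hk⟩
        by_cases hVeq : V' = V
        · rw [hVeq] at hd'' hsV hVV
          have hgk : Gd Lf Op V k := ⟨W, s, by rw [hVV]; exact subset_union_right, hsV, hc⟩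
          obtain ⟨e1, e2⟩ := sum_update_add (c := c) hkI
          refine ih (Function.update c k (c k + 1)) n'' (by omega) hd'' (by omega) ?_
          intro k' hk' hpos
          by_cases hkk : k' = k
          · rw [hkk]; exact hgk
          · rw [Function.update_of_ne hkk] at hpos
            exact hg k' hk' hpos
        · have hlt : V'.card < V.card := by
            apply card_lt_card
            refine ⟨by rw [hVV]; exact subset_union_left, fun hcon => hVeq ?_⟩
            exact subset_antisymm (by rw [hVV]; exact subset_union_left) hcon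
          obtain ⟨n3, hd3, hn3⟩ := ihv V' (by omega) t n'' (by omega) hd''
          have hd4 := hd3.ins hsV hc
          rw [← hVV] at hd4
          exact ⟨_, hd4.adds c (Icc 1 K) hg, by omega⟩
    exact aux (K * L) (fun _ => 0) n (by simp) hd (by simp) (fun k _ h0 => absurd h0 (by simp))

end Pool.Agent.Helper72.WT
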