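import Mathlib
import Pool.Agent.Helper31.Spectra
import Pool.Agent.Helper32.PumpLang
import Pool.Agent.Helper72.WT.Defs
import Pool.Agent.Helper72.WT.Tree
import Pool.Agent.Helper72.WT.Num
import Pool.Agent.Helper72.WT.Arith
import Pool.Agent.Helper72.WT.Join

set_option autoImplicit false

/-! Spectra of sentences with models of slowly growing width. -/

namespace Pool.Agent.Helper72.WT

open FirstOrder FirstOrder.Language
open Pool.Agent.Helper32.Pump Pool.Agent.Helper31.Spectra

variable {V : Voc}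

/-- types of one-element pieces -/
def LfT (V : Voc) (r q : ℕ) (t : T (Unit × Fin r) V q 0) : Prop :=
  ∃ P : Col (Unit × Fin r) V, Finite P.carrier ∧ Nat.card P.carrier = 1 ∧ tpS P q = t

/-- joins of types -/
def OpT (V : Voc) (r q : ℕ) (t₁ t₂ t : T (Unit × Fin r) V q 0) : Prop :=
  ∃ (δ : Jn r V) (P₁ P₂ : Col (Unit × Fin r) V), tpS P₁ q = t₁ ∧ tpS P₂ q = t₂ ∧
    tpS (join δ P₁ P₂) q = t

open Classical in
/-- a derivation gives a structure -/
lemma exists_piece {r q n : ℕ} {W : Finset (T (Unit × Fin r) V q 0)} {t : T (Unit × Fin r) V q 0}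
    (h : D (LfT V r q) (OpT V r q) W t n) :
    ∃ P : Col (Unit × Fin r) V, Finite P.carrier ∧ Nat.card P.carrier = n ∧ tpS P q = t := by
  induction h with
  | leaf h => exact h
  | node h h1 h2 hV hn ih1 ih2 =>
    obtain ⟨P₁, f1, c1, e1⟩ := ih1
    obtain ⟨P₂, f2, c2, e2⟩ := ih2
    obtain ⟨δ, Q₁, Q₂, g1, g2, g3⟩ := h
    refine ⟨join δ P₁ P₂, finite_join δ P₁ P₂, by rw [card_join, c1, c2, hn], ?_⟩
    rw [tpS_join δ (e1.trans g1.symm) (e2.trans g2.symm)]
    exact g3

variable {L : FirstOrder.Language.{0, 0}}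

lemma cutLE_of {M : Type} [L.Structure M] {r : ℕ} {U : Set M} (h : CutIndexLE L M r U) :
    CutLE (toCol L M) r U := by
  obtain ⟨c, hc⟩ := h
  refine ⟨c, fun u hu u' hu' h z x i j hij hj y y' h1 h2 h3 h4 => ?_⟩
  obtain ⟨n, R⟩ := z
  change Fin n → M at x y y'
  change Fin n at i j
  have h5 := hc u hu u' hu' h n R x i j hij hj
  have e1 : y = Function.update x i u := by
    funext k
    by_cases hk : k = i
    · subst hk; rw [Function.update_self, h3]
    · rw [Function.update_of_ne hk, h1 k hk]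
  have e2 : y' = Function.update x i u' := by
    funext k
    by_cases hk : k = i
    · subst hk; rw [Function.update_self, h4]
    · rw [Function.update_of_ne hk, h2 k hk]
  show Structure.RelMap R y ↔ Structure.RelMap R y'
  rw [e1, e2]
  exact h5

lemma CutIndexLE.mono {M : Type} [L.Structure M] {r r' : ℕ} (hr : r ≤ r') {U : Set M}
    (h : CutIndexLE L M r U) : CutIndexLE L M r' U := by
  obtain ⟨c, hc⟩ := h
  refine ⟨fun x => Fin.castLE hr (c x), fun u hu u' hu' h => hc u hu u' hu' ?_⟩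
  exact Fin.castLE_injective hr h

lemma Built.mono {M : Type} [L.Structure M] {r r' : ℕ} (hr : r ≤ r') {U : Set M}
    (h : Built L M r U) : Built L M r' U := by
  induction h with
  | point a => exact Built.point a
  | union U W hU hW hd hc ih1 ih2 => exact Built.union U W ih1 ih2 hd (CutIndexLE.mono hr hc)

lemma Built.cut {M : Type} [L.Structure M] {r : ℕ} (hr : 1 ≤ r) {U : Set M}
    (h : Built L M r U) : CutIndexLE L M r U := by
  cases h with
  | point a =>
    refine ⟨fun _ => ⟨0, hr⟩, fun u hu u' hu' _ n R x i j _ _ => ?_⟩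
    rw [Set.mem_singleton_iff] at hu hu'
    rw [hu, hu']
  | union U W hU hW hd hc => exact hc

lemma Built.exists_can {M : Type} [L.Structure M] {r : ℕ} (hr : 1 ≤ r) {U : Set M}
    (h : Built L M r U) : ∃ c : M → Fin r, Can (toCol L M) U c :=
  canonical (cutLE_of (h.cut hr))

open Classical in
/-- a built set gives a derivation -/
lemma Built.tree [hV : (vocOf L).Fin] {M : Type} [L.Structure M] [Finite M] {r : ℕ} (hr : 1 ≤ r)
    (q : ℕ) {U : Set M} (h : Built L M r U) : ∀ c : M → Fin r, Can (toCol L M) U c →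
    ∃ W, D (LfT (vocOf L) r q) (OpT (vocOf L) r q) W (tpS (piece (toCol L M) U c) q)
      (Nat.card U) := by
  induction h with
  | point a =>
    intro c hc
    refine ⟨{tpS (piece (toCol L M) {a} c) q}, ?_⟩
    have e : Nat.card ({a} : Set M) = 1 := by simp
    rw [e]
    refine D.leaf ⟨piece (toCol L M) {a} c, ?_, ?_, rfl⟩
    · show Finite ({a} : Set M)
      infer_instance
    · show Nat.card ({a} : Set M) = 1
      simp
  | union U W hU hW hd hc ih1 ih2 =>
    intro c hcan
    obtain ⟨cU, hcU⟩ := hU.exists_can hr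
    obtain ⟨cW, hcW⟩ := hW.exists_can hr
    obtain ⟨W₁, h1⟩ := ih1 cU hcU
    obtain ⟨W₂, h2⟩ := ih2 cW hcW
    obtain ⟨δ, hδ⟩ := piece_union hcU hcW hcan hd q
    refine ⟨_, D.node ⟨δ, _, _, rfl, rfl, hδ.symm⟩ h1 h2 rfl ?_⟩
    rw [Nat.card_congr (Equiv.Set.union hd), Nat.card_sum]

/-- number of types -/
noncomputable def NN (V : Voc) (q r : ℕ) : ℕ := Nat.card (T (Unit × Fin r) V q 0)

lemma card_T_mono (V : Voc) [hV : V.Fin] (q : ℕ) :
    ∀ n : ℕ, Monotone fun r => Nat.card (T (Unit × Fin r) V q n) := by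
  have h1 := hV.fin
  have h2 := hV.far
  have h0 : ∀ n : ℕ, Monotone fun r => Nat.card (T0 (Unit × Fin r) V n) := by
    intro n r r' hr
    have e : ∀ r : ℕ, Nat.card (T0 (Unit × Fin r) V n) = r ^ n *
        Nat.card ((∀ R : V.ι, (V.ar R → Fin n) → Prop) × (Fin n → Fin n → Prop)) := by
      intro r
      show Nat.card ((Fin n → Unit × Fin r) ×
        ((∀ R : V.ι, (V.ar R → Fin n) → Prop) × (Fin n → Fin n → Prop))) = _
      rw [Nat.card_prod, Nat.card_fun, Nat.card_prod]
      simp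
    show Nat.card (T0 (Unit × Fin r) V n) ≤ Nat.card (T0 (Unit × Fin r') V n)
    rw [e, e]
    exact Nat.mul_le_mul_right _ (Nat.pow_le_pow_left hr n)
  induction q with
  | zero => exact h0
  | succ q ih =>
    intro n r r' hr
    have e : ∀ r : ℕ, Nat.card (T (Unit × Fin r) V (q + 1) n) =
        Nat.card (T0 (Unit × Fin r) V n) * 2 ^ Nat.card (T (Unit × Fin r) V q (n + 1)) := by
      intro r
      show Nat.card (T0 (Unit × Fin r) V n × Set (T (Unit × Fin r) V q (n + 1))) = _
      rw [Nat.card_prod]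
      congr 1
      show Nat.card (T (Unit × Fin r) V q (n + 1) → Prop) = _
      rw [Nat.card_fun]
      simp
    show Nat.card (T (Unit × Fin r) V (q + 1) n) ≤ Nat.card (T (Unit × Fin r') V (q + 1) n)
    rw [e, e]
    exact Nat.mul_le_mul (h0 n hr) (Nat.pow_le_pow_right (by norm_num) (ih (n + 1) hr))

/-- the period for width `r` -/
def LL (N : ℕ) : ℕ := (2 * 2 ^ N).factorial

/-- the threshold for width `r` -/
def MM (N : ℕ) : ℕ := 2 ^ N + LL N + N * ((2 * 2 ^ N) * (2 * 2 ^ N * LL N))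

lemma LL_mono : Monotone LL := fun a b h =>
  Nat.factorial_le (Nat.mul_le_mul_left 2 (Nat.pow_le_pow_right (by norm_num) h))

lemma MM_mono : Monotone MM := fun a b h => by
  have h1 := LL_mono h
  have h2 : 2 ^ a ≤ 2 ^ b := Nat.pow_le_pow_right (by norm_num) h
  have h3 : 2 * 2 ^ a ≤ 2 * 2 ^ b := Nat.mul_le_mul_left 2 h2
  exact Nat.add_le_add (Nat.add_le_add h2 h1)
    (Nat.mul_le_mul h (Nat.mul_le_mul h3 (Nat.mul_le_mul h3 h1)))

lemma le_MM (N : ℕ) : N ≤ MM N := by
  have h1 : N < 2 ^ N := Nat.lt_two_pow_self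
  unfold MM
  omega

lemma EB_LL {f : ℕ → ℕ} (hf : EB f) : EB fun r => LL (f r) :=
  ((EB.const 2).mul hf.two_pow).factorial

lemma EB_MM {f : ℕ → ℕ} (hf : EB f) : EB fun r => MM (f r) :=
  (hf.two_pow.add (EB_LL hf)).add
    (hf.mul (((EB.const 2).mul hf.two_pow).mul (((EB.const 2).mul hf.two_pow).mul (EB_LL hf))))

/-- **Slowly growing width.** -/
theorem width_main (hL : ∀ n, IsEmpty (L.Functions n)) (hfin : Finite (Σ n, L.Relations n))
    (φ : L.Sentence) : ∃ h : ℕ, ∀ n₀ : ℕ,
      (∀ n ∈ Spec L φ, n₀ ≤ n → ∃ (M : Type) (_ : L.Structure M),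
        Nat.card M = n ∧ φ.Realize M ∧ WidthLE L M ((Nat.log 2)^[h] n)) →
      ∃ B p : ℕ, 0 < p ∧ ∀ n ∈ Spec L φ, B < n → n + p ∈ Spec L φ := by
  classical
  have hV : (vocOf L).Fin := ⟨hfin, fun z => by
    show Finite (Fin z.1)
    infer_instance⟩
  obtain ⟨q, hq⟩ := realize_tp hL φ
  have hEB : EB fun r => NN (vocOf L) q r := EB.card_T (vocOf L) q 0
  obtain ⟨h, r₀, hr₀, hlog⟩ :=
    (((EB_MM hEB).add EB.ident).add ((EB.const 2).mul (EB_LL hEB))).log_lt
  refine ⟨h, fun n₀ hyp => ?_⟩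
  -- the sets
  let A : ℕ → Set ℕ := fun r => {n | ∃ W t,
    D (LfT (vocOf L) r q) (OpT (vocOf L) r q) W t n ∧
    ∀ P : Col (Unit × Fin r) (vocOf L), tpS P q = t →
      @BoundedFormula.Realize L P.carrier (ofCol hL (forget P)) _ _ φ default Fin.elim0}
  have hTmono : Monotone fun r => NN (vocOf L) q r := card_T_mono (vocOf L) q 0
  have hres := arith (Spec L φ) A ?_ n₀ (max r₀ n₀) (fun r => MM (NN (vocOf L) q r) + r)
    (fun r => LL (NN (vocOf L) q r)) (fun n => (Nat.log 2)^[h] n) (hr₀.trans (le_max_left _ _))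
    ?_ ?_ ?_ ?_ ?_ ?_ ((MM_mono.comp hTmono).add monotone_id) (LL_mono.comp hTmono)
  · exact ⟨MM (NN (vocOf L) q (max r₀ n₀)) + max r₀ n₀, LL (NN (vocOf L) q (max r₀ n₀)),
      Nat.factorial_pos _, fun n hn hB => hres n hn hB.le⟩
  · -- `A r ⊆ Spec`
    rintro r n ⟨W, t, hD, hP⟩
    obtain ⟨P, f, c, e⟩ := exists_piece hD
    refine ⟨hD.pos, P.carrier, ofCol hL (forget P), c, ?_⟩
    have h1 := hP P e
    have h4 : (Fin.elim0 : Fin 0 → P.carrier) = default := Subsingleton.elim _ _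
    rw [h4] at h1
    exact h1
  · intro n hn hn₀ r hr hw
    obtain ⟨M, sM, hcard, hφ, hwidth⟩ := hyp n hn hn₀
    have hfinM : Finite M := Nat.finite_of_card_ne_zero (by have := hn.1; omega)
    have hb : Built L M r Set.univ := Built.mono hw hwidth
    obtain ⟨c, hc⟩ := hb.exists_can hr
    obtain ⟨W, hD⟩ := hb.tree hr q c hc
    have e1 : Nat.card (Set.univ : Set M) = n := by
      rw [Nat.card_congr (Equiv.Set.univ M), hcard]
    rw [e1] at hD
    refine ⟨W, _, hD, fun P hP => ?_⟩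
    have h1 := tpS_forget hP
    have h2 : tpS (forget (piece (toCol L M) Set.univ c)) q = tpS (toCol L M) q :=
      (tpS_univ (toCol L M) q).symm
    have h3 := hq q le_rfl (forget P) (toCol L M) Fin.elim0 Fin.elim0 (h1.trans h2)
    have e3 := ofCol_toCol hL M
    have e4 : @BoundedFormula.Realize L M sM _ _ φ default (Fin.elim0 : Fin 0 → M) := by
      have : (Fin.elim0 : Fin 0 → M) = default := Subsingleton.elim _ _
      rw [this]
      exact hφ
    have e5 : @BoundedFormula.Realize L M (ofCol hL (toCol L M)) _ _ φ default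
        (Fin.elim0 : Fin 0 → M) := by
      rw [e3]; exact e4
    exact h3.2 e5
  · rintro r n ⟨W, t, hD, hP⟩ hn
    have := Fintype.ofFinite (T (Unit × Fin r) (vocOf L) q 0)
    have eN : NN (vocOf L) q r = Fintype.card (T (Unit × Fin r) (vocOf L) q 0) :=
      Nat.card_eq_fintype_card
    have hn' : MM (NN (vocOf L) q r) + r ≤ n := hn
    refine ⟨W, t, ?_, hP⟩
    show D _ _ W t (n + LL (NN (vocOf L) q r))
    rw [eN] at hn' ⊢
    refine hD.up ?_ fun k hk1 hk2 => Nat.dvd_factorial hk1 hk2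
    unfold MM at hn'
    omega
  · rintro r n ⟨W, t, hD, hP⟩ hn
    have := Fintype.ofFinite (T (Unit × Fin r) (vocOf L) q 0)
    have eN : NN (vocOf L) q r = Fintype.card (T (Unit × Fin r) (vocOf L) q 0) :=
      Nat.card_eq_fintype_card
    have hn' : MM (NN (vocOf L) q r) + r + LL (NN (vocOf L) q r) ≤ n := hn
    rw [eN] at hn'
    obtain ⟨n', h1, h2⟩ := D.down (LL (Fintype.card (T (Unit × Fin r) (vocOf L) q 0)))
      (Nat.factorial_pos _) (fun k hk1 hk2 => Nat.dvd_factorial hk1 hk2) _ W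
      (Finset.card_le_univ W) t n (by unfold MM at hn'; omega) hD
    refine ⟨n', ⟨W, t, h1, hP⟩, ?_⟩
    show n' + LL (NN (vocOf L) q r) = n
    rw [eN]
    exact h2
  · intro r
    exact Nat.factorial_pos _
  · intro r hr n hn
    exact hlog r ((le_max_left _ _).trans hr) n hn
  · intro r hr
    exact ((le_max_right _ _).trans hr).trans (Nat.le_add_left r _)

end Pool.Agent.Helper72.WT
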