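import Mathlib
import Pool.Agent.Helper72.WT.UDefs

set_option autoImplicit false

/-!
# WT-9: numbers

* `KM_exists`: `k` = the least number with `m ≤ tw (H + 1) k` (`le_tw`).
* `KM_mono`: if `k' < k` then `m' ≤ tw (H + 1) k' ≤ tw (H + 1) (k - 1) < m`.
* `FF_lt`: all terms are monotone in `k` and `m`, and the term for `s.o` (`s.ar s.o = 1`, `m ^ 1`) is strictly monotone.
* `FF_le`: `k ≤ m` and `tw (H - d) k ≤ m`: `k ≤ 2 ^ (k - 1)`, so `tw H k ≤ tw H (2 ^ (k - 1)) = tw (H + 1) (k - 1) < m`; so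
  `lev d ≤ lev 0 * m ^ d`, `m ≥ 2`; a sum of finitely many (number independent of `m`) powers of `m ≥ 2` with constant
  exponents and constant coefficients is at most `m ^ (r + 1)` for suitable `r` (`c ≤ 2 ^ c ≤ m ^ c`).
* `pow_le_log`: `log^[h] n ≥ log^[h] (tw (h + 2) k) = tw 2 k = 2 ^ 2 ^ k ≥ 2 ^ (k + 1)` (`logi_mono`, `log_tw`, `tw_add`).
-/

namespace Pool.Agent.Helper72.WT

private lemma tw_strict (j : ℕ) {x y : ℕ} (h : x < y) : tw j x < tw j y := by
  induction j with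
  | zero => exact h
  | succ j ih => exact Nat.pow_lt_pow_right (by norm_num) ih

theorem KM_exists {H m : ℕ} (hm : tw (H + 1) 0 < m) : ∃ k, KM H k m := by
  classical
  have hex : ∃ k, m ≤ tw (H + 1) k := ⟨m, le_tw _ _⟩
  have h1 := Nat.find_spec hex
  have h0 : Nat.find hex ≠ 0 := by
    intro h
    rw [h] at h1
    omega
  refine ⟨Nat.find hex, Nat.one_le_iff_ne_zero.2 h0, ?_, h1⟩
  have h2 := Nat.find_min hex (m := Nat.find hex - 1) (by omega)
  omega

theorem KM_lt {H k m : ℕ} (h : KM H k m) : tw (H + 1) 0 < m :=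
  lt_of_le_of_lt (tw_mono _ (Nat.zero_le _)) h.2.1

theorem KM_mono {H k k' m m' : ℕ} (h : KM H k m) (h' : KM H k' m') (hm : m ≤ m') : k ≤ k' := by
  by_contra hk
  have h1 : tw (H + 1) k' ≤ tw (H + 1) (k - 1) := tw_mono _ (by omega)
  have h2 := h.2.1
  have h3 := h'.2.2
  omega

private lemma lev_mono (s : Sg) (H : ℕ) {k k' m m' : ℕ} (hk : k ≤ k') (hm : m ≤ m') (d : ℕ) :
    lev s H k m d ≤ lev s H k' m' d := by
  induction d with
  | zero =>
    exact Finset.sum_le_sum fun κ _ => Nat.mul_le_mul_left _ (Nat.pow_le_pow_left hm _)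
  | succ d ih => exact Nat.mul_le_mul ih (tw_mono _ hk)

theorem FF_lt (s : Sg) {H k k' m m' : ℕ} (h : KM H k m) (h' : KM H k' m') (hm : m < m') :
    FF s H k m < FF s H k' m' := by
  have hk := KM_mono h h' hm.le
  have h1 : ∑ κ : s.ι, m ^ s.ar κ < ∑ κ : s.ι, m' ^ s.ar κ := by
    refine Finset.sum_lt_sum (fun κ _ => Nat.pow_le_pow_left hm.le _) ⟨s.o, Finset.mem_univ _, ?_⟩
    rw [s.ho, pow_one, pow_one]
    exact hm
  have h2 : ∑ d ∈ Finset.range (H + 1), lev s H k m d ≤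
      ∑ d ∈ Finset.range (H + 1), lev s H k' m' d :=
    Finset.sum_le_sum fun d _ => lev_mono s H hk hm.le d
  unfold FF
  omega

private lemma KM_two {H k m : ℕ} (h : KM H k m) : 2 ≤ m := by
  have h1 := KM_lt h
  have h2 : 1 ≤ tw (H + 1) 0 := Nat.one_le_two_pow
  omega

private lemma KM_tw {H k m : ℕ} (h : KM H k m) (d : ℕ) : tw (H - d) k ≤ m := by
  have h1 : tw (H - d) k ≤ tw H k := tw_le (Nat.sub_le _ _) le_rfl
  have h2 : k ≤ 2 ^ (k - 1) := by
    have := @Nat.lt_two_pow_self (k - 1)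
    have := h.1
    omega
  have h3 : tw H k ≤ tw H (tw 1 (k - 1)) := tw_mono H h2
  rw [tw_add] at h3
  have := h.2.1
  omega

/-- bounded by a power of `m` -/
private def PB (H : ℕ) (f : ℕ → ℕ → ℕ) : Prop := ∃ r, ∀ k m, KM H k m → f k m ≤ m ^ r

private lemma PB.const (H c : ℕ) : PB H fun _ _ => c :=
  ⟨c, fun _ _ h => Nat.lt_two_pow_self.le.trans (Nat.pow_le_pow_left (KM_two h) _)⟩

private lemma PB.self (H : ℕ) : PB H fun _ m => m := ⟨1, fun _ m _ => by rw [pow_one]⟩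

private lemma PB.of_le {H : ℕ} {f g : ℕ → ℕ → ℕ} (hg : PB H g)
    (h : ∀ k m, KM H k m → f k m ≤ g k m) : PB H f := by
  obtain ⟨r, hr⟩ := hg
  exact ⟨r, fun k m hk => (h k m hk).trans (hr k m hk)⟩

private lemma PB.add {H : ℕ} {f g : ℕ → ℕ → ℕ} (hf : PB H f) (hg : PB H g) :
    PB H fun k m => f k m + g k m := by
  obtain ⟨r, hr⟩ := hf
  obtain ⟨r', hr'⟩ := hg
  refine ⟨max r r' + 1, fun k m h => ?_⟩
  have h2 := KM_two h
  have h3 : m ^ r ≤ m ^ max r r' := Nat.pow_le_pow_right (by omega) (le_max_left _ _)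
  have h4 : m ^ r' ≤ m ^ max r r' := Nat.pow_le_pow_right (by omega) (le_max_right _ _)
  have h5 := hr k m h
  have h6 := hr' k m h
  calc f k m + g k m ≤ m ^ max r r' * 2 := by omega
    _ ≤ m ^ max r r' * m := Nat.mul_le_mul_left _ h2
    _ = m ^ (max r r' + 1) := (pow_succ _ _).symm

private lemma PB.mul {H : ℕ} {f g : ℕ → ℕ → ℕ} (hf : PB H f) (hg : PB H g) :
    PB H fun k m => f k m * g k m := by
  obtain ⟨r, hr⟩ := hf
  obtain ⟨r', hr'⟩ := hg
  refine ⟨r + r', fun k m h => ?_⟩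
  rw [pow_add]
  exact Nat.mul_le_mul (hr k m h) (hr' k m h)

private lemma PB.pow {H : ℕ} {f : ℕ → ℕ → ℕ} (hf : PB H f) (a : ℕ) :
    PB H fun k m => f k m ^ a := by
  obtain ⟨r, hr⟩ := hf
  refine ⟨r * a, fun k m h => ?_⟩
  rw [pow_mul]
  exact Nat.pow_le_pow_left (hr k m h) _

private lemma PB.sum {H : ℕ} {ι : Type} (t : Finset ι) (f : ι → ℕ → ℕ → ℕ)
    (hf : ∀ i, PB H (f i)) : PB H fun k m => ∑ i ∈ t, f i k m := by
  classical
  induction t using Finset.induction_on with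
  | empty => exact (PB.const H 0).of_le fun k m _ => by simp
  | insert a t ha ih =>
    refine ((hf a).add ih).of_le fun k m _ => ?_
    rw [Finset.sum_insert ha]

private lemma PB.lev (s : Sg) (H d : ℕ) : PB H fun k m => lev s H k m d := by
  induction d with
  | zero => exact PB.sum _ _ fun κ => (PB.const H _).mul ((PB.self H).pow _)
  | succ d ih => exact (ih.mul (PB.self H)).of_le fun k m h => Nat.mul_le_mul_left _ (KM_tw h d)

theorem FF_le (s : Sg) (H : ℕ) : ∃ r, ∀ k m, KM H k m → FF s H k m ≤ m ^ (r + 1) := by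
  have hk : PB H fun k _ => k := (PB.self H).of_le fun k m h => (le_tw _ _).trans (KM_tw h 0)
  have h1 : PB H fun k m => FF s H k m :=
    (hk.add (PB.sum _ _ fun κ => (PB.self H).pow _)).add (PB.sum _ _ fun d => PB.lev s H d)
  obtain ⟨r, hr⟩ := h1
  refine ⟨r, fun k m h => (hr k m h).trans (Nat.pow_le_pow_right ?_ (Nat.le_succ r))⟩
  have := KM_two h
  omega

theorem pow_le_log {h k n : ℕ} (hn : tw (h + 2) k ≤ n) :
    2 ^ (k + 1) ≤ (Nat.log 2)^[h] n := by
  have h1 := logi_mono h hn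
  rw [← tw_add, log_tw] at h1
  refine le_trans ?_ h1
  show 2 ^ (k + 1) ≤ 2 ^ (2 ^ k)
  exact Nat.pow_le_pow_right (by norm_num) Nat.lt_two_pow_self

end Pool.Agent.Helper72.WT
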