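import Mathlib
import Pool.Agent.Helper72.WT.UDefs

set_option autoImplicit false

/-! Comparison of the width and the tree-depth with iterated logarithms. -/

namespace Pool.Agent.Helper72.WT

lemma add_le_tw (j k : ℕ) : k + j ≤ tw j k := by
  induction j with
  | zero => exact le_rfl
  | succ j ih =>
    show k + (j + 1) ≤ 2 ^ tw j k
    have h1 : tw j k < 2 ^ tw j k := Nat.lt_two_pow_self
    omega

theorem bounds_log {h k n : ℕ} (hn : tw (2 * h + 4) k ≤ n) :
    2 ^ (k + 1) ≤ (Nat.log 2)^[h] n ∧ k + (2 * h + 4 + 2) ≤ (Nat.log 2)^[h] n := by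
  have h1 : tw (h + 4) k ≤ (Nat.log 2)^[h] n := by
    have h2 := logi_mono h hn
    have e : tw (2 * h + 4) k = tw h (tw (h + 4) k) := by
      rw [tw_add]
      congr 1
      omega
    rw [e, log_tw] at h2
    exact h2
  constructor
  · refine le_trans ?_ h1
    refine le_trans ?_ (tw_le (j := 2) (by omega) le_rfl)
    show 2 ^ (k + 1) ≤ 2 ^ 2 ^ k
    exact Nat.pow_le_pow_right (by norm_num) Nat.lt_two_pow_self
  · refine le_trans ?_ h1
    have h3 := add_le_tw (h + 3) k
    have h4 := two_mul_le_two_pow (tw (h + 3) k)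
    have h5 : tw (h + 4) k = 2 ^ tw (h + 3) k := rfl
    omega

end Pool.Agent.Helper72.WT
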