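import Mathlib
import Pool.Agent.Helper72.WT.UDefs

set_option autoImplicit false

/-!
# WT-5: the number of values of the levels

`A.Q j` = the values of level `j` (classes of `ev j`), `k` = number of base points.
* `ev j` is an equivalence relation (for `j = 0` equality, otherwise clear from the definition); `mem j` respects `ev j` in the
  first argument (transitivity) and `ev (j + 1)` in the second one (for nodes `w` of level `j`, by definition);
  `av j` respects `ev j`.
* `j + 1 ≤ H`: `Q (j + 1) → Set (Q j)`, `x ↦ {y | mem j y x}` is injective (definition of `ev (j + 1)`) and surjective: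
  the range contains `∅` (`full0`) and is closed under toggling one element (`full1`), `Q j` is finite. So
  `|Q (j + 1)| = 2 ^ |Q j|`, hence `|Q j| = tw j k` for `j ≤ H`, and `|Q (H + 1)| ≤ tw (H + 1) k` (injectivity).
* Let `Q' j` be the set of the `x` in `Q j` with `av j x`. `|Q' 0| = k - 1` (`hz`), and `Q' (j + 1)` corresponds to the
  subsets of `Q' j` for `j ≤ H` (for `j + 1 ≤ H` by the previous point, for `j = H` by `top0`, `top1`: the range contains
  `∅` and is closed under toggling elements of `Q' H` as long as the sets are subsets of `Q' H`). So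
  `|Q' (H + 1)| = tw (H + 1) (k - 1)`, and `Q (H + 1)` has another element (`top2`).
-/

namespace Pool.Agent.Helper72.WT

variable {s : Sg} {H : ℕ} {U : Type}

/-- The values of level `j`. -/
def Rw.Q (A : Rw s H U) (j : ℕ) : Type :=
  Quot fun x y : {x : U // A.Lv j x} => A.ev j x.1 y.1

theorem Rw.ev_equiv (A : Rw s H U) (j : ℕ) : Equivalence (A.ev j) := by
  cases j with
  | zero => exact ⟨fun _ => rfl, fun h => Eq.symm h, fun h h' => Eq.trans h h'⟩
  | succ j =>
    exact ⟨fun _ _ _ => Iff.rfl, fun h w hw => (h w hw).symm,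
      fun h h' w hw => (h w hw).trans (h' w hw)⟩

private lemma cq_mem_ev (A : Rw s H U) (j : ℕ) {y y' x : U} (h : A.ev j y y') :
    A.mem j y x ↔ A.mem j y' x := by
  cases j with
  | zero =>
    have h' : y = y' := h
    rw [h']
  | succ j =>
    have E := A.ev_equiv (j + 1)
    constructor
    · rintro ⟨w, h1, h2, h3⟩
      exact ⟨w, h1, h2, E.trans (E.symm h) h3⟩
    · rintro ⟨w, h1, h2, h3⟩
      exact ⟨w, h1, h2, E.trans h h3⟩

private lemma cq_av_ev (A : Rw s H U) (j : ℕ) {y y' : U} (h : A.ev j y y') :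
    A.av j y ↔ A.av j y' := by
  cases j with
  | zero =>
    have h' : y = y' := h
    rw [h']
  | succ j =>
    constructor
    · intro h1 w hw hm
      exact h1 w hw ((h w hw).2 hm)
    · intro h1 w hw hm
      exact h1 w hw ((h w hw).1 hm)

private def cqMk (A : Rw s H U) (j : ℕ) (x : {x : U // A.Lv j x}) : A.Q j := Quot.mk _ x

private lemma cq_rep (A : Rw s H U) (j : ℕ) (a : A.Q j) : ∃ x, cqMk A j x = a :=
  Quot.exists_rep a

private lemma cq_mk_eq (A : Rw s H U) (j : ℕ) (x y : {x : U // A.Lv j x}) :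
    cqMk A j x = cqMk A j y ↔ A.ev j x.1 y.1 := by
  constructor
  · intro h
    have hE : Equivalence (fun x y : {x : U // A.Lv j x} => A.ev j x.1 y.1) :=
      ⟨fun _ => (A.ev_equiv j).refl _, fun h => (A.ev_equiv j).symm h,
        fun h h' => (A.ev_equiv j).trans h h'⟩
    exact (hE.eqvGen_iff).1 (Quot.eqvGen_exact h)
  · intro h
    exact Quot.sound h

private def cqPh (A : Rw s H U) (j : ℕ) : A.Q (j + 1) → Set (A.Q j) :=
  Quot.lift (fun x => {q | ∃ y : {y : U // A.Lv j y}, cqMk A j y = q ∧ A.mem j y.1 x.1}) (by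
    intro x x' h
    ext q
    constructor
    · rintro ⟨y, h1, h2⟩
      exact ⟨y, h1, (h y.1 y.2).1 h2⟩
    · rintro ⟨y, h1, h2⟩
      exact ⟨y, h1, (h y.1 y.2).2 h2⟩)

private lemma cq_mem_ph (A : Rw s H U) (j : ℕ) (x : {x : U // A.Lv (j + 1) x})
    (y : {y : U // A.Lv j y}) :
    cqMk A j y ∈ cqPh A j (cqMk A (j + 1) x) ↔ A.mem j y.1 x.1 := by
  constructor
  · rintro ⟨y', h1, h2⟩
    exact (cq_mem_ev A j ((cq_mk_eq A j _ _).1 h1)).1 h2
  · intro h
    exact ⟨y, rfl, h⟩

private def cqAv (A : Rw s H U) (j : ℕ) : Set (A.Q j) :=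
  {q | ∃ y : {y : U // A.Lv j y}, cqMk A j y = q ∧ A.av j y.1}

private lemma cq_mem_av (A : Rw s H U) (j : ℕ) (y : {y : U // A.Lv j y}) :
    cqMk A j y ∈ cqAv A j ↔ A.av j y.1 := by
  constructor
  · rintro ⟨y', h1, h2⟩
    exact (cq_av_ev A j ((cq_mk_eq A j _ _).1 h1)).1 h2
  · intro h
    exact ⟨y, rfl, h⟩

private lemma cq_av_succ (A : Rw s H U) (j : ℕ) (a : A.Q (j + 1)) :
    a ∈ cqAv A (j + 1) ↔ cqPh A j a ⊆ cqAv A j := by
  obtain ⟨x, rfl⟩ := cq_rep A (j + 1) a
  rw [cq_mem_av]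
  constructor
  · intro h q hq
    obtain ⟨y, rfl⟩ := cq_rep A j q
    rw [cq_mem_av]
    exact h y.1 y.2 ((cq_mem_ph A j x y).1 hq)
  · intro h y hy hm
    exact (cq_mem_av A j ⟨y, hy⟩).1 (h ((cq_mem_ph A j x ⟨y, hy⟩).2 hm))

private lemma cq_inj (A : Rw s H U) (j : ℕ) : Function.Injective (cqPh A j) := by
  intro a b hab
  obtain ⟨x, rfl⟩ := cq_rep A (j + 1) a
  obtain ⟨x', rfl⟩ := cq_rep A (j + 1) b
  refine (cq_mk_eq A (j + 1) x x').2 ?_
  intro w hw
  have h1 := cq_mem_ph A j x ⟨w, hw⟩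
  have h2 := cq_mem_ph A j x' ⟨w, hw⟩
  rw [hab] at h1
  exact h1.symm.trans h2

private lemma cq_tog (A : Rw s H U) (j : ℕ) (x x' : {x : U // A.Lv (j + 1) x})
    (y : {y : U // A.Lv j y}) (h : A.Tog j x.1 y.1 x'.1)
    (hy : cqMk A j y ∉ cqPh A j (cqMk A (j + 1) x)) :
    cqPh A j (cqMk A (j + 1) x') = insert (cqMk A j y) (cqPh A j (cqMk A (j + 1) x)) := by
  ext q
  obtain ⟨w, rfl⟩ := cq_rep A j q
  rw [Set.mem_insert_iff, cq_mem_ph, cq_mem_ph, cq_mk_eq, h w.1 w.2]
  rw [cq_mem_ph] at hy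
  constructor
  · intro h1
    by_cases h2 : A.ev j y.1 w.1
    · exact Or.inl ((A.ev_equiv j).symm h2)
    · right
      by_contra h3
      exact h1 ⟨fun h4 => absurd h4 h3, fun h4 => absurd h4 h2⟩
  · rintro (h1 | h1) h2
    · have h3 : A.ev j y.1 w.1 := (A.ev_equiv j).symm h1
      exact hy ((cq_mem_ev A j h3).2 (h2.2 h3))
    · exact hy ((cq_mem_ev A j (h2.1 h1)).2 h1)

private lemma cq_range {α β : Type} [Finite β] (f : α → Set β) (T : Set β)
    (h0 : ∃ a, f a = ∅)
    (h1 : ∀ a, f a ⊆ T → ∀ q ∈ T, q ∉ f a → ∃ a', f a' = insert q (f a)) (S : Set β)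
    (hS : S ⊆ T) : ∃ a, f a = S := by
  have hfin : S.Finite := Set.toFinite S
  revert hS
  refine Set.Finite.induction_on S hfin (fun _ => h0) ?_
  intro q S' hq _ ih hS'
  obtain ⟨a, ha⟩ := ih ((Set.subset_insert q S').trans hS')
  obtain ⟨a', ha'⟩ := h1 a (ha ▸ (Set.subset_insert q S').trans hS') q
    (hS' (Set.mem_insert q S')) (ha ▸ hq)
  exact ⟨a', by rw [ha', ha]⟩

private lemma cq_card_set (β : Type) [Finite β] : Nat.card (Set β) = 2 ^ Nat.card β := by
  classical
  haveI := Fintype.ofFinite β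
  rw [Nat.card_eq_fintype_card, Nat.card_eq_fintype_card, Fintype.card_set]

private lemma cq_card_sub {α β : Type} [Finite β] (f : α → Set β) (hf : Function.Injective f)
    (T : Set β) (h : ∀ S ⊆ T, ∃ a, f a = S) :
    Nat.card {a : α // f a ⊆ T} = 2 ^ Nat.card T := by
  have e : {a : α // f a ⊆ T} ≃ (Set.powerset T) := by
    refine Equiv.ofBijective (fun a => ⟨f a.1, a.2⟩) ⟨?_, ?_⟩
    · intro a b hab
      exact Subtype.ext (hf (congrArg Subtype.val hab))
    · rintro ⟨S, hS⟩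
      obtain ⟨a, ha⟩ := h S hS
      exact ⟨⟨a, by rw [ha]; exact hS⟩, Subtype.ext ha⟩
  rw [Nat.card_congr e, Nat.card_congr (Equiv.Set.powerset T), cq_card_set]

theorem card_Q (A : Rw s H U) (hA : A.Ax) [Finite U] {k : ℕ}
    (hk : Nat.card {x : U // A.Lv 0 x} = k) :
    (∀ j, j ≤ H → Nat.card (A.Q j) = tw j k) ∧ KM H k (Nat.card (A.Q (H + 1))) := by
  have hfin : ∀ j, Finite (A.Q j) := fun j =>
    Finite.of_surjective (cqMk A j) fun a => cq_rep A j a
  have hbij0 : Function.Bijective (cqMk A 0) := by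
    constructor
    · intro x y hxy
      exact Subtype.ext ((cq_mk_eq A 0 x y).1 hxy)
    · exact fun a => cq_rep A 0 a
  have hc0 : Nat.card (A.Q 0) = k := by
    rw [← hk]
    exact (Nat.card_congr (Equiv.ofBijective _ hbij0)).symm
  -- ranges below the top
  have hrange : ∀ j, j < H → ∀ S : Set (A.Q j), ∃ a, cqPh A j a = S := by
    intro j hj S
    haveI := hfin j
    refine cq_range (cqPh A j) Set.univ ?_ ?_ S (Set.subset_univ S)
    · obtain ⟨x, hx, h⟩ := hA.full0 j hj
      refine ⟨cqMk A (j + 1) ⟨x, hx⟩, ?_⟩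
      ext q
      obtain ⟨y, rfl⟩ := cq_rep A j q
      rw [cq_mem_ph]
      exact ⟨fun h1 => absurd h1 (h y.1 y.2), fun h1 => absurd h1 (Set.notMem_empty _)⟩
    · intro a _ q _ hq
      obtain ⟨x, rfl⟩ := cq_rep A (j + 1) a
      obtain ⟨y, rfl⟩ := cq_rep A j q
      obtain ⟨x', hx', h⟩ := hA.full1 j hj x.1 x.2 y.1 y.2
      exact ⟨cqMk A (j + 1) ⟨x', hx'⟩, cq_tog A j x ⟨x', hx'⟩ y h hq⟩
  have hrangeT : ∀ S : Set (A.Q H), S ⊆ cqAv A H → ∃ a, cqPh A H a = S := by
    intro S hS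
    haveI := hfin H
    refine cq_range (cqPh A H) (cqAv A H) ?_ ?_ S hS
    · obtain ⟨x, hx, h⟩ := hA.top0
      refine ⟨cqMk A (H + 1) ⟨x, hx⟩, ?_⟩
      ext q
      obtain ⟨y, rfl⟩ := cq_rep A H q
      rw [cq_mem_ph]
      exact ⟨fun h1 => absurd h1 (h y.1 y.2), fun h1 => absurd h1 (Set.notMem_empty _)⟩
    · intro a ha q hqT hq
      rw [← cq_av_succ] at ha
      obtain ⟨x, rfl⟩ := cq_rep A (H + 1) a
      obtain ⟨y, rfl⟩ := cq_rep A H q
      obtain ⟨x', hx', h⟩ := hA.top1 x.1 x.2 ((cq_mem_av A (H + 1) x).1 ha) y.1 y.2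
        ((cq_mem_av A H y).1 hqT)
      exact ⟨cqMk A (H + 1) ⟨x', hx'⟩, cq_tog A H x ⟨x', hx'⟩ y h hq⟩
  have hcard : ∀ j, j ≤ H → Nat.card (A.Q j) = tw j k := by
    intro j
    induction j with
    | zero => intro _; exact hc0
    | succ j ih =>
      intro hj
      haveI := hfin j
      have e := Equiv.ofBijective (cqPh A j) ⟨cq_inj A j, hrange j (by omega)⟩
      rw [Nat.card_congr e, cq_card_set, ih (by omega)]
      rfl
  -- the number of avoiding values
  have hav0 : Nat.card (cqAv A 0) = k - 1 ∧ 1 ≤ k := by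
    obtain ⟨w, ⟨hw, hz⟩, huniq⟩ := hA.hz
    have hset : cqAv A 0 = {cqMk A 0 ⟨w, hw⟩}ᶜ := by
      ext q
      obtain ⟨y, rfl⟩ := cq_rep A 0 q
      rw [cq_mem_av, Set.mem_compl_iff, Set.mem_singleton_iff, cq_mk_eq]
      constructor
      · intro h1 h2
        have h3 : y.1 = w := h2
        exact h1 (show A.z y.1 by rw [h3]; exact hz)
      · intro h1 h2
        exact h1 (show y.1 = w from huniq y.1 ⟨y.2, h2⟩)
    haveI := hfin 0
    have h1 := Set.ncard_add_ncard_compl ({cqMk A 0 ⟨w, hw⟩} : Set (A.Q 0))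
    rw [Set.ncard_singleton, ← hset, hc0] at h1
    have h2 : Nat.card (cqAv A 0) = (cqAv A 0).ncard := rfl
    rw [h2]
    omega
  have hav : ∀ j, j ≤ H + 1 → Nat.card (cqAv A j) = tw j (k - 1) := by
    intro j
    induction j with
    | zero => intro _; exact hav0.1
    | succ j ih =>
      intro hj
      haveI := hfin j
      have hS : ∀ S ⊆ cqAv A j, ∃ a, cqPh A j a = S := by
        rcases Nat.lt_or_ge j H with h | h
        · exact fun S _ => hrange j h S
        · have : j = H := by omega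
          subst this
          exact hrangeT
      have h1 := cq_card_sub (cqPh A j) (cq_inj A j) (cqAv A j) hS
      have h2 : cqAv A (j + 1) = {a | cqPh A j a ⊆ cqAv A j} := by
        ext a
        exact cq_av_succ A j a
      rw [h2]
      exact h1.trans (by rw [ih (by omega)]; rfl)
  refine ⟨hcard, hav0.2, ?_, ?_⟩
  · haveI := hfin (H + 1)
    rw [← hav (H + 1) le_rfl]
    obtain ⟨x, hx, hn⟩ := hA.top2
    have h1 : (cqMk A (H + 1) ⟨x, hx⟩) ∉ cqAv A (H + 1) := fun h =>
      hn ((cq_mem_av A (H + 1) ⟨x, hx⟩).1 h)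
    have h2 : cqAv A (H + 1) ⊂ Set.univ := by
      refine (Set.ssubset_univ_iff).2 ?_
      intro h
      exact h1 (h ▸ Set.mem_univ _)
    have h3 := Set.ncard_lt_ncard h2
    rw [Set.ncard_univ] at h3
    exact h3
  · haveI := hfin H
    haveI := hfin (H + 1)
    have h1 := Nat.card_le_card_of_injective (cqPh A H) (cq_inj A H)
    rw [cq_card_set, hcard H le_rfl] at h1
    exact h1

end Pool.Agent.Helper72.WT
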