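import Mathlib
import Pool.Agent.Helper72.WT.Count

set_option autoImplicit false

/-!
# WT-6: the number of points of an encoded structure

* Cells of kind `κ` correspond to `Fin (s.ar κ) → Q (H + 1)`: `c ↦` (the class of the `i`-th coordinate node of `c`
  (`coord`)), bijective by `cells` (choose representatives). So there are `m ^ s.ar κ` of them, `m = |Q (H + 1)|`; for `κ = s.o`
  (arity `1`, `s.ho`) there are `m`.
* Points of kind `top κ i` correspond to cells of kind `κ` (parent, `par_ex`, `par_lv`, `kind`, `coord`). So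
  `|Lv (H + 1)| = ∑ κ, s.ar κ * m ^ s.ar κ = lev s H k m 0`.
* `1 ≤ j ≤ H`: `Lv j ≃ Lv (j + 1) × Q j`, `y ↦ (parent of y, class of y)`: bijective by `child` (`par_ex`, `par_lv` and `kind`:
  the parent of a node of level `j` has level `j + 1`, the children of a node of level `j + 1` have level `j`). So
  `|Lv (H + 1 - d)| = lev s H k m d` for `d ≤ H`.
* Every point has exactly one kind (`kind`), so `|U|` is the sum over the kinds: `|Lv 0| = k`, the levels `1, …, H + 1`, the cells.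
-/

namespace Pool.Agent.Helper72.WT

variable {s : Sg} {H : ℕ} {U : Type}

lemma sz_lv (A : Rw s H U) {j : ℕ} (hj : j < H + 1) (x : U) :
    A.Lv j x ↔ A.lv ⟨j, hj⟩ x := by
  constructor
  · rintro (⟨_, h⟩ | ⟨h, _⟩)
    · exact h
    · omega
  · intro h
    exact Or.inl ⟨hj, h⟩

lemma sz_top (A : Rw s H U) (x : U) :
    A.Lv (H + 1) x ↔ ∃ κ i, A.top κ i x := by
  constructor
  · rintro (⟨h, _⟩ | ⟨_, h⟩)
    · omega
    · exact h
  · intro h
    exact Or.inr ⟨rfl, h⟩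

lemma sz_uniq {A : Rw s H U} (hA : A.Ax) {x : U} {q q' : Kd s H} (h : A.kd q x)
    (h' : A.kd q' x) : q = q' := (hA.kind x).unique h h'

lemma sz_lv_lv {A : Rw s H U} (hA : A.Ax) {x : U} {i j : ℕ} (h : A.Lv i x) (h' : A.Lv j x) :
    i = j := by
  rcases h with ⟨hi, h⟩ | ⟨hi, κ, l, h⟩ <;> rcases h' with ⟨hj, h'⟩ | ⟨hj, κ', l', h'⟩
  · have := sz_uniq hA (q := Sum.inl ⟨i, hi⟩) (q' := Sum.inl ⟨j, hj⟩) h h'
    exact congrArg Fin.val (Sum.inl.inj this)
  · have := sz_uniq hA (q := Sum.inl ⟨i, hi⟩) (q' := Sum.inr (Sum.inl ⟨κ', l'⟩)) h h'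
    exact absurd this (by simp)
  · have := sz_uniq hA (q := Sum.inr (Sum.inl ⟨κ, l⟩)) (q' := Sum.inl ⟨j, hj⟩) h h'
    exact absurd this (by simp)
  · rw [hi, hj]

lemma sz_lv_cell {A : Rw s H U} (hA : A.Ax) {x : U} {i : ℕ} {κ' : s.ι} (h : A.Lv i x)
    (h' : A.cell κ' x) : False := by
  rcases h with ⟨hi, h⟩ | ⟨hi, κ, l, h⟩
  · have := sz_uniq hA (q := Sum.inl ⟨i, hi⟩) (q' := Sum.inr (Sum.inr κ')) h h'
    exact absurd this (by simp)
  · have := sz_uniq hA (q := Sum.inr (Sum.inl ⟨κ, l⟩)) (q' := Sum.inr (Sum.inr κ')) h h'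
    exact absurd this (by simp)

lemma sz_quot {A : Rw s H U} {j : ℕ} {x y : {x : U // A.Lv j x}} :
    (Quot.mk _ x : A.Q j) = Quot.mk _ y ↔ A.ev j x.1 y.1 := by
  constructor
  · intro h
    have h1 := Quot.eqvGen_exact h
    have he : Equivalence (fun x y : {x : U // A.Lv j x} => A.ev j x.1 y.1) :=
      ⟨fun x => (A.ev_equiv j).refl x.1, fun h => (A.ev_equiv j).symm h,
        fun h h' => (A.ev_equiv j).trans h h'⟩
    exact (he.eqvGen_iff).1 h1
  · intro h
    exact Quot.sound h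

/-- the coordinate node of a cell -/
lemma sz_coord {A : Rw s H U} (hA : A.Ax) (κ : s.ι) :
    ∃ f : {c : U // A.cell κ c} → Fin (s.ar κ) → U, ∀ c i,
      (A.par (f c i) c.1 ∧ A.top κ i (f c i)) ∧
        ∀ y, A.par y c.1 → A.top κ i y → y = f c i := by
  choose f hf hf' using fun (c : {c : U // A.cell κ c}) (i : Fin (s.ar κ)) =>
    hA.coord κ c.1 c.2 i
  exact ⟨f, fun c i => ⟨hf c i, fun y h1 h2 => hf' c i y ⟨h1, h2⟩⟩⟩

lemma sz_cells {A : Rw s H U} (hA : A.Ax) [Finite U] {m : ℕ}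
    (hm : Nat.card (A.Q (H + 1)) = m) (κ : s.ι) :
    Nat.card {c : U // A.cell κ c} = m ^ s.ar κ := by
  obtain ⟨f, hf⟩ := sz_coord hA κ
  have hlv : ∀ c i, A.Lv (H + 1) (f c i) := fun c i =>
    (sz_top A _).2 ⟨κ, i, (hf c i).1.2⟩
  let g : {c : U // A.cell κ c} → Fin (s.ar κ) → A.Q (H + 1) :=
    fun c i => Quot.mk _ ⟨f c i, hlv c i⟩
  have hg : Function.Bijective g := by
    constructor
    · intro c c' h
      obtain ⟨_, _, huniq⟩ := hA.cells κ (f c) (hlv c)
      have h1 : A.Cc κ (f c) c.1 :=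
        ⟨c.2, fun i => ⟨f c i, (hf c i).1.1, (hf c i).1.2, (A.ev_equiv _).refl _⟩⟩
      have h2 : A.Cc κ (f c) c'.1 :=
        ⟨c'.2, fun i => ⟨f c' i, (hf c' i).1.1, (hf c' i).1.2, sz_quot.1 (congrFun h i)⟩⟩
      exact Subtype.ext ((huniq _ h1).trans (huniq _ h2).symm)
    · intro w
      choose v hv using fun i => Quot.exists_rep (w i)
      obtain ⟨c, ⟨hc, hc'⟩, _⟩ := hA.cells κ (fun i => (v i).1) (fun i => (v i).2)
      refine ⟨⟨c, hc⟩, funext fun i => ?_⟩
      obtain ⟨y, hy1, hy2, hy3⟩ := hc' i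
      rw [← hv i]
      refine sz_quot.2 ?_
      show A.ev (H + 1) (f ⟨c, hc⟩ i) (v i).1
      rw [← (hf ⟨c, hc⟩ i).2 y hy1 hy2]
      exact (A.ev_equiv _).symm hy3
  rw [Nat.card_congr (Equiv.ofBijective g hg), Nat.card_fun, hm, Nat.card_eq_fintype_card,
    Fintype.card_fin]

lemma sz_tops {A : Rw s H U} (hA : A.Ax) [Finite U] {m : ℕ}
    (hm : Nat.card (A.Q (H + 1)) = m) (κ : s.ι) (i : Fin (s.ar κ)) :
    Nat.card {x : U // A.top κ i x} = m ^ s.ar κ := by
  obtain ⟨f, hf⟩ := sz_coord hA κ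
  let g : {c : U // A.cell κ c} → {x : U // A.top κ i x} := fun c => ⟨f c i, (hf c i).1.2⟩
  have hg : Function.Bijective g := by
    constructor
    · intro c c' h
      have h1 : f c i = f c' i := congrArg Subtype.val h
      have h2 : A.Lv (H + 1) (f c i) := (sz_top A _).2 ⟨κ, i, (hf c i).1.2⟩
      obtain ⟨_, _, huniq⟩ := hA.par_ex (H + 1) (by omega) le_rfl _ h2
      have h3 := huniq _ (hf c i).1.1
      have h4 := huniq c'.1 (h1 ▸ (hf c' i).1.1)
      exact Subtype.ext (h3.trans h4.symm)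
    · rintro ⟨x, hx⟩
      have h2 : A.Lv (H + 1) x := (sz_top A _).2 ⟨κ, i, hx⟩
      obtain ⟨c, hc, _⟩ := hA.par_ex (H + 1) (by omega) le_rfl _ h2
      rcases hA.par_lv x c hc with ⟨j, _, hj, h3, _⟩ | ⟨κ', i', h3, h4⟩
      · have := sz_lv_lv hA h2 h3
        omega
      · have h5 := sz_uniq hA (q := Sum.inr (Sum.inl ⟨κ, i⟩))
          (q' := Sum.inr (Sum.inl ⟨κ', i'⟩)) hx h3
        have h6 : (⟨κ, i⟩ : Σ κ : s.ι, Fin (s.ar κ)) = ⟨κ', i'⟩ := Sum.inl.inj (Sum.inr.inj h5)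
        have h7 : κ = κ' := congrArg Sigma.fst h6
        subst h7
        exact ⟨⟨c, h4⟩, Subtype.ext ((hf ⟨c, h4⟩ i).2 x hc hx).symm⟩
  rw [← Nat.card_congr (Equiv.ofBijective g hg), sz_cells hA hm]

lemma sz_level {A : Rw s H U} (hA : A.Ax) [Finite U] {j : ℕ} (h1 : 1 ≤ j) (h2 : j ≤ H) :
    Nat.card {x : U // A.Lv j x} = Nat.card {x : U // A.Lv (j + 1) x} * Nat.card (A.Q j) := by
  choose p hp hp' using fun (y : {x : U // A.Lv j x}) => hA.par_ex j h1 (by omega) y.1 y.2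
  have hlv : ∀ y, A.Lv (j + 1) (p y) := by
    intro y
    rcases hA.par_lv _ _ (hp y) with ⟨j', _, _, h3, h4⟩ | ⟨κ, i, h3, _⟩
    · rw [sz_lv_lv hA y.2 h3]
      exact h4
    · have := sz_lv_lv hA y.2 ((sz_top A _).2 ⟨κ, i, h3⟩)
      omega
  let g : {x : U // A.Lv j x} → {x : U // A.Lv (j + 1) x} × A.Q j :=
    fun y => (⟨p y, hlv y⟩, Quot.mk _ y)
  have hg : Function.Bijective g := by
    constructor
    · intro y y' h
      have h3 : p y = p y' := congrArg Subtype.val (congrArg Prod.fst h)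
      have h4 : A.ev j y.1 y'.1 := sz_quot.1 (congrArg Prod.snd h)
      obtain ⟨_, _, huniq⟩ := hA.child j h1 h2 (p y) (hlv y) y.1 y.2
      have h5 := huniq y.1 ⟨hp y, (A.ev_equiv j).refl _⟩
      have h6 := huniq y'.1 ⟨by rw [h3]; exact hp y', h4⟩
      exact Subtype.ext (h5.trans h6.symm)
    · rintro ⟨⟨x, hx⟩, w⟩
      obtain ⟨y, rfl⟩ := Quot.exists_rep w
      obtain ⟨y', ⟨h3, h4⟩, _⟩ := hA.child j h1 h2 x hx y.1 y.2
      have h5 : A.Lv j y' := by
        rcases hA.par_lv _ _ h3 with ⟨j', _, _, h6, h7⟩ | ⟨κ, i, _, h7⟩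
        · have := sz_lv_lv hA hx h7
          have h8 : j = j' := by omega
          rw [h8]
          exact h6
        · exact absurd h7 fun h7 => sz_lv_cell hA hx h7
      refine ⟨⟨y', h5⟩, Prod.ext (Subtype.ext ?_) (sz_quot.2 ((A.ev_equiv j).symm h4))⟩
      exact (hp' ⟨y', h5⟩ x h3).symm
  rw [Nat.card_congr (Equiv.ofBijective g hg), Nat.card_prod]

lemma sz_sum {A : Rw s H U} (hA : A.Ax) [Finite U] :
    Nat.card U = ∑ q : Kd s H, Nat.card {x : U // A.kd q x} := by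
  choose q hq hq' using hA.kind
  let g : U → Σ q : Kd s H, {x : U // A.kd q x} := fun x => ⟨q x, x, hq x⟩
  have hg : Function.Bijective g := by
    constructor
    · intro x y h
      have h1 : (g x).2.1 = (g y).2.1 := by rw [h]
      exact h1
    · rintro ⟨r, x, hx⟩
      have h1 : r = q x := hq' x r hx
      subst h1
      exact ⟨x, rfl⟩
  rw [Nat.card_congr (Equiv.ofBijective g hg), Nat.card_sigma]

lemma sz_topsum {A : Rw s H U} (hA : A.Ax) [Finite U] :
    Nat.card {x : U // A.Lv (H + 1) x} =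
      ∑ p : Σ κ : s.ι, Fin (s.ar κ), Nat.card {x : U // A.top p.1 p.2 x} := by
  have hex : ∀ x : {x : U // A.Lv (H + 1) x}, ∃ p : (Σ κ : s.ι, Fin (s.ar κ)),
      A.top p.1 p.2 x.1 := by
    intro x
    obtain ⟨κ, i, h⟩ := (sz_top A x.1).1 x.2
    exact ⟨⟨κ, i⟩, h⟩
  choose p hp using hex
  let g : {x : U // A.Lv (H + 1) x} →
      Σ p : (Σ κ : s.ι, Fin (s.ar κ)), {x : U // A.top p.1 p.2 x} :=
    fun x => ⟨p x, x.1, hp x⟩
  have hg : Function.Bijective g := by
    constructor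
    · intro x y h
      have h1 : (g x).2.1 = (g y).2.1 := by rw [h]
      exact Subtype.ext h1
    · rintro ⟨r, x, hx⟩
      let x' : {x : U // A.Lv (H + 1) x} := ⟨x, (sz_top A x).2 ⟨r.1, r.2, hx⟩⟩
      have h1 := sz_uniq hA (q := Sum.inr (Sum.inl r))
          (q' := Sum.inr (Sum.inl (p x'))) hx (hp x')
      have h2 : r = p x' := Sum.inl.inj (Sum.inr.inj h1)
      have key : ∀ (r' : Σ κ : s.ι, Fin (s.ar κ)) (hx' : A.top r'.1 r'.2 x), r' = r →
          (⟨r', ⟨x, hx'⟩⟩ : Σ p : (Σ κ : s.ι, Fin (s.ar κ)), {x : U // A.top p.1 p.2 x}) =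
            ⟨r, ⟨x, hx⟩⟩ := by
        rintro r' hx' rfl
        rfl
      exact ⟨x', key (p x') (hp x') h2.symm⟩
  rw [Nat.card_congr (Equiv.ofBijective g hg), Nat.card_sigma]

theorem card_U (A : Rw s H U) (hA : A.Ax) [Finite U] {k m : ℕ}
    (hk : Nat.card {x : U // A.Lv 0 x} = k) (hQ : ∀ j, j ≤ H → Nat.card (A.Q j) = tw j k)
    (hm : Nat.card (A.Q (H + 1)) = m) :
    Nat.card {x : U // A.cell s.o x} = m ∧ Nat.card U = FF s H k m := by
  refine ⟨by rw [sz_cells hA hm, s.ho, pow_one], ?_⟩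
  have h0 : Nat.card {x : U // A.Lv (H + 1) x} = lev s H k m 0 := by
    rw [sz_topsum hA]
    simp only [sz_tops hA hm]
    rw [Fintype.sum_sigma]
    simp only [lev, Finset.sum_const, Finset.card_univ, Fintype.card_fin, smul_eq_mul]
  have hd : ∀ d, d ≤ H → Nat.card {x : U // A.Lv (H + 1 - d) x} = lev s H k m d := by
    intro d
    induction d with
    | zero => intro _; exact h0
    | succ d ih =>
      intro h
      have e1 : H + 1 - (d + 1) = H - d := by omega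
      have e2 : H - d + 1 = H + 1 - d := by omega
      rw [e1, sz_level hA (by omega) (by omega), e2, ih (by omega), hQ _ (by omega), lev]
  rw [sz_sum hA, FF, Fintype.sum_sum_type, Fintype.sum_sum_type]
  have e1 : ∑ j : Fin (H + 1), Nat.card {x : U // A.kd (Sum.inl j) x} =
      ∑ j ∈ Finset.range (H + 1), Nat.card {x : U // A.Lv j x} := by
    rw [← Fin.sum_univ_eq_sum_range (fun j => Nat.card {x : U // A.Lv j x})]
    refine Finset.sum_congr rfl fun j _ => Nat.card_congr (Equiv.subtypeEquivRight fun x => ?_)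
    exact (sz_lv A j.2 x).symm
  have e2 : ∑ p : Σ κ : s.ι, Fin (s.ar κ), Nat.card {x : U // A.kd (Sum.inr (Sum.inl p)) x} =
      lev s H k m 0 := by
    rw [← h0, sz_topsum hA]
    rfl
  have e3 : ∑ κ : s.ι, Nat.card {x : U // A.kd (Sum.inr (Sum.inr κ)) x} =
      ∑ κ : s.ι, m ^ s.ar κ :=
    Finset.sum_congr rfl fun κ _ => sz_cells hA hm κ
  have e4 : ∑ d ∈ Finset.range (H + 1), lev s H k m d =
      lev s H k m 0 + ∑ j ∈ Finset.range H, Nat.card {x : U // A.Lv (j + 1) x} := by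
    rw [Finset.sum_range_succ', add_comm, ← Finset.sum_range_reflect]
    congr 1
    refine Finset.sum_congr rfl fun j hj => ?_
    rw [Finset.mem_range] at hj
    rw [← hd _ (by omega)]
    have : H + 1 - (H - 1 - j + 1) = j + 1 := by omega
    rw [this]
  rw [e1, e2, e3, e4, Finset.sum_range_succ', hk]
  ring

end Pool.Agent.Helper72.WT
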