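import Mathlib
import Pool.Agent.Helper87.AU.UDef
import Pool.Agent.Helper72.WT.ULang

set_option autoImplicit false

/-!
# WT-1: interpretations

For an `L'`-structure `M` consider the relational `L`-structure on `{x : M // A M x}` whose relations are given by
uniformly definable properties `Q n R`. Sentences about it can be translated.

Proof. For `θ : L.BoundedFormula Empty n` show by induction on `θ`: the property of `v : Fin n → M`
`∀ h : ∀ i, A M (v i), θ.Realize default (fun i => ⟨v i, h i⟩)` is `UDef L' (Fin n)`.
Terms of `L` are variables (`isEmpty` functions). `falsum`: `(∀ i, A (v i)) → False`;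
`equal`: `(∀ i, A (v i)) → v i = v j`; `rel`: `(∀ i, A (v i)) → Q n R M (v ∘ f)`; `imp`: `(∀ i, A (v i)) → (P₁ → P₂)`
where `P₁`, `P₂` are the properties of the induction hypothesis (given `h` they are equivalent to the `Realize`
statements); `all`: `∀ x, P (Fin.snoc v x)` (if `A (v i)` for all `i` and `A x`). At the end `n = 0`,
`UDef.exists_sentence` (relabel `Fin 0` to `Empty`). Compare `Helper87/AU/DecTr.lean` (`decTr_formula`, `dec_tr`).
-/

namespace Pool.Agent.Helper72.WT

open FirstOrder FirstOrder.Language Pool.Agent.Helper87.AU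

/-- Terms of a relational language are variables. -/
theorem interp_term {L : FirstOrder.Language.{0, 0}} (hL : ∀ n, IsEmpty (L.Functions n)) {n : ℕ}
    (t : L.Term (Empty ⊕ Fin n)) : ∃ i : Fin n, t = Term.var (Sum.inr i) := by
  cases t with
  | var x =>
    rcases x with x | i
    · exact x.elim
    · exact ⟨i, rfl⟩
  | func f ts => exact ((hL _).false f).elim

theorem interp_formula {L L' : FirstOrder.Language.{0, 0}} (hL : ∀ n, IsEmpty (L.Functions n))
    (A : ∀ (M : Type) [L'.Structure M], M → Prop)
    (hA : UDef L' Unit (fun M _ v => A M (v ())))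
    (Q : ∀ (n : ℕ), L.Relations n → ∀ (M : Type) [L'.Structure M], (Fin n → M) → Prop)
    (hQ : ∀ n R, UDef L' (Fin n) (Q n R)) {n : ℕ} (θ : L.BoundedFormula Empty n) :
    UDef L' (Fin n) (fun M _ v => ∀ h : ∀ i, A M (v i),
      @BoundedFormula.Realize L {x : M // A M x}
        (istr hL fun n R v => Q n R M fun i => (v i).1) Empty n θ default
        (fun i => ⟨v i, h i⟩)) := by
  have hAll : ∀ n : ℕ, UDef L' (Fin n) (fun M _ v => ∀ i, A M (v i)) := fun n =>
    UDef.allFin (P := fun i M _ v => A M (v i)) fun i => hA.relabel (fun _ => i)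
  induction θ with
  | falsum =>
    exact ((hAll _).imp (UDef.const False)).congr fun M _ v => Iff.rfl
  | @equal n t₁ t₂ =>
    obtain ⟨i, rfl⟩ := interp_term hL t₁
    obtain ⟨j, rfl⟩ := interp_term hL t₂
    refine ((hAll _).imp (UDef.varEq i j)).congr fun M _ v => forall_congr' fun h => ?_
    constructor
    · intro h1
      exact Subtype.ext h1
    · intro h1
      exact congrArg Subtype.val h1
  | @rel n k R ts =>
    choose f hf using fun s => interp_term hL (ts s)
    have e : ts = fun s => Term.var (Sum.inr (f s)) := funext hf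
    subst e
    exact ((hAll _).imp ((hQ k R).relabel f)).congr fun M _ v => Iff.rfl
  | imp θ₁ θ₂ ih₁ ih₂ =>
    refine ((hAll _).imp (ih₁.imp ih₂)).congr fun M _ v => forall_congr' fun h => ?_
    constructor
    · intro h1 h2
      exact h1 (fun _ => h2) h
    · intro h1 h2 _
      exact h1 (h2 h)
  | @all n θ ih =>
    have h1 : UDef L' (Fin n) (fun M _ v => ∀ x : M,
        ∀ h : ∀ i, A M (Fin.snoc (α := fun _ => M) v x i),
          @BoundedFormula.Realize L {x : M // A M x}
            (istr hL fun n R v => Q n R M fun i => (v i).1) Empty (n + 1) θ default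
            (fun i => ⟨Fin.snoc (α := fun _ => M) v x i, h i⟩)) := by
      refine UDef.allu (P := fun M _ v x =>
        ∀ h : ∀ i, A M (Fin.snoc (α := fun _ => M) v x i),
          @BoundedFormula.Realize L {x : M // A M x}
            (istr hL fun n R v => Q n R M fun i => (v i).1) Empty (n + 1) θ default
            (fun i => ⟨Fin.snoc (α := fun _ => M) v x i, h i⟩)) ?_
      refine (ih.relabel (fun x : Fin (n + 1) =>
        (Fin.lastCases (motive := fun _ => Fin n ⊕ Unit) (Sum.inr ()) (fun i => Sum.inl i) x))).congr
        fun M _ v => ?_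
      have e : (v ∘ (fun x : Fin (n + 1) =>
          (Fin.lastCases (motive := fun _ => Fin n ⊕ Unit) (Sum.inr ())
            (fun i => Sum.inl i) x))) =
          Fin.snoc (α := fun _ => M) (v ∘ Sum.inl) (v (Sum.inr ())) := by
        funext i
        refine Fin.lastCases ?_ (fun i => ?_) i
        · simp
        · simp
      rw [e]
    refine h1.congr fun M _ v => ?_
    constructor
    · intro h2 h x
      have h3 : ∀ i, A M (Fin.snoc (α := fun _ => M) v x.1 i) := by
        intro i
        refine Fin.lastCases ?_ (fun i => ?_) i
        · simpa using x.2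
        · simpa using h i
      have h4 := h2 x.1 h3
      have e : (fun i => (⟨Fin.snoc (α := fun _ => M) v x.1 i, h3 i⟩ : {x : M // A M x})) =
          Fin.snoc (α := fun _ => {x : M // A M x}) (fun i => ⟨v i, h i⟩) x := by
        funext i
        refine Fin.lastCases ?_ (fun i => ?_) i
        · apply Subtype.ext
          simp
        · apply Subtype.ext
          simp
      rw [e] at h4
      exact h4
    · intro h2 x h3
      have hv : ∀ i, A M (v i) := by
        intro i
        have := h3 i.castSucc
        simpa using this
      have hx : A M x := by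
        have := h3 (Fin.last n)
        simpa using this
      have h4 := h2 hv ⟨x, hx⟩
      have e : (fun i => (⟨Fin.snoc (α := fun _ => M) v x i, h3 i⟩ : {x : M // A M x})) =
          Fin.snoc (α := fun _ => {x : M // A M x}) (fun i => ⟨v i, hv i⟩) ⟨x, hx⟩ := by
        funext i
        refine Fin.lastCases ?_ (fun i => ?_) i
        · apply Subtype.ext
          simp
        · apply Subtype.ext
          simp
      rw [e]
      exact h4

theorem interp {L L' : FirstOrder.Language.{0, 0}} (hL : ∀ n, IsEmpty (L.Functions n))
    (A : ∀ (M : Type) [L'.Structure M], M → Prop)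
    (hA : UDef L' Unit (fun M _ v => A M (v ())))
    (Q : ∀ (n : ℕ), L.Relations n → ∀ (M : Type) [L'.Structure M], (Fin n → M) → Prop)
    (hQ : ∀ n R, UDef L' (Fin n) (Q n R)) (ψ : L.Sentence) :
    ∃ ψ' : L'.Sentence, ∀ (M : Type) [L'.Structure M],
      ψ'.Realize M ↔ @Sentence.Realize L {x : M // A M x}
        (istr hL fun n R v => Q n R M fun i => (v i).1) ψ := by
  have h := (interp_formula hL A hA Q hQ (n := 0) ψ).relabel
    (fun x : Fin 0 => (x.elim0 : Empty))
  obtain ⟨φ, hφ⟩ := UDef.exists_sentence h
  refine ⟨φ, fun M _ => (hφ M).trans ?_⟩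
  have e : ∀ w w' : Fin 0 → {x : M // A M x},
      @BoundedFormula.Realize L {x : M // A M x}
        (istr hL fun n R v => Q n R M fun i => (v i).1) Empty 0 ψ default w →
      @BoundedFormula.Realize L {x : M // A M x}
        (istr hL fun n R v => Q n R M fun i => (v i).1) Empty 0 ψ default w' := by
    intro w w' hw
    have hww : w = w' := funext fun i => i.elim0
    rw [← hww]
    exact hw
  constructor
  · intro h1
    exact e _ _ (h1 (fun i => i.elim0))
  · intro h1 h2
    exact e _ _ h1

end Pool.Agent.Helper72.WT
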