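import Mathlib
import Pool.Agent.Helper31.Spectra
import Pool.Agent.Helper87.AU.Decode
import Pool.Agent.Helper72.WT.Interp

set_option autoImplicit false

/-!
# WT-3: preimages of spectra

Let `σ` be a sentence whose finite models `U` have exactly `g (|a^U|)` elements, where `a^U` is the subset defined by
the unary relation symbol `a`, and which has a model with `|a^U| = m` for every `m ≥ m₀`; `g m ≤ m ^ (r + 1)`. Then
`{m ≥ m₀ | g m ∈ Spec χ}` is a spectrum.

Proof. Language `LV`: relation symbols `u R` (`R` of `LU`), `c R` (`R` of `LX`), a unary symbol `b`; `r + 1` unary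
function symbols `π_i`. `Ξ` = conjunction of: `σ` in the `LU`-structure on `{x // b x}` and `χ` in the `LX`-structure on
`{x // b x}` (theorem `interp` with `A = b`), `∀ x, a x → b x`, `∀ x i, a (π_i x)`,
`∀ z : Fin (r + 1) → V, (∀ i, a (z i)) → ∃! x, ∀ i, π_i x = z i` (all `UDef`).
A finite model `V` of `Ξ` has `|V| = |a^V| ^ (r + 1)` elements (`x ↦ (π_i x)_i` is a bijection onto
`Fin (r + 1) → {x // a x}`), `U = {x // b x}` has `g |a^V|` elements and is the universe of a model of `χ`, and
`{x : U // a x} ≃ {x : V // a x}`. Conversely let `m ≥ m₀`, `g m ∈ Spec χ`, `X` a model of `χ` with `g m` elements, `U`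
from `h2`, `|U| = g m`. `V = U ⊕ Fin (m ^ (r + 1) - g m)`, `b` = the points of `U`, `LX`-structure transported by a
bijection `U ≃ X` (`Equiv.inducedStructure`, `StrongHomClass.realize_sentence`; the structure `istr` on
`{x : V // b x} ≃ U` is isomorphic to the one on `U`), a bijection `V ≃ (Fin (r + 1) → {x // a x})` gives the `π_i`.
So `Spec Ξ = {m ^ (r + 1) | m ≥ m₀, g m ∈ Spec χ}`; apply `decode` with `D = 1`.
-/

namespace Pool.Agent.Helper72.WT

open FirstOrder FirstOrder.Language Pool.Agent.Helper87.AU Pool.Agent.Helper31.Spectra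

/-- The function symbols. -/
private inductive VF (r : ℕ) : ℕ → Type
  | pi (i : Fin (r + 1)) : VF r 1

/-- The relation symbols. -/
private inductive VR (LU LX : FirstOrder.Language.{0, 0}) : ℕ → Type
  | u {n : ℕ} (R : LU.Relations n) : VR LU LX n
  | c {n : ℕ} (R : LX.Relations n) : VR LU LX n
  | b : VR LU LX 1

/-- The language. -/
private abbrev LV (LU LX : FirstOrder.Language.{0, 0}) (r : ℕ) : FirstOrder.Language.{0, 0} :=
  ⟨VF r, VR LU LX⟩

private theorem finVoc_LV {LU LX : FirstOrder.Language.{0, 0}} (r : ℕ)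
    (hUf : Finite (Σ n, LU.Relations n)) (hXf : Finite (Σ n, LX.Relations n)) :
    FinVoc (LV LU LX r) := by
  constructor
  · have : Function.Surjective (fun i : Fin (r + 1) =>
        (⟨1, VF.pi i⟩ : Σ n, (LV LU LX r).Functions n)) := by
      rintro ⟨n, f⟩
      cases f with
      | pi i => exact ⟨i, rfl⟩
    exact Finite.of_surjective _ this
  · have : Function.Surjective
        (fun z : ((Σ n, LU.Relations n) ⊕ (Σ n, LX.Relations n)) ⊕ Unit =>
          (match z with
          | Sum.inl (Sum.inl z) => ⟨z.1, VR.u z.2⟩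
          | Sum.inl (Sum.inr z) => ⟨z.1, VR.c z.2⟩
          | Sum.inr _ => ⟨1, VR.b⟩ : Σ n, (LV LU LX r).Relations n)) := by
      rintro ⟨n, R⟩
      cases R with
      | u R => exact ⟨Sum.inl (Sum.inl ⟨_, R⟩), rfl⟩
      | c R => exact ⟨Sum.inl (Sum.inr ⟨_, R⟩), rfl⟩
      | b => exact ⟨Sum.inr (), rfl⟩
    exact Finite.of_surjective _ this

private theorem transfer {L : FirstOrder.Language.{0, 0}} (hL : ∀ n, IsEmpty (L.Functions n))
    {N N' : Type} [L.Structure N] (E : N ≃ N') (q : ∀ n, L.Relations n → (Fin n → N') → Prop)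
    (hq : ∀ (n : ℕ) (R : L.Relations n) (v : Fin n → N),
      q n R (fun i => E (v i)) ↔ Structure.RelMap R v) (ψ : L.Sentence) :
    ψ.Realize N ↔ @Sentence.Realize L N' (istr hL q) ψ := by
  letI := istr hL q
  let e : N ≃[L] N' :=
    { E with
      map_fun' := fun f _ => ((hL _).false f).elim
      map_rel' := fun R v => hq _ R v }
  exact StrongHomClass.realize_sentence e ψ

private def vfun {r : ℕ} {U K : Type} (p : Fin (r + 1) → U ⊕ K → U) :
    ∀ {n : ℕ}, VF r n → (Fin n → U ⊕ K) → U ⊕ K
  | _, VF.pi i, v => Sum.inl (p i (v 0))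

private def vrel {LU LX : FirstOrder.Language.{0, 0}} {U X K : Type} [LU.Structure U]
    [LX.Structure X] (f : X → U) : ∀ {n : ℕ}, VR LU LX n → (Fin n → U ⊕ K) → Prop
  | n, VR.u R, v => ∃ w : Fin n → U, (v = fun i => Sum.inl (w i)) ∧ Structure.RelMap R w
  | n, VR.c R, v => ∃ w : Fin n → X, (v = fun i => Sum.inl (f (w i))) ∧ Structure.RelMap R w
  | _, VR.b, v => ∃ x, v 0 = Sum.inl x

@[instance_reducible]
private def vstr {LU LX : FirstOrder.Language.{0, 0}} {r : ℕ} {U X K : Type} [LU.Structure U]
    [LX.Structure X] (f : X → U) (p : Fin (r + 1) → U ⊕ K → U) :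
    (LV LU LX r).Structure (U ⊕ K) where
  funMap := fun F v => vfun p F v
  RelMap := fun R v => vrel f R v

/-- The points of the encoded structure. -/
private def BB {LU LX : FirstOrder.Language.{0, 0}} (r : ℕ) (M : Type)
    [(LV LU LX r).Structure M] (x : M) : Prop :=
  Structure.RelMap (L := LV LU LX r) VR.b ![x]

private def AA {LU : FirstOrder.Language.{0, 0}} (LX : FirstOrder.Language.{0, 0})
    (a : LU.Relations 1) (r : ℕ) (M : Type) [(LV LU LX r).Structure M] (x : M) : Prop :=
  Structure.RelMap (L := LV LU LX r) (VR.u a) ![x]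

private def pj (LU LX : FirstOrder.Language.{0, 0}) {r : ℕ} (M : Type)
    [(LV LU LX r).Structure M] (i : Fin (r + 1)) (x : M) : M :=
  Structure.funMap (L := LV LU LX r) (VF.pi i) ![x]

private theorem fin1 {M : Type} (x : M) : (fun _ : Fin 1 => x) = ![x] := by
  funext i
  rw [Subsingleton.elim i 0]
  rfl

private theorem udef_BB {LU LX : FirstOrder.Language.{0, 0}} (r : ℕ) :
    UDef (LV LU LX r) Unit (fun M _ v => BB (LU := LU) (LX := LX) r M (v ())) := by
  refine (UDef.rel (L := LV LU LX r) VR.b (fun _ : Fin 1 => Term.var ())).congr fun M _ v => ?_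
  unfold BB
  rw [← fin1 (v ())]
  exact Iff.rfl

private theorem udef_AA {LU LX : FirstOrder.Language.{0, 0}} (a : LU.Relations 1) (r : ℕ)
    {α : Type} (t : (LV LU LX r).Term α) :
    UDef (LV LU LX r) α (fun M _ v => AA LX a r M (t.realize v)) := by
  refine (UDef.rel (L := LV LU LX r) (VR.u a) (fun _ : Fin 1 => t)).congr fun M _ v => ?_
  unfold AA
  rw [← fin1 (t.realize v)]

/-- The term `π_i x`. -/
private def tpj (LU LX : FirstOrder.Language.{0, 0}) {r : ℕ} {α : Type} (i : Fin (r + 1)) (x : α) :
    (LV LU LX r).Term α :=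
  Term.func (L := LV LU LX r) (VF.pi i) (fun _ => Term.var x)

private theorem realize_tpj {LU LX : FirstOrder.Language.{0, 0}} {r : ℕ} {α : Type}
    (i : Fin (r + 1)) (x : α) (M : Type) [(LV LU LX r).Structure M] (v : α → M) :
    (tpj LU LX i x).realize v = pj LU LX M i (v x) := by
  unfold pj
  rw [← fin1 (v x)]
  rfl

/-- The remaining axioms. -/
private structure Rest {LU : FirstOrder.Language.{0, 0}} (LX : FirstOrder.Language.{0, 0})
    (a : LU.Relations 1) (r : ℕ) (M : Type) [(LV LU LX r).Structure M] : Prop where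
  sub : ∀ x : M, AA LX a r M x → BB (LU := LU) (LX := LX) r M x
  mem : ∀ (i : Fin (r + 1)) (x : M), AA LX a r M (pj LU LX M i x)
  sur : ∀ z : Fin (r + 1) → M, (∀ i, AA LX a r M (z i)) → ∃ x : M, ∀ i, pj LU LX M i x = z i
  inj : ∀ x y : M, (∀ i : Fin (r + 1), pj LU LX M i x = pj LU LX M i y) → x = y

private theorem exists_rest {LU LX : FirstOrder.Language.{0, 0}} (a : LU.Relations 1) (r : ℕ) :
    ∃ φ : (LV LU LX r).Sentence, ∀ (M : Type) [(LV LU LX r).Structure M],
      φ.Realize M ↔ Rest LX a r M := by
  have h1 : UDef (LV LU LX r) Empty (fun M _ _ => ∀ x : M, AA LX a r M x →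
      BB (LU := LU) (LX := LX) r M x) := by
    refine UDef.allu (P := fun M _ _ x => AA LX a r M x → BB (LU := LU) (LX := LX) r M x) ?_
    exact (udef_AA a r (Term.var (Sum.inr ()))).imp ((udef_BB r).relabel fun _ => Sum.inr ())
  have h2 : UDef (LV LU LX r) Empty (fun M _ _ => ∀ (i : Fin (r + 1)) (x : M),
      AA LX a r M (pj LU LX M i x)) := by
    refine UDef.allFin (P := fun i M _ _ => ∀ x : M, AA LX a r M (pj LU LX M i x)) fun i => ?_
    refine UDef.allu (P := fun M _ _ x => AA LX a r M (pj LU LX M i x)) ?_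
    refine (udef_AA a r (tpj LU LX i (Sum.inr ()))).congr fun M _ v => ?_
    rw [realize_tpj]
  have h3 : UDef (LV LU LX r) Empty (fun M _ _ => ∀ z : Fin (r + 1) → M,
      (∀ i, AA LX a r M (z i)) → ∃ x : M, ∀ i, pj LU LX M i x = z i) := by
    refine UDef.all (β := Fin (r + 1)) (P := fun M _ _ z =>
      (∀ i, AA LX a r M (z i)) → ∃ x : M, ∀ i, pj LU LX M i x = z i) ?_
    refine UDef.imp ?_ ?_
    · exact UDef.allFin (P := fun i M _ v => AA LX a r M ((v ∘ Sum.inr) i))
        fun i => udef_AA a r (Term.var (Sum.inr i))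
    · refine UDef.exu (P := fun M _ v x => ∀ i, pj LU LX M i x = (v ∘ Sum.inr) i) ?_
      refine UDef.allFin (P := fun i M _ v =>
        pj LU LX M i (v (Sum.inr ())) = ((v ∘ Sum.inl) ∘ Sum.inr) i) fun i => ?_
      refine (UDef.termEq (tpj LU LX i (Sum.inr ()))
        (Term.var (Sum.inl (Sum.inr i)))).congr fun M _ v => ?_
      rw [realize_tpj]
      exact Iff.rfl
  have h4 : UDef (LV LU LX r) Empty (fun M _ _ => ∀ x y : M,
      (∀ i : Fin (r + 1), pj LU LX M i x = pj LU LX M i y) → x = y) := by
    refine UDef.allu (P := fun M _ _ x => ∀ y : M,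
      (∀ i : Fin (r + 1), pj LU LX M i x = pj LU LX M i y) → x = y) ?_
    refine UDef.allu (P := fun M _ v y =>
      (∀ i : Fin (r + 1), pj LU LX M i (v (Sum.inr ())) = pj LU LX M i y) →
        v (Sum.inr ()) = y) ?_
    refine UDef.imp ?_ ?_
    · refine UDef.allFin (P := fun i M _ v =>
        pj LU LX M i ((v ∘ Sum.inl) (Sum.inr ())) = pj LU LX M i (v (Sum.inr ()))) fun i => ?_
      refine (UDef.termEq (tpj LU LX i (Sum.inl (Sum.inr ())))
        (tpj LU LX i (Sum.inr ()))).congr fun M _ v => ?_
      rw [realize_tpj, realize_tpj]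
      exact Iff.rfl
    · exact UDef.varEq (Sum.inl (Sum.inr ())) (Sum.inr ())
  obtain ⟨φ, hφ⟩ := UDef.exists_sentence (h1.and (h2.and (h3.and h4)))
  refine ⟨φ, fun M _ => (hφ M).trans ?_⟩
  constructor
  · rintro ⟨g1, g2, g3, g4⟩
    exact ⟨g1, g2, g3, g4⟩
  · rintro ⟨g1, g2, g3, g4⟩
    exact ⟨g1, g2, g3, g4⟩

theorem spec_comp {LU LX : FirstOrder.Language.{0, 0}} (hU : ∀ n, IsEmpty (LU.Functions n))
    (hUf : Finite (Σ n, LU.Relations n)) (hX : ∀ n, IsEmpty (LX.Functions n))
    (hXf : Finite (Σ n, LX.Relations n)) (σ : LU.Sentence) (a : LU.Relations 1)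
    (χ : LX.Sentence) (g : ℕ → ℕ) (m₀ r : ℕ) (hm₀ : 1 ≤ m₀)
    (h1 : ∀ (U : Type) [LU.Structure U], Finite U → σ.Realize U →
      m₀ ≤ Nat.card {x : U // Structure.RelMap a ![x]} ∧
      Nat.card U = g (Nat.card {x : U // Structure.RelMap a ![x]}))
    (h2 : ∀ m, m₀ ≤ m → ∃ (U : Type) (_ : LU.Structure U), Finite U ∧ σ.Realize U ∧
      Nat.card {x : U // Structure.RelMap a ![x]} = m)
    (h3 : ∀ m, m₀ ≤ m → g m ≤ m ^ (r + 1)) :
    IsSpectrum {m | m₀ ≤ m ∧ g m ∈ Spec LX χ} := by
  obtain ⟨ψσ, hσ⟩ := interp (L' := LV LU LX r) hU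
    (fun M _ x => BB (LU := LU) (LX := LX) r M x) (udef_BB r)
    (fun n R M _ v => Structure.RelMap (L := LV LU LX r) (VR.u R) v)
    (fun n R => UDef.rel (L := LV LU LX r) (VR.u R) (fun i => Term.var i)) σ
  obtain ⟨ψχ, hχ⟩ := interp (L' := LV LU LX r) hX
    (fun M _ x => BB (LU := LU) (LX := LX) r M x) (udef_BB r)
    (fun n R M _ v => Structure.RelMap (L := LV LU LX r) (VR.c R) v)
    (fun n R => UDef.rel (L := LV LU LX r) (VR.c R) (fun i => Term.var i)) χ
  obtain ⟨ρ, hρ⟩ := exists_rest (LU := LU) (LX := LX) a r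
  have hfin := finVoc_LV (LU := LU) (LX := LX) r hUf hXf
  have key : {m | m₀ ≤ m ∧ g m ∈ Spec LX χ} =
      {m | 0 < m ∧ 1 * m ^ (r + 1) ∈ Spec (LV LU LX r) (ψσ ⊓ (ψχ ⊓ ρ))} := by
    ext m
    constructor
    · rintro ⟨hm, hpos, X, sX, hXc, hXr⟩
      have hm0 : 0 < m := by omega
      obtain ⟨U, sU, hUfin, hUr, hUa⟩ := h2 m hm
      obtain ⟨-, hUc⟩ := h1 U hUfin hUr
      rw [hUa] at hUc
      have hXfin : Finite X := Nat.finite_of_card_ne_zero (by omega)
      obtain ⟨f⟩ : Nonempty (X ≃ U) := Finite.card_eq.1 (hXc.trans hUc.symm)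
      let S : Type := {x : U // Structure.RelMap a ![x]}
      let K : Type := Fin (m ^ (r + 1) - g m)
      have hVc : Nat.card (U ⊕ K) = m ^ (r + 1) := by
        rw [Nat.card_sum, hUc, Nat.card_eq_fintype_card (α := K), Fintype.card_fin]
        have := h3 m hm
        omega
      have hSc : Nat.card (Fin (r + 1) → S) = m ^ (r + 1) := by
        rw [Nat.card_fun, Nat.card_eq_fintype_card (α := Fin (r + 1)), Fintype.card_fin]
        rw [show Nat.card S = m from hUa]
      obtain ⟨e⟩ : Nonempty (U ⊕ K ≃ (Fin (r + 1) → S)) := Finite.card_eq.1 (hVc.trans hSc.symm)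
      letI sV : (LV LU LX r).Structure (U ⊕ K) := vstr f (fun i x => (e x i).1)
      refine ⟨hm0, by positivity, U ⊕ K, sV, by rw [hVc, one_mul], ?_⟩
      -- the points of `U`
      let E : U ≃ {x : U ⊕ K // BB (LU := LU) (LX := LX) r (U ⊕ K) x} :=
        { toFun := fun x => ⟨Sum.inl x, ⟨x, rfl⟩⟩
          invFun := fun x => Exists.choose x.2
          left_inv := by
            intro x
            have h : ∃ y : U, (Sum.inl x : U ⊕ K) = Sum.inl y := ⟨x, rfl⟩
            have h4 : (Sum.inl x : U ⊕ K) = Sum.inl h.choose := h.choose_spec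
            exact (Sum.inl_injective h4).symm
          right_inv := by
            rintro ⟨x, hx⟩
            apply Subtype.ext
            exact (Exists.choose_spec hx).symm }
      have hE : ∀ x : U, (E x).1 = Sum.inl x := fun _ => rfl
      have g1 : ψσ.Realize (U ⊕ K) := by
        rw [hσ]
        refine (transfer hU E _ ?_ σ).1 hUr
        intro n R v
        constructor
        · rintro ⟨w, hw, hR⟩
          have : v = w := by
            funext i
            exact Sum.inl_injective (congrFun hw i)
          rw [this]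
          exact hR
        · intro hR
          exact ⟨v, rfl, hR⟩
      have g2 : ψχ.Realize (U ⊕ K) := by
        rw [hχ]
        refine (transfer hX (f.trans E) _ ?_ χ).1 hXr
        intro n R v
        constructor
        · rintro ⟨w, hw, hR⟩
          have : v = w := by
            funext i
            exact f.injective (Sum.inl_injective (congrFun hw i))
          rw [this]
          exact hR
        · intro hR
          exact ⟨v, rfl, hR⟩
      have hAA : ∀ x : U ⊕ K, AA LX a r (U ⊕ K) x ↔ ∃ y : S, x = Sum.inl y.1 := by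
        intro x
        constructor
        · rintro ⟨w, hw, hR⟩
          have e1 : w = ![w 0] := by
            funext i
            rw [Subsingleton.elim i 0]
            rfl
          rw [e1] at hR
          exact ⟨⟨w 0, hR⟩, congrFun hw 0⟩
        · rintro ⟨y, rfl⟩
          refine ⟨![y.1], ?_, y.2⟩
          funext i
          rw [Subsingleton.elim i 0]
          rfl
      have hpj : ∀ (i : Fin (r + 1)) (x : U ⊕ K),
          pj LU LX (U ⊕ K) i x = Sum.inl (e x i).1 := fun _ _ => rfl
      have g3 : Rest LX a r (U ⊕ K) := by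
        refine ⟨?_, ?_, ?_, ?_⟩
        · intro x hx
          obtain ⟨y, rfl⟩ := (hAA x).1 hx
          exact ⟨y.1, rfl⟩
        · intro i x
          rw [hAA]
          exact ⟨e x i, hpj i x⟩
        · intro z hz
          choose y hy using fun i => (hAA (z i)).1 (hz i)
          refine ⟨e.symm y, fun i => ?_⟩
          rw [hpj, Equiv.apply_symm_apply, hy]
        · intro x y hxy
          apply e.injective
          funext i
          apply Subtype.ext
          have := hxy i
          rw [hpj, hpj] at this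
          exact Sum.inl_injective this
      exact BoundedFormula.realize_inf.2 ⟨g1, BoundedFormula.realize_inf.2 ⟨g2, (hρ _).2 g3⟩⟩
    · rintro ⟨hm0, hpos, M, sM, hMc, hMr⟩
      obtain ⟨g1, g23⟩ := BoundedFormula.realize_inf.1 hMr
      obtain ⟨g2, g3⟩ := BoundedFormula.realize_inf.1 g23
      have g1' := (hσ M).1 g1
      have g2' := (hχ M).1 g2
      have g3' := (hρ M).1 g3
      have hMfin : Finite M := Nat.finite_of_card_ne_zero (by omega)
      letI sU : LU.Structure {x : M // BB (LU := LU) (LX := LX) r M x} :=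
        istr hU fun n R v => Structure.RelMap (L := LV LU LX r) (VR.u R) fun i => (v i).1
      obtain ⟨k1, k2⟩ := h1 {x : M // BB (LU := LU) (LX := LX) r M x} inferInstance g1'
      -- the marked points
      have e1 : {x : {x : M // BB (LU := LU) (LX := LX) r M x} // Structure.RelMap a ![x]} ≃
          {x : M // AA LX a r M x} :=
        { toFun := fun x => ⟨x.1.1, by
            have h := x.2
            have e2 : (fun i => ((![x.1] : Fin 1 → {x : M // BB (LU := LU) (LX := LX) r M x}) i).1) =
                ![x.1.1] := by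
              funext i
              rw [Subsingleton.elim i 0]
              rfl
            unfold AA
            rw [← e2]
            exact h⟩
          invFun := fun x => ⟨⟨x.1, g3'.sub x.1 x.2⟩, by
            have h := x.2
            have e2 : (fun i => ((![⟨x.1, g3'.sub x.1 x.2⟩] :
                Fin 1 → {x : M // BB (LU := LU) (LX := LX) r M x}) i).1) = ![x.1] := by
              funext i
              rw [Subsingleton.elim i 0]
              rfl
            unfold AA at h
            rw [← e2] at h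
            exact h⟩
          left_inv := fun _ => rfl
          right_inv := fun _ => rfl }
      have e3 : M ≃ (Fin (r + 1) → {x : M // AA LX a r M x}) :=
        Equiv.ofBijective (fun x i => ⟨pj LU LX M i x, g3'.mem i x⟩) (by
          constructor
          · intro x y hxy
            apply g3'.inj
            intro i
            exact congrArg Subtype.val (congrFun hxy i)
          · intro z
            obtain ⟨x, hx⟩ := g3'.sur (fun i => (z i).1) (fun i => (z i).2)
            refine ⟨x, ?_⟩
            funext i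
            exact Subtype.ext (hx i))
      have hc1 := Nat.card_congr e1
      have hc3 := Nat.card_congr e3
      rw [Nat.card_fun, Nat.card_eq_fintype_card (α := Fin (r + 1)), Fintype.card_fin, ← hc1,
        hMc, one_mul] at hc3
      have hm : m = Nat.card {x : {x : M // BB (LU := LU) (LX := LX) r M x} //
          Structure.RelMap a ![x]} := Nat.pow_left_injective (Nat.succ_ne_zero r) hc3
      rw [← hm] at k1 k2
      refine ⟨k1, ?_, {x : M // BB (LU := LU) (LX := LX) r M x}, _, k2, g2'⟩
      rw [← k2]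
      have hne : Nonempty {x : {x : M // BB (LU := LU) (LX := LX) r M x} //
          Structure.RelMap a ![x]} := by
        by_contra hcon
        rw [not_nonempty_iff] at hcon
        have : m = 0 := by rw [hm, Nat.card_of_isEmpty]
        omega
      obtain ⟨x⟩ := hne
      have : Nonempty {x : M // BB (LU := LU) (LX := LX) r M x} := ⟨x.1⟩
      exact Nat.card_pos
  rw [key]
  exact decode hfin _ r 1 le_rfl

end Pool.Agent.Helper72.WT
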