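import Mathlib

set_option autoImplicit false

/-! The tree-depth of a relational structure. -/

namespace Pool.Agent.Helper72.WT

open FirstOrder FirstOrder.Language

/-- `M` has tree-depth at most `d`: there is a rooted forest on `M` (`F x` = the set of the
ancestors of `x`, including `x`) in which every point has at most `d` ancestors, such that any two
points that occur in a tuple of a relation are ancestor and descendant. -/
def TreeDepthLE (L : FirstOrder.Language.{0, 0}) (M : Type) [L.Structure M] (d : ℕ) : Prop :=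
  ∃ F : M → Set M, (∀ x, x ∈ F x) ∧ (∀ x, ∀ y ∈ F x, F y ⊆ F x) ∧
    (∀ x, ∀ y ∈ F x, x ∈ F y → x = y) ∧ (∀ x, ∀ y ∈ F x, ∀ z ∈ F x, y ∈ F z ∨ z ∈ F y) ∧
    (∀ x, Finite (F x) ∧ Nat.card (F x) ≤ d) ∧
    ∀ (n : ℕ) (R : L.Relations n) (v : Fin n → M), Structure.RelMap R v →
      ∀ i j, v i ∈ F (v j) ∨ v j ∈ F (v i)

end Pool.Agent.Helper72.WT
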