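import Mathlib
import Pool.Agent.Helper72.WT.TDDef
import Pool.Agent.Helper72.WT.ULang

set_option autoImplicit false

/-! WT-11: the tree-depth of encoded structures. -/

namespace Pool.Agent.Helper72.WT

open FirstOrder FirstOrder.Language

variable {s : Sg} {H : ℕ} {U : Type}

/-- the rank of a kind -/
def rk (s : Sg) (H : ℕ) : Kd s H → ℕ
  | Sum.inl j => j
  | Sum.inr (Sum.inl _) => H + 1
  | Sum.inr (Sum.inr _) => H + 2

/-- the rank of a point -/
noncomputable def rank {A : Rw s H U} (hA : A.Ax) (x : U) : ℕ := rk s H (hA.kind x).choose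

lemma rank_eq {A : Rw s H U} (hA : A.Ax) {x : U} {q : Kd s H} (h : A.kd q x) :
    rank hA x = rk s H q := by
  unfold rank
  rw [(hA.kind x).unique (hA.kind x).choose_spec.1 h]

lemma rank_lv {A : Rw s H U} (hA : A.Ax) {x : U} {j : ℕ} (h : A.Lv j x) : rank hA x = j := by
  rcases h with ⟨hj, h⟩ | ⟨rfl, κ, i, h⟩
  · exact rank_eq hA (q := Sum.inl ⟨j, hj⟩) h
  · exact rank_eq hA (q := Sum.inr (Sum.inl ⟨κ, i⟩)) h

lemma lv_rank {A : Rw s H U} (hA : A.Ax) {x : U} {j : ℕ} (hj : j ≤ H + 1) (h : rank hA x = j) :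
    A.Lv j x := by
  obtain ⟨q, hq, -⟩ := hA.kind x
  rw [rank_eq hA hq] at h
  rcases q with i | p | κ
  · left
    change (i : ℕ) = j at h
    exact ⟨h ▸ i.2, by subst h; exact hq⟩
  · right
    exact ⟨h.symm, p.1, p.2, hq⟩
  · change H + 2 = j at h
    omega

lemma rank_le {A : Rw s H U} (hA : A.Ax) (x : U) : rank hA x ≤ H + 2 := by
  obtain ⟨q, hq, -⟩ := hA.kind x
  rw [rank_eq hA hq]
  rcases q with i | p | κ
  · have := i.2
    show (i : ℕ) ≤ H + 2
    omega
  · show H + 1 ≤ H + 2
    omega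
  · exact le_rfl

/-- the parent has the next rank, and ranks of points with parents are positive -/
lemma rank_par {A : Rw s H U} (hA : A.Ax) {x y : U} (h : A.par y x) :
    rank hA x = rank hA y + 1 ∧ 1 ≤ rank hA y := by
  rcases hA.par_lv y x h with ⟨j, h1, h2, h3, h4⟩ | ⟨κ, i, h1, h2⟩
  · rw [rank_lv hA h3, rank_lv hA h4]
    exact ⟨rfl, h1⟩
  · have e1 := rank_eq hA (q := Sum.inr (Sum.inl ⟨κ, i⟩)) (x := y) h1
    have e2 := rank_eq hA (q := Sum.inr (Sum.inr κ)) (x := x) h2
    rw [e1, e2]
    exact ⟨rfl, Nat.le_add_left 1 H⟩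

lemma par_unique {A : Rw s H U} (hA : A.Ax) {x x' y : U} (h : A.par y x) (h' : A.par y x') :
    x = x' := by
  have h1 := rank_par hA h
  have h2 := rank_le hA x
  exact (hA.par_ex (rank hA y) h1.2 (by omega) y (lv_rank hA (by omega) rfl)).unique h h'

/-- the ancestors of a point -/
def Rw.An (A : Rw s H U) (x : U) : Set U := {y | Relation.ReflTransGen A.par x y}

lemma rank_An {A : Rw s H U} (hA : A.Ax) {x y : U} (h : y ∈ A.An x) :
    rank hA x ≤ rank hA y ∧ (rank hA x = rank hA y → x = y) ∧ (x ≠ y → 1 ≤ rank hA x) := by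
  induction h with
  | refl => exact ⟨le_rfl, fun _ => rfl, fun h => absurd rfl h⟩
  | @tail b c hab hbc ih =>
    have h1 := rank_par hA hbc
    refine ⟨by omega, fun h => by omega, fun _ => ?_⟩
    by_cases hxb : x = b
    · rw [hxb]; exact h1.2
    · exact ih.2.2 hxb

lemma An_total {A : Rw s H U} (hA : A.Ax) {x y z : U} (hy : y ∈ A.An x) (hz : z ∈ A.An x) :
    y ∈ A.An z ∨ z ∈ A.An y := by
  refine (Relation.ReflTransGen.total_of_right_unique ?_ hy hz).symm
  intro a b c hab hac
  exact par_unique hA hab hac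

lemma An_ncard {A : Rw s H U} (hA : A.Ax) {x : U} (hx : 1 ≤ rank hA x) :
    Finite (A.An x) ∧ Nat.card (A.An x) ≤ H + 2 := by
  have hinj : Function.Injective (fun y : A.An x => (⟨rank hA y.1 - 1, by
      have := rank_le hA y.1; omega⟩ : Fin (H + 2))) := by
    rintro ⟨y, hy⟩ ⟨z, hz⟩ h
    have h1 : rank hA y - 1 = rank hA z - 1 := congrArg Fin.val h
    have h2 := (rank_An hA hy).1
    have h3 := (rank_An hA hz).1
    refine Subtype.ext ?_
    rcases An_total hA hy hz with h4 | h4
    · exact ((rank_An hA h4).2.1 (by omega)).symm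
    · exact (rank_An hA h4).2.1 (by omega)
  refine ⟨Finite.of_injective _ hinj, ?_⟩
  have := Nat.card_le_card_of_injective _ hinj
  rwa [Nat.card_eq_fintype_card (α := Fin (H + 2)), Fintype.card_fin] at this

theorem tdepth_U (s : Sg) (H : ℕ) (U : Type) [(LU s H).Structure U] [Finite U]
    (hA : (toRw s H U).Ax) {k : ℕ} (hk : Nat.card {x : U // (toRw s H U).Lv 0 x} = k) :
    TreeDepthLE (LU s H) U (k + (H + 2)) := by
  classical
  set A := toRw s H U with hAdef
  have hfW : Finite {x : U // A.Lv 0 x} := inferInstance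
  have e : {x : U // A.Lv 0 x} ≃ Fin k := (Finite.equivFin _).trans (finCongr hk)
  -- the number of a base point
  let f : U → ℕ := fun x => if h : A.Lv 0 x then (e ⟨x, h⟩ : ℕ) else 0
  have hf : ∀ x y, A.Lv 0 x → A.Lv 0 y → f x = f y → x = y := by
    intro x y hx hy h
    simp only [f, dif_pos hx, dif_pos hy] at h
    exact congrArg Subtype.val (e.injective (Fin.ext h))
  have h0 : ∀ x, A.Lv 0 x ↔ rank hA x = 0 := fun x =>
    ⟨fun h => rank_lv hA h, fun h => lv_rank hA (by omega) h⟩
  let F : U → Set U := fun x => if A.Lv 0 x then {y | A.Lv 0 y ∧ f y ≤ f x} else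
    {y | A.Lv 0 y} ∪ A.An x
  have hF0 : ∀ x, A.Lv 0 x → F x = {y | A.Lv 0 y ∧ f y ≤ f x} := fun x hx => if_pos hx
  have hF1 : ∀ x, ¬ A.Lv 0 x → F x = {y | A.Lv 0 y} ∪ A.An x := fun x hx => if_neg hx
  have hpos : ∀ x y, y ∈ A.An x → ¬ A.Lv 0 x → ¬ A.Lv 0 y := by
    intro x y hy hx h
    rw [h0] at hx h
    have := (rank_An hA hy).1
    omega
  refine ⟨F, ?_, ?_, ?_, ?_, ?_, ?_⟩
  · intro x
    by_cases hx : A.Lv 0 x
    · rw [hF0 x hx]; exact ⟨hx, le_rfl⟩
    · rw [hF1 x hx]; exact Or.inr Relation.ReflTransGen.refl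
  · intro x y hy
    by_cases hx : A.Lv 0 x
    · rw [hF0 x hx] at hy ⊢
      rw [hF0 y hy.1]
      exact fun z hz => ⟨hz.1, hz.2.trans hy.2⟩
    · rw [hF1 x hx] at hy ⊢
      by_cases hy0 : A.Lv 0 y
      · rw [hF0 y hy0]
        exact fun z hz => Or.inl hz.1
      · rw [hF1 y hy0]
        rcases hy with hy | hy
        · exact absurd hy hy0
        · rintro z (hz | hz)
          · exact Or.inl hz
          · exact Or.inr (Relation.ReflTransGen.trans hy hz)
  · intro x y hy hxy
    by_cases hx : A.Lv 0 x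
    · rw [hF0 x hx] at hy
      rw [hF0 y hy.1] at hxy
      exact hf x y hx hy.1 (le_antisymm hxy.2 hy.2)
    · by_cases hy0 : A.Lv 0 y
      · rw [hF0 y hy0] at hxy
        exact absurd hxy.1 hx
      · rw [hF1 x hx] at hy
        rw [hF1 y hy0] at hxy
        rcases hy with hy | hy
        · exact absurd hy hy0
        · rcases hxy with hxy | hxy
          · exact absurd hxy hx
          · have h1 := rank_An hA hy
            have h2 := rank_An hA hxy
            exact h1.2.1 (le_antisymm h1.1 h2.1)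
  · intro x y hy z hz
    by_cases hx : A.Lv 0 x
    · rw [hF0 x hx] at hy hz
      rcases le_total (f y) (f z) with h | h
      · left; rw [hF0 z hz.1]; exact ⟨hy.1, h⟩
      · right; rw [hF0 y hy.1]; exact ⟨hz.1, h⟩
    · rw [hF1 x hx] at hy hz
      by_cases hy0 : A.Lv 0 y
      · by_cases hz0 : A.Lv 0 z
        · rcases le_total (f y) (f z) with h | h
          · left; rw [hF0 z hz0]; exact ⟨hy0, h⟩
          · right; rw [hF0 y hy0]; exact ⟨hz0, h⟩
        · left; rw [hF1 z hz0]; exact Or.inl hy0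
      · by_cases hz0 : A.Lv 0 z
        · right; rw [hF1 y hy0]; exact Or.inl hz0
        · have hy' : y ∈ A.An x := hy.resolve_left hy0
          have hz' : z ∈ A.An x := hz.resolve_left hz0
          rcases An_total hA hy' hz' with h | h
          · left; rw [hF1 z hz0]; exact Or.inr h
          · right; rw [hF1 y hy0]; exact Or.inr h
  · intro x
    refine ⟨inferInstance, ?_⟩
    have hW : Nat.card {y : U | A.Lv 0 y} = k := hk
    by_cases hx : A.Lv 0 x
    · rw [hF0 x hx]
      have h1 : Nat.card {y : U | A.Lv 0 y ∧ f y ≤ f x} ≤ Nat.card {y : U | A.Lv 0 y} :=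
        Nat.card_mono (Set.toFinite _) fun y hy => hy.1
      omega
    · rw [hF1 x hx]
      have h1 : Nat.card ({y : U | A.Lv 0 y} ∪ A.An x : Set U) ≤
          Nat.card {y : U | A.Lv 0 y} + Nat.card (A.An x) := by
        have := Set.ncard_union_le {y : U | A.Lv 0 y} (A.An x)
        exact this
      have hx1 : 1 ≤ rank hA x := by
        rw [h0] at hx
        omega
      have h2 := (An_ncard hA hx1).2
      omega
  · intro n R v hR
    have key : ∀ x y, A.par y x → x ∈ F y := by
      intro x y h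
      have h1 := rank_par hA h
      have hy : ¬ A.Lv 0 y := by rw [h0]; omega
      rw [hF1 y hy]
      exact Or.inr (Relation.ReflTransGen.single h)
    have key2 : ∀ x w, A.e x w → w ∈ F x := by
      intro x w h
      obtain ⟨h1, h2⟩ := hA.he x w h
      have hx : ¬ A.Lv 0 x := by rw [h0, rank_lv hA h1]; omega
      rw [hF1 x hx]
      exact Or.inl h2
    have hself : ∀ x, x ∈ F x := by
      intro x
      by_cases hx : A.Lv 0 x
      · rw [hF0 x hx]; exact ⟨hx, le_rfl⟩
      · rw [hF1 x hx]; exact Or.inr Relation.ReflTransGen.refl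
    have hun : ∀ (v : Fin 1 → U) (i j : Fin 1), v i ∈ F (v j) ∨ v j ∈ F (v i) := by
      intro v i j
      rw [Subsingleton.elim i j]
      exact Or.inl (hself _)
    have hbin : ∀ v : Fin 2 → U, (v 0 ∈ F (v 1) ∨ v 1 ∈ F (v 0)) →
        ∀ i j, v i ∈ F (v j) ∨ v j ∈ F (v i) := by
      intro v h i j
      fin_cases i <;> fin_cases j
      · exact Or.inl (hself _)
      · exact h
      · exact h.symm
      · exact Or.inl (hself _)
    have hv2 : ∀ v : Fin 2 → U, ![v 0, v 1] = v := by
      intro v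
      funext i
      fin_cases i <;> rfl
    cases R with
    | lv j => exact hun v
    | top κ i => exact hun v
    | cell κ => exact hun v
    | z => exact hun v
    | mar => exact hun v
    | par =>
      refine hbin v (Or.inr (key (v 1) (v 0) ?_))
      show Structure.RelMap (L := LU s H) UR.par ![v 0, v 1]
      rw [hv2]
      exact hR
    | e =>
      refine hbin v (Or.inr (key2 (v 0) (v 1) ?_))
      show Structure.RelMap (L := LU s H) UR.e ![v 0, v 1]
      rw [hv2]
      exact hR

end Pool.Agent.Helper72.WT
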