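import Mathlib
import Pool.Agent.Helper72.WT.Defs
import Pool.Agent.Helper72.WT.ULang

set_option autoImplicit false

/-!
# WT-8: the width of encoded structures

Only the relations `par` and `e` are binary. Call `X ⊆ U` good if (a) `par y x`, `x ∈ X` imply `y ∈ X`; (b) there is `v₀` with
`par u v → v = v₀` for all `u ∈ X`, `v ∉ X`; (c) `X` contains no base points (`Lv 0`) or all points of `Lv 1`.
A good set has `CutIndexLE _ _ (2 ^ (k + 1)) X`: the label of `u` is the pair (set of the base points `w` with `e u w`,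
truth value of `∃ v ∉ X, par u v`); `2 ^ k * 2` labels, injected into `Fin`. (Unary relations: `i ≠ j` is impossible.)
Subtrees: `S x` = the set of the `y` with `Relation.ReflTransGen par y x`. By induction (children of nodes of level `j + 1`
have level `j`, children of cells are top nodes, base points and nodes of level `1` have no children, by `par_lv` and `kind`)
`Built _ _ _ (S x)` for all points `x` which are not base points: for `s ⊆` children of `x` (finite set) the union of the `S y`,
`y ∈ s`, is good with `v₀ = x` (disjoint because parents are unique) and built, then add `x`: `S x` is good, `v₀` = the parent of `x`.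
Then the union of the `S c` for a finite set of cells `c`, all cells: every point other than the base points is in exactly
one `S c`; then add the base points one by one (sets containing all of `Lv 1`). Since `U` is nonempty the start is `Built.point`.
-/

namespace Pool.Agent.Helper72.WT

open FirstOrder FirstOrder.Language
open Pool.Agent.Helper32.Pump

section

variable {s : Sg} {H : ℕ} {U : Type}

/-- rank of a kind -/
private def uwKr : Kd s H → ℕ
  | Sum.inl j => j.val
  | Sum.inr (Sum.inl _) => H + 1
  | Sum.inr (Sum.inr _) => H + 2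

/-- rank of a point -/
private noncomputable def uwRk {A : Rw s H U} (hA : A.Ax) (x : U) : ℕ :=
  uwKr (hA.kind x).exists.choose

private lemma uwRk_of {A : Rw s H U} (hA : A.Ax) {x : U} {q : Kd s H} (h : A.kd q x) :
    uwRk hA x = uwKr q := by
  unfold uwRk
  rw [(hA.kind x).unique (hA.kind x).exists.choose_spec h]

private lemma uwRk_Lv {A : Rw s H U} (hA : A.Ax) {x : U} {j : ℕ} (h : A.Lv j x) :
    uwRk hA x = j := by
  rcases h with ⟨hj, h⟩ | ⟨hj, κ, i, h⟩
  · exact uwRk_of hA (q := Sum.inl ⟨j, hj⟩) h
  · rw [hj]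
    exact uwRk_of hA (q := Sum.inr (Sum.inl ⟨κ, i⟩)) h

private lemma uwRk_cell {A : Rw s H U} (hA : A.Ax) {x : U} {κ : s.ι} (h : A.cell κ x) :
    uwRk hA x = H + 2 :=
  uwRk_of hA (q := Sum.inr (Sum.inr κ)) h

private lemma uwRk_cases {A : Rw s H U} (hA : A.Ax) (x : U) :
    A.Lv (uwRk hA x) x ∧ uwRk hA x ≤ H + 1 ∨ ∃ κ, A.cell κ x := by
  obtain ⟨q, hq, _⟩ := hA.kind x
  have h1 := uwRk_of hA hq
  rcases q with j | ⟨κ, i⟩ | κ
  · left
    have h2 : uwRk hA x = j.val := h1
    rw [h2]
    exact ⟨Or.inl ⟨j.2, hq⟩, by omega⟩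
  · left
    have h2 : uwRk hA x = H + 1 := h1
    rw [h2]
    exact ⟨Or.inr ⟨rfl, κ, i, hq⟩, le_refl _⟩
  · right
    exact ⟨κ, hq⟩

private lemma uw_par {A : Rw s H U} (hA : A.Ax) {y x : U} (h : A.par y x) :
    uwRk hA x = uwRk hA y + 1 ∧ 1 ≤ uwRk hA y := by
  rcases hA.par_lv y x h with ⟨j, h1, _, h3, h4⟩ | ⟨κ, i, h1, h2⟩
  · rw [uwRk_Lv hA h3, uwRk_Lv hA h4]
    exact ⟨rfl, h1⟩
  · rw [uwRk_Lv hA (j := H + 1) (Or.inr ⟨rfl, κ, i, h1⟩), uwRk_cell hA h2]
    exact ⟨rfl, by omega⟩

private lemma uw_uniq {A : Rw s H U} (hA : A.Ax) {y x x' : U} (h : A.par y x)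
    (h' : A.par y x') : x = x' := by
  rcases hA.par_lv y x h with ⟨j, h1, h2, h3, _⟩ | ⟨κ, i, h1, _⟩
  · exact (hA.par_ex j h1 (by omega) y h3).unique h h'
  · exact (hA.par_ex (H + 1) (by omega) (le_refl _) y (Or.inr ⟨rfl, κ, i, h1⟩)).unique h h'

private lemma uw_rtg {A : Rw s H U} (hA : A.Ax) {a b : U} (h : Relation.ReflTransGen A.par a b) :
    a = b ∨ uwRk hA a < uwRk hA b := by
  induction h with
  | refl => exact Or.inl rfl
  | tail _ h2 ih =>
    right
    have h3 := uw_par hA h2
    rcases ih with ih | ih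
    · rw [ih]
      omega
    · omega

private lemma uw_meet {A : Rw s H U} (hA : A.Ax) {z a b : U}
    (h1 : Relation.ReflTransGen A.par z a) (h2 : Relation.ReflTransGen A.par z b)
    (h : uwRk hA a = uwRk hA b) : a = b := by
  have hru : Relator.RightUnique A.par := fun y x x' hx hx' => uw_uniq hA hx hx'
  rcases Relation.ReflTransGen.total_of_right_unique hru h1 h2 with h3 | h3
  · rcases uw_rtg hA h3 with h4 | h4
    · exact h4
    · omega
  · rcases uw_rtg hA h3 with h4 | h4
    · exact h4.symm
    · omega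

/-- the subtree of `x` -/
private def uwS (A : Rw s H U) (x : U) : Set U := {y | Relation.ReflTransGen A.par y x}

/-- good sets -/
private structure UwGood (A : Rw s H U) (X : Set U) : Prop where
  a : ∀ x ∈ X, ∀ y, A.par y x → y ∈ X
  b : ∃ v0, ∀ u ∈ X, ∀ v, v ∉ X → A.par u v → v = v0
  c : (∀ x ∈ X, ¬ A.Lv 0 x) ∨ ∀ x, A.Lv 1 x → x ∈ X

private lemma uw_S_closed {A : Rw s H U} {x u y : U} (hu : u ∈ uwS A x) (h : A.par y u) :
    y ∈ uwS A x := Relation.ReflTransGen.head h hu

private lemma uw_S_up {A : Rw s H U} (hA : A.Ax) {x u v : U} (hu : u ∈ uwS A x)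
    (h : A.par u v) : u = x ∨ v ∈ uwS A x := by
  rcases Relation.ReflTransGen.cases_head hu with h1 | ⟨w, h1, h2⟩
  · exact Or.inl h1
  · right
    rw [uw_uniq hA h h1]
    exact h2

private lemma uw_S_rk {A : Rw s H U} (hA : A.Ax) {x u : U} (hu : u ∈ uwS A x)
    (hx : 1 ≤ uwRk hA x) : 1 ≤ uwRk hA u := by
  rcases Relation.ReflTransGen.cases_head hu with h1 | ⟨w, h1, _⟩
  · rw [h1]
    exact hx
  · exact (uw_par hA h1).2

private lemma uw_nb {A : Rw s H U} (hA : A.Ax) {x : U} (hx : 1 ≤ uwRk hA x) : ¬ A.Lv 0 x := by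
  intro h
  rw [uwRk_Lv hA h] at hx
  omega

private lemma uw_good_S {A : Rw s H U} (hA : A.Ax) {x : U} (hx : 1 ≤ uwRk hA x) :
    UwGood A (uwS A x) := by
  refine ⟨fun u hu y hy => uw_S_closed hu hy, ?_, Or.inl fun u hu => uw_nb hA (uw_S_rk hA hu hx)⟩
  by_cases hp : ∃ p, A.par x p
  · obtain ⟨p, hp⟩ := hp
    refine ⟨p, fun u hu v hv huv => ?_⟩
    rcases uw_S_up hA hu huv with h | h
    · rw [h] at huv
      exact uw_uniq hA huv hp
    · exact absurd h hv
  · refine ⟨x, fun u hu v hv huv => ?_⟩
    rcases uw_S_up hA hu huv with h | h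
    · rw [h] at huv
      exact absurd ⟨v, huv⟩ hp
    · exact absurd h hv

/-- the union of the subtrees of the elements of `t` -/
private def uwT (A : Rw s H U) (t : Set U) : Set U := {y | ∃ x ∈ t, y ∈ uwS A x}

private lemma uw_good_T {A : Rw s H U} (hA : A.Ax) {t : Set U} (ht : ∀ x ∈ t, 1 ≤ uwRk hA x)
    (v0 : U) (hv : ∀ x ∈ t, ∀ v, A.par x v → v = v0) : UwGood A (uwT A t) := by
  refine ⟨?_, ⟨v0, ?_⟩, Or.inl ?_⟩
  · rintro u ⟨x, hx, hu⟩ y hy
    exact ⟨x, hx, uw_S_closed hu hy⟩
  · rintro u ⟨x, hx, hu⟩ v hvT huv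
    rcases uw_S_up hA hu huv with h | h
    · rw [h] at huv
      exact hv x hx v huv
    · exact absurd ⟨x, hx, h⟩ hvT
  · rintro u ⟨x, hx, hu⟩
    exact uw_nb hA (uw_S_rk hA hu (ht x hx))

end

section

variable (s : Sg) (H : ℕ) (U : Type) [(LU s H).Structure U] [Finite U]

private lemma uw_cut (hA : (toRw s H U).Ax) {k : ℕ}
    (hk : Nat.card {x : U // (toRw s H U).Lv 0 x} = k) {X : Set U}
    (hX : UwGood (toRw s H U) X) : CutIndexLE (LU s H) U (2 ^ (k + 1)) X := by
  set A := toRw s H U with hAdef
  have hcard : Nat.card (Set {x : U // A.Lv 0 x} × Prop) = 2 ^ (k + 1) := by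
    rw [Nat.card_prod, Nat.card_eq_fintype_card (α := Prop), Fintype.card_prop]
    have h1 : Nat.card (Set {x : U // A.Lv 0 x}) = 2 ^ k := by
      rw [← hk]
      have := Fintype.ofFinite {x : U // A.Lv 0 x}
      classical
      rw [Nat.card_eq_fintype_card, Nat.card_eq_fintype_card, Fintype.card_set]
    rw [h1, pow_succ]
  have e := Finite.equivFinOfCardEq hcard
  refine ⟨fun u => e ({w | A.e u w.1}, ∃ v, v ∉ X ∧ A.par u v), ?_⟩
  intro u hu u' hu' hc n R x i j hij hxj
  have h1 := e.injective hc
  have h2 : {w : {x : U // A.Lv 0 x} | A.e u w.1} = {w | A.e u' w.1} := congrArg Prod.fst h1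
  have h3 : (∃ v, v ∉ X ∧ A.par u v) = (∃ v, v ∉ X ∧ A.par u' v) := congrArg Prod.snd h1
  have he : ∀ w, A.e u w ↔ A.e u' w := by
    intro w
    by_cases hw : A.Lv 0 w
    · have := Set.ext_iff.1 h2 ⟨w, hw⟩
      exact this
    · constructor
      · intro h
        exact absurd (hA.he u w h).2 hw
      · intro h
        exact absurd (hA.he u' w h).2 hw
  have hp : ∀ a a' : U, a ∈ X → a' ∈ X →
      (∃ v, v ∉ X ∧ A.par a v) = (∃ v, v ∉ X ∧ A.par a' v) →
      ∀ w, w ∉ X → A.par a w → A.par a' w := by
    intro a a' ha ha' haa w hw h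
    obtain ⟨v0, hv0⟩ := hX.b
    have h4 : ∃ v, v ∉ X ∧ A.par a' v := haa ▸ ⟨w, hw, h⟩
    obtain ⟨v, hv, hav⟩ := h4
    rw [hv0 a ha w hw h, ← hv0 a' ha' v hv hav]
    exact hav
  have unary : ∀ (R : (LU s H).Relations 1) (x : Fin 1 → U) (i j : Fin 1), i ≠ j → x j ∉ X →
      (Structure.RelMap R (Function.update x i u) ↔
        Structure.RelMap R (Function.update x i u')) :=
    fun R x i j hij _ => absurd (Subsingleton.elim i j) hij
  have up0 : ∀ (x : Fin 2 → U) (a : U), Function.update x 0 a = ![a, x 1] := by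
    intro x a
    funext l
    fin_cases l <;> simp
  have up1 : ∀ (x : Fin 2 → U) (a : U), Function.update x 1 a = ![x 0, a] := by
    intro x a
    funext l
    fin_cases l <;> simp
  cases R with
  | lv q => exact unary (UR.lv q) x i j hij hxj
  | top κ q => exact unary (UR.top κ q) x i j hij hxj
  | cell κ => exact unary (UR.cell κ) x i j hij hxj
  | z => exact unary UR.z x i j hij hxj
  | mar => exact unary UR.mar x i j hij hxj
  | par =>
    fin_cases i
    · have hj : j = 1 := by
        fin_cases j
        · exact absurd rfl hij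
        · rfl
      subst hj
      show Structure.RelMap (L := LU s H) UR.par (Function.update x 0 u) ↔
        Structure.RelMap (L := LU s H) UR.par (Function.update x 0 u')
      rw [up0, up0]
      exact ⟨hp u u' hu hu' h3 (x 1) hxj, hp u' u hu' hu h3.symm (x 1) hxj⟩
    · have hj : j = 0 := by
        fin_cases j
        · rfl
        · exact absurd rfl hij
      subst hj
      show Structure.RelMap (L := LU s H) UR.par (Function.update x 1 u) ↔
        Structure.RelMap (L := LU s H) UR.par (Function.update x 1 u')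
      rw [up1, up1]
      constructor
      · intro h
        exact absurd (hX.a u hu (x 0) h) hxj
      · intro h
        exact absurd (hX.a u' hu' (x 0) h) hxj
  | e =>
    fin_cases i
    · have hj : j = 1 := by
        fin_cases j
        · exact absurd rfl hij
        · rfl
      subst hj
      show Structure.RelMap (L := LU s H) UR.e (Function.update x 0 u) ↔
        Structure.RelMap (L := LU s H) UR.e (Function.update x 0 u')
      rw [up0, up0]
      exact he (x 1)
    · have hj : j = 0 := by
        fin_cases j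
        · rfl
        · exact absurd rfl hij
      subst hj
      show Structure.RelMap (L := LU s H) UR.e (Function.update x 1 u) ↔
        Structure.RelMap (L := LU s H) UR.e (Function.update x 1 u')
      rw [up1, up1]
      have key : ∀ a : U, a ∈ X → ¬ A.e (x 0) a := by
        intro a ha h
        obtain ⟨h5, h6⟩ := hA.he (x 0) a h
        rcases hX.c with h7 | h7
        · exact h7 a ha h6
        · exact hxj (h7 (x 0) h5)
      exact ⟨fun h => absurd h (key u hu), fun h => absurd h (key u' hu')⟩

private lemma uw_built_T (hA : (toRw s H U).Ax) {k : ℕ}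
    (hk : Nat.card {x : U // (toRw s H U).Lv 0 x} = k) (r : ℕ) (hr : 1 ≤ r) (v0 : U)
    (hS : ∀ x, uwRk hA x = r → Built (LU s H) U (2 ^ (k + 1)) (uwS (toRw s H U) x)) :
    ∀ t : Finset U, t.Nonempty → (∀ x ∈ t, uwRk hA x = r) →
      (∀ x ∈ t, ∀ v, (toRw s H U).par x v → v = v0) →
      Built (LU s H) U (2 ^ (k + 1)) (uwT (toRw s H U) (t : Set U)) := by
  classical
  intro t
  induction t using Finset.induction_on with
  | empty => intro h; exact absurd h (by simp)
  | insert a t ha ih =>
    intro _ h1 h2
    rcases t.eq_empty_or_nonempty with h | h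
    · have : uwT (toRw s H U) ((insert a t : Finset U) : Set U) = uwS (toRw s H U) a := by
        subst h
        ext y
        simp [uwT]
      rw [this]
      exact hS a (h1 a (Finset.mem_insert_self a t))
    · have h3 := ih h (fun x hx => h1 x (Finset.mem_insert_of_mem hx))
        (fun x hx => h2 x (Finset.mem_insert_of_mem hx))
      have h4 : uwT (toRw s H U) ((insert a t : Finset U) : Set U) =
          uwS (toRw s H U) a ∪ uwT (toRw s H U) (t : Set U) := by
        ext y
        simp [uwT]
      have h5 : UwGood (toRw s H U) (uwT (toRw s H U) ((insert a t : Finset U) : Set U)) := by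
        refine uw_good_T hA (fun x hx => ?_) v0 (fun x hx => h2 x (Finset.mem_coe.1 hx))
        rw [h1 x (Finset.mem_coe.1 hx)]
        exact hr
      rw [h4] at h5 ⊢
      refine Built.union _ _ (hS a (h1 a (Finset.mem_insert_self a t))) h3 ?_
        (uw_cut s H U hA hk h5)
      rw [Set.disjoint_left]
      rintro y hy ⟨x, hx, hyx⟩
      have h6 : a = x := uw_meet hA hy hyx (by
        rw [h1 a (Finset.mem_insert_self a t), h1 x (Finset.mem_insert_of_mem hx)])
      exact ha (h6 ▸ hx)

private lemma uw_built_S (hA : (toRw s H U).Ax) {k : ℕ}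
    (hk : Nat.card {x : U // (toRw s H U).Lv 0 x} = k) :
    ∀ r, 1 ≤ r → ∀ x, uwRk hA x = r →
      Built (LU s H) U (2 ^ (k + 1)) (uwS (toRw s H U) x) := by
  classical
  intro r hr
  induction r, hr using Nat.le_induction with
  | base =>
    intro x hx
    have h1 : uwS (toRw s H U) x = {x} := by
      ext y
      constructor
      · intro hy
        rcases Relation.ReflTransGen.cases_tail hy with h | ⟨w, _, h⟩
        · exact h.symm
        · have := uw_par hA h
          omega
      · intro hy
        rw [Set.mem_singleton_iff] at hy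
        rw [hy]
        exact Relation.ReflTransGen.refl
    rw [h1]
    exact Built.point x
  | succ r hr ih =>
    intro x hx
    have hfin : {y : U | (toRw s H U).par y x}.Finite := Set.toFinite _
    rcases Set.eq_empty_or_nonempty {y : U | (toRw s H U).par y x} with hne | hne
    · have h1 : uwS (toRw s H U) x = {x} := by
        ext y
        constructor
        · intro hy
          rcases Relation.ReflTransGen.cases_tail hy with h | ⟨w, _, h⟩
          · exact h.symm
          · have h2 : w ∈ {y : U | (toRw s H U).par y x} := h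
            rw [hne] at h2
            exact absurd h2 (Set.notMem_empty w)
        · intro hy
          rw [Set.mem_singleton_iff] at hy
          rw [hy]
          exact Relation.ReflTransGen.refl
      rw [h1]
      exact Built.point x
    · have h1 := uw_built_T s H U hA hk r hr x ih hfin.toFinset (by simpa using hne)
        (fun y hy => by
          have h2 : (toRw s H U).par y x := by simpa using hy
          have := uw_par hA h2
          omega)
        (fun y hy v hv => by
          have h2 : (toRw s H U).par y x := by simpa using hy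
          exact uw_uniq hA hv h2)
      rw [Set.Finite.coe_toFinset] at h1
      have h2 : uwS (toRw s H U) x = uwT (toRw s H U) {y : U | (toRw s H U).par y x} ∪ {x} := by
        ext y
        constructor
        · intro hy
          rcases Relation.ReflTransGen.cases_tail hy with h | ⟨w, h3, h⟩
          · right
            exact h.symm
          · left
            exact ⟨w, h, h3⟩
        · rintro (⟨w, h, h3⟩ | h)
          · exact Relation.ReflTransGen.tail h3 h
          · rw [Set.mem_singleton_iff] at h
            rw [h]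
            exact Relation.ReflTransGen.refl
      have h3 := uw_good_S hA (x := x) (by omega)
      rw [h2] at h3 ⊢
      refine Built.union _ _ h1 (Built.point x) ?_ (uw_cut s H U hA hk h3)
      rw [Set.disjoint_singleton_right]
      rintro ⟨w, h4, h5⟩
      have h6 := uw_par hA h4
      rcases uw_rtg hA h5 with h7 | h7
      · rw [← h7] at h6
        omega
      · omega

end

theorem width_U (s : Sg) (H : ℕ) (U : Type) [(LU s H).Structure U] [Finite U]
    (hA : (toRw s H U).Ax) {k : ℕ} (hk : Nat.card {x : U // (toRw s H U).Lv 0 x} = k) :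
    WidthLE (LU s H) U (2 ^ (k + 1)) := by
  classical
  set A := toRw s H U with hAdef
  -- every point that is not a base point lies in the subtree of a cell
  have hcov : ∀ m : ℕ, ∀ x, 1 ≤ uwRk hA x → H + 2 - uwRk hA x = m →
      ∃ c, uwRk hA c = H + 2 ∧ (∃ κ, A.cell κ c) ∧ x ∈ uwS A c := by
    intro m
    induction m with
    | zero =>
      intro x hx hm
      rcases uwRk_cases hA x with ⟨_, h2⟩ | ⟨κ, h⟩
      · omega
      · exact ⟨x, uwRk_cell hA h, ⟨κ, h⟩, Relation.ReflTransGen.refl⟩
    | succ m ih =>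
      intro x hx hm
      rcases uwRk_cases hA x with ⟨h1, h2⟩ | ⟨κ, h⟩
      · obtain ⟨p, hp, _⟩ := hA.par_ex _ hx h2 x h1
        have h3 := uw_par hA hp
        obtain ⟨c, hc1, hc2, hc3⟩ := ih p (by omega) (by omega)
        exact ⟨c, hc1, hc2, Relation.ReflTransGen.head hp hc3⟩
      · have := uwRk_cell hA h
        omega
  obtain ⟨x0, hx0, _⟩ := hA.top0
  have hx0' := uwRk_Lv hA hx0
  obtain ⟨c0, _, ⟨κ0, hκ0⟩, _⟩ := hcov _ x0 (by omega) rfl
  have hfin : {c : U | ∃ κ, A.cell κ c}.Finite := Set.toFinite _
  have hNB : uwT A {c : U | ∃ κ, A.cell κ c} = {x | 1 ≤ uwRk hA x} := by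
    ext x
    constructor
    · rintro ⟨c, ⟨κ, hc⟩, hx⟩
      exact uw_S_rk hA hx (by rw [uwRk_cell hA hc]; omega)
    · intro hx
      obtain ⟨c, _, hc2, hc3⟩ := hcov _ x hx rfl
      exact ⟨c, hc2, hc3⟩
  have hB0 := uw_built_T s H U hA hk (H + 2) (by omega) c0
    (uw_built_S s H U hA hk (H + 2) (by omega)) hfin.toFinset
    ⟨c0, by simpa using ⟨κ0, hκ0⟩⟩
    (fun c hc => by
      obtain ⟨κ, h⟩ : ∃ κ, A.cell κ c := by simpa using hc
      exact uwRk_cell hA h)
    (fun c hc v hv => by
      obtain ⟨κ, h⟩ : ∃ κ, A.cell κ c := by simpa using hc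
      exfalso
      have h1 := uwRk_cell hA h
      rcases hA.par_lv c v hv with ⟨j, _, h3, h4, _⟩ | ⟨κ', i, h4, _⟩
      · rw [uwRk_Lv hA h4] at h1
        omega
      · rw [uwRk_Lv hA (j := H + 1) (Or.inr ⟨rfl, κ', i, h4⟩)] at h1
        omega)
  rw [Set.Finite.coe_toFinset] at hB0
  have hB1 : Built (LU s H) U (2 ^ (k + 1)) {x | 1 ≤ uwRk hA x} := hNB ▸ hB0
  have hB2 : ∀ t : Finset U, (∀ x ∈ t, ¬ 1 ≤ uwRk hA x) →
      Built (LU s H) U (2 ^ (k + 1)) ({x | 1 ≤ uwRk hA x} ∪ (t : Set U)) := by
    intro t
    induction t using Finset.induction_on with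
    | empty =>
      intro _
      simpa using hB1
    | insert a t ha ih =>
      intro h1
      have h2 := ih (fun x hx => h1 x (Finset.mem_insert_of_mem hx))
      have h3 : ({x | 1 ≤ uwRk hA x} ∪ ((insert a t : Finset U) : Set U)) =
          ({x | 1 ≤ uwRk hA x} ∪ (t : Set U)) ∪ {a} := by
        ext y
        simp only [Finset.coe_insert, Set.mem_union, Set.mem_insert_iff, Set.mem_singleton_iff]
        tauto
      have h4 : UwGood A ({x | 1 ≤ uwRk hA x} ∪ ((insert a t : Finset U) : Set U)) := by
        refine ⟨fun x _ y hy => Or.inl (uw_par hA hy).2, ⟨a, fun u _ v hv huv => ?_⟩,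
          Or.inr fun x hx => Or.inl ?_⟩
        · refine absurd (Or.inl ?_) hv
          show 1 ≤ uwRk hA v
          have := uw_par hA huv
          omega
        · show 1 ≤ uwRk hA x
          rw [uwRk_Lv hA hx]
      rw [h3] at h4 ⊢
      refine Built.union _ _ h2 (Built.point a) ?_ (uw_cut s H U hA hk h4)
      rw [Set.disjoint_singleton_right]
      rintro (h5 | h5)
      · exact h1 a (Finset.mem_insert_self a t) h5
      · exact ha h5
  have hfin2 : {x : U | ¬ 1 ≤ uwRk hA x}.Finite := Set.toFinite _
  have h6 := hB2 hfin2.toFinset (fun x hx => by simpa using hx)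
  rw [Set.Finite.coe_toFinset] at h6
  have h7 : ({x | 1 ≤ uwRk hA x} ∪ {x : U | ¬ 1 ≤ uwRk hA x}) = Set.univ := by
    ext y
    simp only [Set.mem_union, Set.mem_ofPred_eq, Set.mem_univ, iff_true]
    exact em _
  rw [h7] at h6
  exact h6

end Pool.Agent.Helper72.WT
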