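import Mathlib
import Pool.Agent.Helper72.WT.MainA
import Pool.Agent.Helper72.WT.SpecComp
import Pool.Agent.Helper72.WT.Relat
import Pool.Agent.Helper72.WT.AxDef
import Pool.Agent.Helper72.WT.Size
import Pool.Agent.Helper72.WT.Canon
import Pool.Agent.Helper72.WT.UWidth
import Pool.Agent.Helper72.WT.Numb
import Pool.Agent.Helper72.WT.Numb2
import Pool.Agent.Helper72.WT.TDepth

set_option autoImplicit false

/-! WT-10: sentences whose models have slowly growing width represent the full problem. -/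

namespace Pool.Agent.Helper72.WT

open FirstOrder FirstOrder.Language Pool.Agent.Helper87.AU Pool.Agent.Helper31.Spectra

/-- what the axioms give for a finite structure -/
lemma ax_facts {s : Sg} {H : ℕ} {U : Type} [Finite U] (A : Rw s H U) (hA : A.Ax) :
    ∃ k, Nat.card {x : U // A.Lv 0 x} = k ∧ KM H k (Nat.card {x : U // A.cell s.o x}) ∧
      Nat.card U = FF s H k (Nat.card {x : U // A.cell s.o x}) ∧ tw H k ≤ Nat.card U := by
  refine ⟨_, rfl, ?_⟩
  obtain ⟨h1, h2⟩ := card_Q A hA rfl
  obtain ⟨h3, h4⟩ := card_U A hA rfl h1 rfl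
  rw [h3]
  refine ⟨h2, h4, ?_⟩
  rw [← h1 H le_rfl]
  have e1 : Nat.card (A.Q H) ≤ Nat.card {x : U // A.Lv H x} :=
    Nat.card_le_card_of_surjective (Quot.mk _) Quot.mk_surjective
  exact e1.trans (Nat.card_le_card_of_injective Subtype.val Subtype.val_injective)

open Classical in
/-- the number of points of the encoded structures with `m` points -/
noncomputable def gg (s : Sg) (H m : ℕ) : ℕ :=
  if h : ∃ k, KM H k m then FF s H h.choose m else 0

lemma gg_eq {s : Sg} {H k m : ℕ} (h : KM H k m) : gg s H m = FF s H k m := by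
  have hex : ∃ k, KM H k m := ⟨k, h⟩
  unfold gg
  rw [dif_pos hex]
  have h1 := KM_mono hex.choose_spec h le_rfl
  have h2 := KM_mono h hex.choose_spec le_rfl
  rw [le_antisymm h1 h2]

/-- a finite set of positive numbers is a spectrum -/
lemma isSpectrum_finite {T : Set ℕ} (hT : ∀ n ∈ T, 0 < n) (B : ℕ) (hB : ∀ n ∈ T, n ≤ B) :
    IsSpectrum T := by
  refine isSpectrum_of_periodic T (fun h => absurd (hT 0 h) (lt_irrefl 0)) (B + 1) 1 one_pos ?_
  intro n hn
  constructor
  · intro h
    have := hB n h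
    omega
  · intro h
    have := hB _ h
    omega

lemma TreeDepthLE.mono {L : FirstOrder.Language.{0, 0}} {M : Type} [L.Structure M] {d d' : ℕ}
    (h : TreeDepthLE L M d) (hd : d ≤ d') : TreeDepthLE L M d' := by
  obtain ⟨F, h1, h2, h3, h4, h5, h6⟩ := h
  exact ⟨F, h1, h2, h3, h4, fun x => ⟨(h5 x).1, (h5 x).2.trans hd⟩, h6⟩

/-- encoded structures have small width and tree-depth -/
lemma bounds_U (s : Sg) {h k : ℕ} {U : Type} [(LU s (2 * h + 4)).Structure U] [Finite U]
    (hA : (toRw s (2 * h + 4) U).Ax)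
    (hk : Nat.card {x : U // (toRw s (2 * h + 4) U).Lv 0 x} = k)
    (hle : tw (2 * h + 4) k ≤ Nat.card U) :
    WidthLE (LU s (2 * h + 4)) U ((Nat.log 2)^[h] (Nat.card U)) ∧
      TreeDepthLE (LU s (2 * h + 4)) U ((Nat.log 2)^[h] (Nat.card U)) := by
  obtain ⟨h1, h2⟩ := bounds_log hle
  exact ⟨Built.mono h1 (width_U s _ U hA hk), (tdepth_U s _ U hA hk).mono h2⟩

variable {L : FirstOrder.Language.{0, 0}}

/-- The `L`-structure on the points of an encoded structure. -/
@[instance_reducible]
noncomputable def pstr (hL : ∀ n, IsEmpty (L.Functions n)) (hf : Finite (Σ n, L.Relations n))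
    {H : ℕ} {U : Type} (A : Rw (sgOf L hf) H U) :
    L.Structure {x : U // A.cell (sgOf L hf).o x} :=
  istr hL fun n R v => A.Rl (some ⟨n, R⟩ : Option (Σ n, L.Relations n)) fun i => (v i).1

theorem barrier (h : ℕ)
    (hyp : ∀ (LB : FirstOrder.Language.{0, 0}) (φ : LB.Sentence),
      (∀ n, IsEmpty (LB.Functions n)) → (∀ n, 2 < n → IsEmpty (LB.Relations n)) →
      Finite (Σ n, LB.Relations n) →
      (∀ (M : Type) [LB.Structure M] [Finite M], φ.Realize M →
        WidthLE LB M ((Nat.log 2)^[h] (Nat.card M)) ∧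
          TreeDepthLE LB M ((Nat.log 2)^[h] (Nat.card M))) →
      IsSpectrum {n | 0 < n ∧ n ∉ Spec LB φ})
    (L : FirstOrder.Language.{0, 0}) (φ : L.Sentence) (hL : FinVoc L) :
    IsSpectrum {n | 0 < n ∧ n ∉ Spec L φ} := by
  -- relational language
  obtain ⟨L₁, ψ, hL₁, hf₁, hspec⟩ := exists_relational (S := Spec L φ) ⟨L, φ, hL, rfl⟩
  rw [← hspec]
  -- the language of the encoding
  set s := sgOf L₁ hf₁ with hs
  set H := 2 * h + 4 with hH
  obtain ⟨σ, hσ⟩ := ax_sentence s H
  obtain ⟨ψ', hψ'⟩ := interp hL₁ (L' := LU s H) (fun U _ x => (toRw s H U).cell s.o x)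
    ((UDef.rel (L := LU s H) (α := Unit) (UR.cell s.o) ![Term.var ()]).congr (by
      intro M _ v
      have e : (fun i => ((![Term.var ()] : Fin 1 → (LU s H).Term Unit) i).realize v) =
          ![v ()] := by
        funext i
        have hi : i = 0 := Subsingleton.elim _ _
        subst hi
        rfl
      show Structure.RelMap _ (fun i => ((![Term.var ()] : Fin 1 → (LU s H).Term Unit) i).realize v)
        ↔ _
      rw [e]
      exact Iff.rfl))
    (fun n R U _ v => (toRw s H U).Rl (some ⟨n, R⟩ : Option (Σ n, L₁.Relations n)) v)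
    (fun n R => udef_Rl s H (some ⟨n, R⟩ : Option (Σ n, L₁.Relations n))) ψ
  have hwid : ∀ (U : Type) [(LU s H).Structure U] [Finite U], (σ ⊓ ψ').Realize U →
      WidthLE (LU s H) U ((Nat.log 2)^[h] (Nat.card U)) ∧
        TreeDepthLE (LU s H) U ((Nat.log 2)^[h] (Nat.card U)) := by
    intro U _ _ hU
    have hA : (toRw s H U).Ax := (hσ U).1 (Formula.realize_inf.1 hU).1
    obtain ⟨k, hk, -, -, hle⟩ := ax_facts (toRw s H U) hA
    exact bounds_U s hA hk hle
  have hcompl := hyp (LU s H) (σ ⊓ ψ') (isEmpty_LU s H) (binary_LU s H) (finite_LU s H) hwid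
  obtain ⟨LX, χ, hLX, hfX, hχ⟩ := exists_relational hcompl
  obtain ⟨r, hr⟩ := FF_le s H
  have hsp := spec_comp (isEmpty_LU s H) (finite_LU s H) hLX hfX σ (UR.cell s.o) χ (gg s H)
    (tw (H + 1) 0 + 1) r (Nat.le_add_left _ _) (by
      intro U _ _ hU
      obtain ⟨k, -, h1, h2, -⟩ := ax_facts (toRw s H U) ((hσ U).1 hU)
      exact ⟨KM_lt h1, h2.trans (gg_eq h1).symm⟩) (by
      intro m hm
      obtain ⟨k, hk⟩ := KM_exists (H := H) (m := m) hm
      have hm0 : 0 < m := by omega
      obtain ⟨U, A, hfU, hA, e, -⟩ := exists_encoded s hk (Fin m) (by simp) (fun _ _ => False)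
      refine ⟨U, ofRw A, hfU, (@hσ U (ofRw A)).2 hA, ?_⟩
      have := Nat.card_congr e
      rw [Nat.card_eq_fintype_card, Fintype.card_fin] at this
      exact this.symm) (by
      intro m hm
      obtain ⟨k, hk⟩ := KM_exists (H := H) (m := m) hm
      rw [gg_eq hk]
      exact hr k m hk)
  -- the spectrum of the encoding
  have key : ∀ m, tw (H + 1) 0 + 1 ≤ m → (gg s H m ∈ Spec LX χ ↔ m ∉ Spec L₁ ψ) := by
    intro m hm
    obtain ⟨k, hk⟩ := KM_exists (H := H) (m := m) hm
    rw [hχ]
    have hpos : 0 < gg s H m := by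
      rw [gg_eq hk]
      have := hk.1
      unfold FF
      omega
    have hiff : gg s H m ∈ Spec (LU s H) (σ ⊓ ψ') ↔ m ∈ Spec L₁ ψ := by
      constructor
      · rintro ⟨_, U, sU, hcU, hU⟩
        have hfU : Finite U := Nat.finite_of_card_ne_zero (by omega)
        obtain ⟨hU1, hU2⟩ := Formula.realize_inf.1 hU
        obtain ⟨k', -, h1, h2, -⟩ := ax_facts (toRw s H U) ((hσ U).1 hU1)
        have hcard : Nat.card {x : U // (toRw s H U).cell s.o x} = m := by
          by_contra hne
          rcases Nat.lt_or_gt_of_ne hne with hlt | hlt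
          · have := FF_lt s h1 hk hlt
            rw [← h2, hcU, gg_eq hk] at this
            exact absurd this (lt_irrefl _)
          · have := FF_lt s hk h1 hlt
            rw [← h2, hcU, gg_eq hk] at this
            exact absurd this (lt_irrefl _)
        exact ⟨by omega, _, pstr hL₁ hf₁ (toRw s H U), hcard, (hψ' U).1 hU2⟩
      · rintro ⟨hm0, M, sM, hcM, hM⟩
        obtain ⟨U, A, hfU, hA, e, he⟩ := exists_encoded s hk M hcM
          (fun κ v => ∃ (R : Σ n, L₁.Relations n) (hR : κ = (some R : Option _)),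
            Structure.RelMap R.2 (fun i => v (Fin.cast (by rw [hR]; rfl) i)))
        let sU : (LU s H).Structure U := ofRw A
        have hU1 : σ.Realize U := (hσ U).2 hA
        obtain ⟨k', -, h1, h2, -⟩ := ax_facts (toRw s H U) hA
        have hcard : Nat.card {x : U // (toRw s H U).cell s.o x} = m := by
          rw [← hcM]
          exact (Nat.card_congr e).symm
        rw [hcard] at h1 h2
        refine ⟨hpos, U, sU, h2.trans (gg_eq h1).symm, Formula.realize_inf.2 ⟨hU1, ?_⟩⟩
        refine (hψ' U).2 ?_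
        let _ : L₁.Structure {x : U // A.cell s.o x} := pstr hL₁ hf₁ A
        have hlang : M ≃[L₁] {x : U // A.cell s.o x} :=
          { e with
            map_fun' := fun {n} f _ => ((hL₁ n).false f).elim
            map_rel' := fun {n} R v => by
              have h5 := he (some ⟨n, R⟩ : Option (Σ n, L₁.Relations n)) v
              refine h5.trans ?_
              constructor
              · rintro ⟨⟨n', R'⟩, hR, hr⟩
                obtain ⟨rfl, hR⟩ := Sigma.mk.inj (Option.some.inj hR)
                obtain rfl := eq_of_heq hR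
                exact hr
              · intro hr
                exact ⟨⟨n, R⟩, rfl, hr⟩ }
        exact (StrongHomClass.realize_sentence hlang ψ).1 hM
    constructor
    · rintro ⟨-, h1⟩ h2
      exact h1 (hiff.2 h2)
    · intro h1
      exact ⟨hpos, fun h2 => h1 (hiff.1 h2)⟩
  -- the finitely many small numbers
  have hsmall : IsSpectrum {n | 0 < n ∧ n < tw (H + 1) 0 + 1 ∧ n ∉ Spec L₁ ψ} :=
    isSpectrum_finite (fun n hn => hn.1) (tw (H + 1) 0 + 1) (fun n hn => hn.2.1.le)
  have hunion := hsp.union hsmall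
  have heq : {n | 0 < n ∧ n ∉ Spec L₁ ψ} = {m | tw (H + 1) 0 + 1 ≤ m ∧ gg s H m ∈ Spec LX χ} ∪
      {n | 0 < n ∧ n < tw (H + 1) 0 + 1 ∧ n ∉ Spec L₁ ψ} := by
    ext n
    constructor
    · rintro ⟨h1, h2⟩
      rcases Nat.lt_or_ge n (tw (H + 1) 0 + 1) with h3 | h3
      · exact Or.inr ⟨h1, h3, h2⟩
      · exact Or.inl ⟨h3, (key n h3).2 h2⟩
    · rintro (⟨h1, h2⟩ | ⟨h1, -, h2⟩)
      · exact ⟨by omega, (key n h1).1 h2⟩
      · exact ⟨h1, h2⟩
  rw [heq]
  exact hunion

end Pool.Agent.Helper72.WT
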