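import Mathlib
import Pool.Agent.Helper72.WT.MainA
import Pool.Agent.Helper87.AT.Steps

set_option autoImplicit false

/-! Pumping a subset of small width of an arbitrary model. -/

namespace Pool.Agent.Helper72.WT

open FirstOrder FirstOrder.Language
open Pool.Agent.Helper32.Pump Pool.Agent.Helper31.Spectra

variable {L : FirstOrder.Language.{0, 0}}

lemma tw_le_of_log {h r u : ℕ} (hr : 1 ≤ r) (hu : r ≤ (Nat.log 2)^[h] u) : tw h r ≤ u := by
  induction h generalizing u with
  | zero => exact hu
  | succ h ih =>
    rw [Function.iterate_succ_apply] at hu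
    have h1 := ih hu
    have h2 : 1 ≤ Nat.log 2 u := hr.trans ((le_tw h r).trans h1)
    have h3 : u ≠ 0 := by
      rintro rfl
      rw [Nat.log_zero_right] at h2
      omega
    exact (Nat.pow_le_pow_right (by norm_num) h1).trans (Nat.pow_log_le_self 2 h3)

lemma lcmUpto_le_factorial (k : ℕ) : Nat.lcmUpto k ≤ k.factorial := by
  refine Nat.le_of_dvd (Nat.factorial_pos k) ?_
  unfold Nat.lcmUpto
  refine Finset.lcm_dvd fun x hx => ?_
  rw [Finset.mem_Icc] at hx
  exact Nat.dvd_factorial hx.1 hx.2

/-- the size of a set of width `r` that is needed for pumping -/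
def TT (N : ℕ) : ℕ := MM N + LL N + LL N * (LL N).factorial

lemma EB_TT {f : ℕ → ℕ} (hf : EB f) : EB fun r => TT (f r) :=
  ((EB_MM hf).add (EB_LL hf)).add ((EB_LL hf).mul (EB_LL hf).factorial)

/-- **Pumping.** -/
theorem local_pump (hL : ∀ n, IsEmpty (L.Functions n)) (hfin : Finite (Σ n, L.Relations n))
    (φ : L.Sentence) : ∃ h : ℕ, ∀ (M : Type) [L.Structure M] [Finite M], φ.Realize M →
      ∀ (U : Set M) (r : ℕ), 1 ≤ r → Built L M r U → r ≤ (Nat.log 2)^[h] (Nat.card U) →
      ∃ k, 1 ≤ k ∧ (∀ j, Nat.card M + k * j ∈ Spec L φ) ∧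
        ∀ j ≤ Nat.lcmUpto k, k * j + k ≤ Nat.card M ∧ Nat.card M - k * j ∈ Spec L φ := by
  classical
  have hV : (vocOf L).Fin := ⟨hfin, fun z => by
    show Finite (Fin z.1)
    infer_instance⟩
  obtain ⟨q, hq⟩ := realize_tp hL φ
  have hEB : EB fun r => NN (vocOf L) q r := EB.card_T (vocOf L) q 0
  obtain ⟨j₀, c₀, hT⟩ := EB_TT hEB
  refine ⟨j₀ + c₀, fun M sM fM hφ U r hr hU hlog => ?_⟩
  set N := NN (vocOf L) q r with hN
  have hTu : TT N ≤ Nat.card U := by
    refine (hT r).trans ((tw_mono j₀ ?_).trans (le_of_eq_of_le (tw_add j₀ c₀ r)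
      (tw_le_of_log hr hlog)))
    clear hT hlog
    induction c₀ with
    | zero => exact le_rfl
    | succ c ih =>
      have h1 : tw c r < 2 ^ tw c r := Nat.lt_two_pow_self
      show r + (c + 1) ≤ 2 ^ tw c r
      omega
  have := Fintype.ofFinite (T (Unit × Fin r) (vocOf L) q 0)
  have eN : N = Fintype.card (T (Unit × Fin r) (vocOf L) q 0) := Nat.card_eq_fintype_card
  -- the derivation tree
  obtain ⟨c, hc⟩ := hU.exists_can hr
  obtain ⟨W, hD⟩ := hU.tree hr q c hc
  -- replacement of `U`
  have hrep : ∀ u', D (LfT (vocOf L) r q) (OpT (vocOf L) r q) W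
      (tpS (piece (toCol L M) U c) q) u' → ∀ n, n + Nat.card U = Nat.card M + u' →
      n ∈ Spec L φ := by
    intro u' hD' n hn
    obtain ⟨P, hP1, hP2, hP3⟩ := exists_piece hD'
    set E : Col Unit ((vocOf L).ext (Unit × Fin r)) :=
      restrExt (toCol L M) U (Set.univ \ U) (fun u => ((toCol L M).col u, c u))
        (toCol L M).col with hE
    have hEfin : Finite E.carrier := by
      show Finite ↥(Set.univ \ U)
      infer_instance
    have hsplit := split (toCol L M) (Set.subset_univ U) c
      (fun u hu u' hu' h => (hc u hu u' hu').1 h) (toCol L M).col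
      (fun p : Unit × Fin r => p.1) (fun _ _ => rfl) q
    set Q : Col Unit (vocOf L) :=
      Pool.Agent.Helper32.Pump.sum (fun p : Unit × Fin r => p.1) id P E with hQ
    have hcardQ : Nat.card Q.carrier = n := by
      have h1 : Nat.card Q.carrier = Nat.card P.carrier + Nat.card E.carrier := by
        show Nat.card (P.carrier ⊕ E.carrier) = _
        rw [Nat.card_sum]
      have h2 : Nat.card M = Nat.card U + Nat.card E.carrier := by
        have e : ↥U ⊕ ↥(Set.univ \ U) ≃ M :=
          (Equiv.Set.sumDiffSubset (Set.subset_univ U)).trans (Equiv.Set.univ _)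
        have := Nat.card_congr e
        rw [Nat.card_sum] at this
        exact this.symm
      omega
    have htype : tpS Q q = tpS (toCol L M) q := by
      rw [hQ, tpS_sum (fun p : Unit × Fin r => p.1) id hP3 (rfl : tpS E q = tpS E q)]
      exact hsplit.symm.trans (tpS_univ (toCol L M) q).symm
    have hpos := hD'.pos
    refine ⟨?_, Q.carrier, ofCol hL Q, hcardQ, ?_⟩
    · have h1 : Nat.card Q.carrier = Nat.card P.carrier + Nat.card E.carrier := by
        show Nat.card (P.carrier ⊕ E.carrier) = _
        rw [Nat.card_sum]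
      omega
    · have h3 := hq q le_rfl Q (toCol L M) Fin.elim0 Fin.elim0 htype
      have e3 := ofCol_toCol hL M
      have e4 : @BoundedFormula.Realize L M sM _ _ φ default (Fin.elim0 : Fin 0 → M) := by
        have : (Fin.elim0 : Fin 0 → M) = default := Subsingleton.elim _ _
        rw [this]
        exact hφ
      have e5 : @BoundedFormula.Realize L M (ofCol hL (toCol L M)) _ _ φ default
          (Fin.elim0 : Fin 0 → M) := by
        rw [e3]; exact e4
      have h4 := h3.2 e5
      have h5 : (Fin.elim0 : Fin 0 → Q.carrier) = default := Subsingleton.elim _ _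
      rw [h5] at h4
      exact h4
  have hUM : Nat.card U ≤ Nat.card M :=
    Nat.card_le_card_of_injective Subtype.val Subtype.val_injective
  have hF : 2 ^ N ≤ Nat.card U := by
    refine le_trans ?_ hTu
    unfold TT MM
    omega
  have hMT : MM N + LL N + LL N * (LL N).factorial ≤ Nat.card U := hTu
  have hup : ∀ j, D (LfT (vocOf L) r q) (OpT (vocOf L) r q) W
      (tpS (piece (toCol L M) U c) q) (Nat.card U + LL N * j) := by
    intro j
    induction j with
    | zero => simpa using hD
    | succ j ih =>
      have h1 := ih.up (L := LL N) (by rw [← eN]; omega)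
        (fun k hk1 hk2 => Nat.dvd_factorial hk1 (by rw [eN]; exact hk2))
      have e : Nat.card U + LL N * (j + 1) = Nat.card U + LL N * j + LL N := by ring
      rw [e]
      exact h1
  have hdown : ∀ j, MM N + LL N * j ≤ Nat.card U →
      ∃ u', D (LfT (vocOf L) r q) (OpT (vocOf L) r q) W
        (tpS (piece (toCol L M) U c) q) u' ∧ u' + LL N * j = Nat.card U := by
    intro j
    induction j with
    | zero => intro _; exact ⟨_, hD, by simp⟩
    | succ j ih =>
      intro hj
      have e : LL N * (j + 1) = LL N * j + LL N := by ring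
      obtain ⟨u', h1, h2⟩ := ih (by omega)
      obtain ⟨u'', h3, h4⟩ := D.down (LL N) (Nat.factorial_pos _)
        (fun k hk1 hk2 => Nat.dvd_factorial hk1 (by rw [eN]; exact hk2)) _ W
        (Finset.card_le_univ W) _ u' (by
          rw [← eN]
          have : MM N ≤ u' := by omega
          unfold MM at this
          exact this) h1
      exact ⟨u'', h3, by omega⟩
  refine ⟨LL N, Nat.factorial_pos _, fun j => hrep _ (hup j) _ (by ring), fun j hj => ?_⟩
  have hj' : LL N * j ≤ LL N * (LL N).factorial :=
    Nat.mul_le_mul_left _ (hj.trans (lcmUpto_le_factorial _))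
  obtain ⟨u', h1, h2⟩ := hdown j (by omega)
  exact ⟨by omega, hrep u' h1 _ (by omega)⟩

end Pool.Agent.Helper72.WT
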