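import Mathlib
import Pool.Agent.Helper72.WT.Barrier

set_option autoImplicit false

/-! WT-12: for every `h` there is a sentence all of whose finite models have width and tree-depth
at most `log^[h]` of their size and whose spectrum is not ultimately periodic. -/

namespace Pool.Agent.Helper72.WT

open FirstOrder FirstOrder.Language Pool.Agent.Helper31.Spectra

/-- a signature with a kind of arity one and a kind of arity two -/
def s2 : Sg := ⟨Bool, inferInstance, fun b => if b then 2 else 1, false, rfl⟩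

lemma lev_mono (s : Sg) {H k k' m m' : ℕ} (hk : k ≤ k') (hm : m ≤ m') (d : ℕ) :
    lev s H k m d ≤ lev s H k' m' d := by
  induction d with
  | zero =>
    exact Finset.sum_le_sum fun κ _ => Nat.mul_le_mul_left _ (Nat.pow_le_pow_left hm _)
  | succ d ih => exact Nat.mul_le_mul ih (tw_mono _ hk)

lemma sum_s2 (m : ℕ) : ∑ κ : s2.ι, m ^ s2.ar κ = m ^ 2 + m ^ 1 := by
  show ∑ κ : Bool, m ^ (if κ then 2 else 1) = _
  rw [Fintype.sum_bool]
  rfl

lemma FF_gap {H k k' m m' : ℕ} (h : KM H k m) (h' : KM H k' m') (hm : m < m') :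
    FF s2 H k m + m < FF s2 H k' m' := by
  have hk := KM_mono h h' hm.le
  have h1 : ∑ d ∈ Finset.range (H + 1), lev s2 H k m d ≤
      ∑ d ∈ Finset.range (H + 1), lev s2 H k' m' d :=
    Finset.sum_le_sum fun d _ => lev_mono s2 hk hm.le d
  have h2 : m ^ 2 + m ^ 1 + m < m' ^ 2 + m' ^ 1 := by nlinarith
  unfold FF
  rw [sum_s2, sum_s2]
  omega

theorem not_periodic (h : ℕ) : ∃ (LB : FirstOrder.Language.{0, 0}) (φ : LB.Sentence),
    (∀ n, IsEmpty (LB.Functions n)) ∧ (∀ n, 2 < n → IsEmpty (LB.Relations n)) ∧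
    Finite (Σ n, LB.Relations n) ∧
    (∀ (M : Type) [LB.Structure M] [Finite M], φ.Realize M →
      WidthLE LB M ((Nat.log 2)^[h] (Nat.card M)) ∧
        TreeDepthLE LB M ((Nat.log 2)^[h] (Nat.card M))) ∧
    ¬ ∃ N p, 0 < p ∧ ∀ n, N ≤ n → (n ∈ Spec LB φ ↔ n + p ∈ Spec LB φ) := by
  set H := 2 * h + 4 with hH
  obtain ⟨σ, hσ⟩ := ax_sentence s2 H
  refine ⟨LU s2 H, σ, isEmpty_LU s2 H, binary_LU s2 H, finite_LU s2 H, ?_, ?_⟩
  · intro U _ _ hU
    have hA : (toRw s2 H U).Ax := (hσ U).1 hU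
    obtain ⟨k, hk, -, -, hle⟩ := ax_facts (toRw s2 H U) hA
    exact bounds_U s2 hA hk hle
  · rintro ⟨N, p, hp, hper⟩
    have hin : ∀ k m, KM H k m → FF s2 H k m ∈ Spec (LU s2 H) σ := by
      intro k m hk
      obtain ⟨U, A, hfU, hA, e, -⟩ := exists_encoded s2 hk (Fin m) (by simp) (fun _ _ => False)
      have hc : Nat.card {x : U // A.cell s2.o x} = m := by
        have := Nat.card_congr e
        rw [Nat.card_eq_fintype_card, Fintype.card_fin] at this
        exact this.symm
      obtain ⟨k', -, h1, h2, -⟩ := ax_facts A hA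
      rw [hc] at h1 h2
      have hkk : k' = k := le_antisymm (KM_mono h1 hk le_rfl) (KM_mono hk h1 le_rfl)
      rw [hkk] at h2
      refine ⟨?_, U, ofRw A, h2, (@hσ U (ofRw A)).2 hA⟩
      have := hk.1
      unfold FF
      omega
    have hout : ∀ n ∈ Spec (LU s2 H) σ, ∃ k m, KM H k m ∧ n = FF s2 H k m := by
      rintro n ⟨hn, U, sU, hcU, hU⟩
      have hfU : Finite U := Nat.finite_of_card_ne_zero (by omega)
      obtain ⟨k', -, h1, h2, -⟩ := ax_facts (toRw s2 H U) ((hσ U).1 hU)
      exact ⟨k', _, h1, hcU.symm.trans h2⟩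
    have hge : ∀ k m, m ≤ FF s2 H k m := by
      intro k m
      unfold FF
      rw [sum_s2, pow_one]
      omega
    set m := tw (H + 1) 0 + 1 + N + p with hm
    obtain ⟨k, hk⟩ := KM_exists (H := H) (m := m) (by omega)
    have h1 := (hper _ (le_trans (by omega) (hge k m))).1 (hin k m hk)
    obtain ⟨k', m', hk', he⟩ := hout _ h1
    rcases Nat.lt_or_ge m m' with hlt | hle
    · have := FF_gap hk hk' hlt
      omega
    · have hkk := KM_mono hk' hk hle
      have : FF s2 H k' m' ≤ FF s2 H k m := by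
        have e1 : ∑ d ∈ Finset.range (H + 1), lev s2 H k' m' d ≤
            ∑ d ∈ Finset.range (H + 1), lev s2 H k m d :=
          Finset.sum_le_sum fun d _ => lev_mono s2 hkk hle d
        have e2 : m' ^ 2 + m' ^ 1 ≤ m ^ 2 + m ^ 1 :=
          Nat.add_le_add (Nat.pow_le_pow_left hle 2) (Nat.pow_le_pow_left hle 1)
        unfold FF
        rw [sum_s2, sum_s2]
        omega
      omega

end Pool.Agent.Helper72.WT
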