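import Mathlib
import Pool.Agent.Helper72.WT.MainL
import Pool.Agent.Helper72.WT.NonPer

set_option autoImplicit false

namespace Pool.Agent.Helper72.WT.WidthThreshold

open FirstOrder FirstOrder.Language
open Pool.Agent.Helper72.WT

/-- A finite vocabulary of function (and constant) and relation symbols. -/
def FiniteVocabulary (L : FirstOrder.Language.{0, 0}) : Prop :=
  Finite (Σ n, L.Functions n) ∧ Finite (Σ n, L.Relations n)

/-- A finite vocabulary of relation symbols. -/
def FiniteRelational (L : FirstOrder.Language.{0, 0}) : Prop :=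
  (∀ n, IsEmpty (L.Functions n)) ∧ Finite (Σ n, L.Relations n)

/-- The spectrum of a sentence: the set of the sizes of its finite nonempty models. -/
def Spectrum (L : FirstOrder.Language.{0, 0}) (φ : L.Sentence) : Set ℕ :=
  {n | 0 < n ∧ ∃ (M : Type) (_ : L.Structure M), Nat.card M = n ∧ φ.Realize M}

/-- `S` is the spectrum of a sentence over a finite vocabulary. -/
def IsSpectrum (S : Set ℕ) : Prop :=
  ∃ (L : FirstOrder.Language.{0, 0}) (φ : L.Sentence), FiniteVocabulary L ∧ Spectrum L φ = S

/-- Ultimately periodic sets. -/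
def UltimatelyPeriodic (S : Set ℕ) : Prop :=
  ∃ N p : ℕ, 0 < p ∧ ∀ n, N ≤ n → (n ∈ S ↔ n + p ∈ S)

/-- `φ` is a sentence over a finite vocabulary of relation symbols of arity at most 2, and all its
finite nonempty models `M` have width and tree-depth at most `log^[h] |M|` (the `h`-fold iterated
binary logarithm, rounded down). -/
def Slim (h : ℕ) (L : FirstOrder.Language.{0, 0}) (φ : L.Sentence) : Prop :=
  FiniteRelational L ∧ (∀ n, 2 < n → IsEmpty (L.Relations n)) ∧
    ∀ (M : Type) [L.Structure M] [Finite M] [Nonempty M], φ.Realize M →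
      WidthLE L M ((Nat.log 2)^[h] (Nat.card M)) ∧
        TreeDepthLE L M ((Nat.log 2)^[h] (Nat.card M))

/-- **A sharp threshold for Asser's problem: the width of the models.**

(1) For every sentence `φ` over a finite relational vocabulary there is a number `h` such that
(a) every finite model `A` of `φ` with a set `Y` of points that is built with width `r ≥ 1` (from
one-element sets by disjoint unions, through sets of cut index at most `r` in `A`), where
`r ≤ log^[h] |Y|`, yields an infinite arithmetic progression `|A|, |A| + k, |A| + 2 k, …` in the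
spectrum of `φ`;
(b) if every large `n` in the spectrum is the size of such a model, then the spectrum is ultimately
periodic and its complement is a spectrum;
(c) the same holds if every large `n` in the spectrum is the size of a model of width at most
`log^[h] n`.

(2) `h` cannot be chosen independently of `φ`: for every `h`, if the complement of the spectrum of
every sentence whose finite models `M` have width and tree-depth at most `log^[h] |M|` (relation
symbols of arity at most 2 only) is a spectrum, then the complement of every spectrum is a spectrum (a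
positive answer to Asser's problem).

(3) For every `h` there is such a sentence whose spectrum is not ultimately periodic. -/
theorem result :
    (∀ (L : FirstOrder.Language.{0, 0}) (φ : L.Sentence), FiniteRelational L → ∃ h : ℕ,
      (∀ (A : Type) [L.Structure A] [Finite A] (Y : Set A) (r : ℕ), φ.Realize A → 1 ≤ r →
        Built L A r Y → r ≤ (Nat.log 2)^[h] Y.ncard →
        ∃ k, 0 < k ∧ ∀ j, Nat.card A + k * j ∈ Spectrum L φ) ∧
      (∀ B : ℕ, (∀ n ∈ Spectrum L φ, B ≤ n → ∃ (A : Type) (_ : L.Structure A) (Y : Set A)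
          (r : ℕ), Nat.card A = n ∧ φ.Realize A ∧ 1 ≤ r ∧ Built L A r Y ∧
            r ≤ (Nat.log 2)^[h] Y.ncard) →
        UltimatelyPeriodic (Spectrum L φ) ∧ IsSpectrum {n | 0 < n ∧ n ∉ Spectrum L φ}) ∧
      (∀ B : ℕ, (∀ n ∈ Spectrum L φ, B ≤ n → ∃ (A : Type) (_ : L.Structure A),
          Nat.card A = n ∧ φ.Realize A ∧ WidthLE L A ((Nat.log 2)^[h] n)) →
        UltimatelyPeriodic (Spectrum L φ) ∧ IsSpectrum {n | 0 < n ∧ n ∉ Spectrum L φ})) ∧
    (∀ h : ℕ,
      (∀ (L : FirstOrder.Language.{0, 0}) (φ : L.Sentence), Slim h L φ →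
        IsSpectrum {n | 0 < n ∧ n ∉ Spectrum L φ}) →
      ∀ (L : FirstOrder.Language.{0, 0}) (φ : L.Sentence), FiniteVocabulary L →
        IsSpectrum {n | 0 < n ∧ n ∉ Spectrum L φ}) ∧
    (∀ h : ℕ, ∃ (L : FirstOrder.Language.{0, 0}) (φ : L.Sentence), Slim h L φ ∧
      ¬ UltimatelyPeriodic (Spectrum L φ)) := by
  refine ⟨?_, ?_, ?_⟩
  · intro L φ hL
    obtain ⟨h, hh⟩ := local_pump hL.1 hL.2 φ
    have key : ∀ B : ℕ, (∀ n ∈ Spectrum L φ, B ≤ n → ∃ (A : Type) (_ : L.Structure A)
          (Y : Set A) (r : ℕ), Nat.card A = n ∧ φ.Realize A ∧ 1 ≤ r ∧ Built L A r Y ∧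
            r ≤ (Nat.log 2)^[h] Y.ncard) →
        UltimatelyPeriodic (Spectrum L φ) ∧ IsSpectrum {n | 0 < n ∧ n ∉ Spectrum L φ} := by
      intro B hB
      obtain ⟨D, hD, hD2⟩ := Pool.Agent.Helper87.AS.steps (Spectrum L φ) B (by
        intro n hn hBn
        obtain ⟨A, sA, Y, r, hA, hφ, hr, hY, hlog⟩ := hB n hn hBn
        have hfin : Finite A := Nat.finite_of_card_ne_zero (by have := hn.1; omega)
        obtain ⟨k, h1, h2, h3⟩ := hh A hφ Y r hr hY hlog
        rw [hA] at h2 h3
        exact ⟨k, h1, h2, h3⟩)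
      have h0 : (0 : ℕ) ∉ Spectrum L φ := fun h => absurd h.1 (lt_irrefl 0)
      have hD3 : ∀ n ∈ Spectrum L φ, B < n → n + D ∈ Spectrum L φ :=
        fun n hn hBn => hD2 n hn hBn.le
      constructor
      · obtain ⟨N, hN⟩ := Pool.Agent.Helper31.Spectra.eventually_periodic (Spectrum L φ) B D hD hD3
        exact ⟨N, D, hD, hN⟩
      · exact (Pool.Agent.Helper31.Spectra.isSpectrum_compl (Spectrum L φ) h0 B D hD hD3).2
    refine ⟨h, ?_, key, ?_⟩
    · intro A _ _ Y r hφ hr hY hlog
      obtain ⟨k, h1, h2, -⟩ := hh A hφ Y r hr hY hlog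
      exact ⟨k, h1, h2⟩
    · intro B hB
      refine key (max B (tw h 1)) fun n hn hBn => ?_
      obtain ⟨A, sA, hA, hφ, hw⟩ := hB n hn ((le_max_left _ _).trans hBn)
      refine ⟨A, sA, Set.univ, (Nat.log 2)^[h] n, hA, hφ, ?_, hw, ?_⟩
      · have h1 := logi_mono h ((le_max_right _ _).trans hBn)
        rw [log_tw] at h1
        exact h1
      · rw [Set.ncard_univ, hA]
  · intro h hyp L φ hL
    refine barrier h ?_ L φ hL
    intro LB φ' h1 h2 h3 h4
    exact hyp LB φ' ⟨⟨h1, h3⟩, h2, fun M _ _ _ hM => h4 M hM⟩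
  · intro h
    obtain ⟨LB, φ, h1, h2, h3, h4, h5⟩ := not_periodic h
    refine ⟨LB, φ, ⟨⟨h1, h3⟩, h2, fun M _ _ _ hM => h4 M hM⟩, ?_⟩
    rintro ⟨N, p, hp, hN⟩
    exact h5 ⟨N, p, hp, hN⟩

end Pool.Agent.Helper72.WT.WidthThreshold
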